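import Pool.Agent.Helper497.HS.Clt

set_option autoImplicit false

namespace Pool.Agent.Helper497.HS





lemma le_of_sq_le_sq_h965 {a b : ℝ} (h : a ^ 2 ≤ b ^ 2) (hb : 0 ≤ b) : a ≤ b := by
  nlinarith [abs_nonneg a, le_abs_self a, abs_le_of_sq_le_sq h hb]

lemma cb_bound_h965 (n : ℕ) : (2 * n + 1) * (Nat.centralBinom n) ^ 2 ≤ 16 ^ n := by
  induction n with
  | zero => simp
  | succ n ih =>
    have h := Nat.succ_mul_centralBinom_succ n
    have h2 : (n + 1) ^ 2 * ((2 * (n + 1) + 1) * (Nat.centralBinom (n + 1)) ^ 2) ≤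
        (n + 1) ^ 2 * 16 ^ (n + 1) := by
      calc (n + 1) ^ 2 * ((2 * (n + 1) + 1) * (Nat.centralBinom (n + 1)) ^ 2)
          = (2 * n + 3) * ((n + 1) * Nat.centralBinom (n + 1)) ^ 2 := by ring
        _ = (2 * n + 3) * (2 * (2 * n + 1) * Nat.centralBinom n) ^ 2 := by rw [h]
        _ = 4 * (2 * n + 1) * (2 * n + 3) * ((2 * n + 1) * (Nat.centralBinom n) ^ 2) := by ring
        _ ≤ 4 * (2 * n + 1) * (2 * n + 3) * 16 ^ n := Nat.mul_le_mul_left _ ih
        _ ≤ (n + 1) ^ 2 * 16 ^ (n + 1) := by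
            rw [pow_succ 16 n]
            have : 4 * (2 * n + 1) * (2 * n + 3) ≤ (n + 1) ^ 2 * 16 := by nlinarith
            calc 4 * (2 * n + 1) * (2 * n + 3) * 16 ^ n ≤ ((n + 1) ^ 2 * 16) * 16 ^ n :=
                  Nat.mul_le_mul_right _ this
              _ = (n + 1) ^ 2 * (16 ^ n * 16) := by ring
    exact Nat.le_of_mul_le_mul_left h2 (by positivity)

lemma choose_bound_h965 (m : ℕ) : m * (m.choose (m / 2)) ^ 2 ≤ (2 ^ m) ^ 2 := by
  rcases Nat.even_or_odd' m with ⟨n, rfl | rfl⟩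
  · have h := cb_bound_h965 n
    rw [Nat.centralBinom_eq_two_mul_choose] at h
    have h2 : 2 * n / 2 = n := by omega
    rw [h2]
    have h3 : (2 ^ (2 * n)) ^ 2 = 16 ^ n := by
      rw [← pow_mul, show 2 * n * 2 = 4 * n by ring, pow_mul]; norm_num
    rw [h3]
    calc 2 * n * ((2 * n).choose n) ^ 2 ≤ (2 * n + 1) * ((2 * n).choose n) ^ 2 :=
          Nat.mul_le_mul_right _ (by omega)
      _ ≤ 16 ^ n := h
  · have h := cb_bound_h965 (n + 1)
    have h2 : (2 * n + 1) / 2 = n := by omega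
    rw [h2]
    have h4 : Nat.centralBinom (n + 1) = 2 * (2 * n + 1).choose n := by
      rw [Nat.centralBinom_eq_two_mul_choose, show 2 * (n + 1) = (2 * n + 1) + 1 by ring,
        Nat.choose_succ_succ]
      have : (2 * n + 1).choose n.succ = (2 * n + 1).choose n := Nat.choose_symm_half n
      omega
    rw [h4] at h
    have h3 : (2 ^ (2 * n + 1)) ^ 2 * 4 = 16 ^ (n + 1) := by
      rw [← pow_mul, show (2 * n + 1) * 2 = 4 * n + 2 by ring, pow_add, pow_mul, pow_succ]; norm_num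
      ring
    have h5 : (2 * (n + 1) + 1) * (2 * (2 * n + 1).choose n) ^ 2 =
        ((2 * n + 3) * ((2 * n + 1).choose n) ^ 2) * 4 := by ring
    rw [h5, ← h3] at h
    have h6 := Nat.le_of_mul_le_mul_right h (by norm_num)
    calc (2 * n + 1) * ((2 * n + 1).choose n) ^ 2 ≤ (2 * n + 3) * ((2 * n + 1).choose n) ^ 2 :=
          Nat.mul_le_mul_right _ (by omega)
      _ ≤ _ := h6

lemma count_h965 (m : ℕ) (r : ℤ) :
    (Finset.univ.filter (fun x : Fin m → ℤˣ => ∑ i, (x i : ℤ) = r)).card ≤ m.choose (m / 2) := by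
  classical
  -- map to the set of `+1` coordinates
  have hsum : ∀ x : Fin m → ℤˣ, ∑ i, (x i : ℤ) =
      2 * ((Finset.univ.filter (fun i => x i = 1)).card : ℤ) - m := by
    intro x
    have h1 : ∀ i, (x i : ℤ) = 2 * (if x i = 1 then (1 : ℤ) else 0) - 1 := by
      intro i
      rcases Int.units_eq_one_or (x i) with h | h
      · simp [h]
      · rw [h]; simp
    rw [Finset.sum_congr rfl (fun i _ => h1 i), Finset.sum_sub_distrib, ← Finset.mul_sum]
    simp
  have hinj : ∀ x y : Fin m → ℤˣ, (Finset.univ.filter (fun i => x i = 1)) =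
      (Finset.univ.filter (fun i => y i = 1)) → x = y := by
    intro x y h
    funext i
    have h1 : x i = 1 ↔ y i = 1 := by
      have := Finset.ext_iff.mp h i
      simpa using this
    rcases Int.units_eq_one_or (x i) with hx | hx <;> rcases Int.units_eq_one_or (y i) with hy | hy
    · rw [hx, hy]
    · exact absurd (h1.mp hx) (by rw [hy]; decide)
    · exact absurd (h1.mpr hy) (by rw [hx]; decide)
    · rw [hx, hy]
  by_cases hne : (Finset.univ.filter (fun x : Fin m → ℤˣ => ∑ i, (x i : ℤ) = r)).Nonempty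
  · obtain ⟨x0, hx0⟩ := hne
    set k := (Finset.univ.filter (fun i => x0 i = 1)).card with hk
    have hx0' : ∑ i, (x0 i : ℤ) = r := by simpa using hx0
    have h1 : (Finset.univ.filter (fun x : Fin m → ℤˣ => ∑ i, (x i : ℤ) = r)).card ≤
        (Finset.powersetCard k (Finset.univ : Finset (Fin m))).card := by
      refine Finset.card_le_card_of_injOn (fun x => Finset.univ.filter (fun i => x i = 1)) ?_ ?_
      · intro x hx
        have hx' : ∑ i, (x i : ℤ) = r := by simpa using hx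
        rw [hsum x] at hx'
        rw [hsum x0] at hx0'
        simp only [Finset.mem_coe, Finset.mem_powersetCard]
        refine ⟨Finset.subset_univ _, ?_⟩
        have : ((Finset.univ.filter (fun i => x i = 1)).card : ℤ) = k := by rw [hk]; linarith
        exact_mod_cast this
      · intro x _ y _ h
        exact hinj x y h
    refine h1.trans ?_
    rw [Finset.card_powersetCard, Finset.card_univ, Fintype.card_fin]
    exact Nat.choose_le_middle k m
  · rw [Finset.not_nonempty_iff_eq_empty] at hne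
    rw [hne]; simp

theorem binom_anticonc : ∃ C : ℝ, 0 < C ∧ ∀ (m : ℕ), 0 < m → ∀ (t s : ℝ), 0 ≤ s →
    Ex (fun x : Fin m → ℤˣ =>
      if |lin (fun _ => 1 / Real.sqrt m) x - t| ≤ s then (1:ℝ) else 0) ≤ C * (s + 1 / Real.sqrt m) := by
  classical
  refine ⟨2, by norm_num, fun m hm t s hs => ?_⟩
  have hm' : (0 : ℝ) < m := by exact_mod_cast hm
  have hsq : 0 < Real.sqrt m := Real.sqrt_pos.mpr hm'
  set q := Real.sqrt m with hq
  -- the linear form
  have hlin : ∀ x : Fin m → ℤˣ, lin (fun _ => 1 / q) x = ((∑ i, (x i : ℤ) : ℤ) : ℝ) / q := by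
    intro x
    unfold lin sv
    rw [← Finset.mul_sum]
    push_cast
    ring
  have hcond : ∀ x : Fin m → ℤˣ, |lin (fun _ => 1 / q) x - t| ≤ s →
      (∑ i, (x i : ℤ)) ∈ Finset.Icc ⌈(t - s) * q⌉ ⌊(t + s) * q⌋ := by
    intro x hx
    rw [hlin, abs_le] at hx
    rw [Finset.mem_Icc, Int.ceil_le, Int.le_floor]
    constructor
    · have h1 : t - s ≤ ((∑ i, (x i : ℤ) : ℤ) : ℝ) / q := by linarith [hx.1]
      rwa [le_div_iff₀ hsq] at h1
    · have h1 : ((∑ i, (x i : ℤ) : ℤ) : ℝ) / q ≤ t + s := by linarith [hx.2]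
      rwa [div_le_iff₀ hsq] at h1
  have hcount : ((Finset.univ.filter (fun x : Fin m → ℤˣ => |lin (fun _ => 1 / q) x - t| ≤ s)).card : ℝ)
      ≤ (2 * s * q + 1) * (m.choose (m / 2) : ℝ) := by
    have h1 : (Finset.univ.filter (fun x : Fin m → ℤˣ => |lin (fun _ => 1 / q) x - t| ≤ s)) ⊆
        (Finset.Icc ⌈(t - s) * q⌉ ⌊(t + s) * q⌋).biUnion
          (fun r => Finset.univ.filter (fun x : Fin m → ℤˣ => ∑ i, (x i : ℤ) = r)) := by
      intro x hx
      rw [Finset.mem_filter] at hx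
      rw [Finset.mem_biUnion]
      exact ⟨_, hcond x hx.2, by simp⟩
    have h2 : (Finset.univ.filter (fun x : Fin m → ℤˣ => |lin (fun _ => 1 / q) x - t| ≤ s)).card ≤
        (Finset.Icc ⌈(t - s) * q⌉ ⌊(t + s) * q⌋).card * m.choose (m / 2) :=
      (Finset.card_le_card h1).trans (Finset.card_biUnion_le_card_mul _ _ _ (fun r _ => count_h965 m r))
    have h3 : ((Finset.Icc ⌈(t - s) * q⌉ ⌊(t + s) * q⌋).card : ℝ) ≤ 2 * s * q + 1 := by
      rw [Int.card_Icc]
      have h4 : (((⌊(t + s) * q⌋ + 1 - ⌈(t - s) * q⌉).toNat : ℤ) : ℝ) ≤ 2 * s * q + 1 := by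
        rw [Int.toNat_eq_max]
        push_cast
        apply max_le
        · have h5 := Int.floor_le ((t + s) * q)
          have h6 := Int.le_ceil ((t - s) * q)
          nlinarith
        · positivity
      exact_mod_cast h4
    calc ((Finset.univ.filter (fun x : Fin m → ℤˣ => |lin (fun _ => 1 / q) x - t| ≤ s)).card : ℝ)
        ≤ ((Finset.Icc ⌈(t - s) * q⌉ ⌊(t + s) * q⌋).card : ℝ) * (m.choose (m / 2) : ℝ) := by
          exact_mod_cast h2
      _ ≤ _ := mul_le_mul_of_nonneg_right h3 (Nat.cast_nonneg _)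
  have hch : (m.choose (m / 2) : ℝ) * q ≤ 2 ^ m := by
    have h1 : (m : ℝ) * (m.choose (m / 2) : ℝ) ^ 2 ≤ (2 ^ m) ^ 2 := by
      exact_mod_cast choose_bound_h965 m
    have h2 : ((m.choose (m / 2) : ℝ) * q) ^ 2 ≤ (2 ^ m) ^ 2 := by
      rw [mul_pow, hq, Real.sq_sqrt hm'.le]; linarith
    exact le_of_sq_le_sq_h965 h2 (by positivity)
  have hE : Ex (fun x : Fin m → ℤˣ => if |lin (fun _ => 1 / q) x - t| ≤ s then (1:ℝ) else 0) =
      ((Finset.univ.filter (fun x : Fin m → ℤˣ => |lin (fun _ => 1 / q) x - t| ≤ s)).card : ℝ) / 2 ^ m := by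
    unfold Ex
    congr 1
    · simp
    · simp [Fintype.card_units_int]
  rw [hE, div_le_iff₀ (by positivity)]
  calc ((Finset.univ.filter (fun x : Fin m → ℤˣ => |lin (fun _ => 1 / q) x - t| ≤ s)).card : ℝ)
      ≤ (2 * s * q + 1) * (m.choose (m / 2) : ℝ) := hcount
    _ = (2 * s + 1 / q) * ((m.choose (m / 2) : ℝ) * q) := by field_simp
    _ ≤ (2 * s + 1 / q) * 2 ^ m := mul_le_mul_of_nonneg_left hch (by positivity)
    _ ≤ 2 * (s + 1 / q) * 2 ^ m := by
        have : 0 < 1 / q := by positivity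
        have h2 : (0:ℝ) < 2 ^ m := by positivity
        nlinarith

lemma phi_lower_h965 (s y : ℝ) (hs : 0 < s) :
    s * (if |y| ≤ s / 2 then (1:ℝ) else 0) ≤ |y - s| + |y + s| - 2 * |y| := by
  split_ifs with h
  · have h1 := abs_le.mp h
    rw [abs_of_nonpos (by linarith : y - s ≤ 0), abs_of_nonneg (by linarith : 0 ≤ y + s)]
    linarith
  · have h1 : |2 * y| ≤ |y - s| + |y + s| := by
      have := abs_add_le (y - s) (y + s)
      rwa [show y - s + (y + s) = 2 * y by ring] at this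
    rw [abs_mul, abs_two] at h1
    linarith

lemma phi_upper_h965 (s y : ℝ) (hs : 0 < s) :
    |y - s| + |y + s| - 2 * |y| ≤ 2 * s * (if |y| ≤ s then (1:ℝ) else 0) := by
  split_ifs with h
  · have h1 := abs_le.mp h
    rw [abs_of_nonpos (by linarith : y - s ≤ 0), abs_of_nonneg (by linarith : 0 ≤ y + s)]
    have := abs_nonneg y
    linarith
  · push Not at h
    rcases le_total 0 y with hy | hy
    · rw [abs_of_nonneg hy] at h ⊢
      rw [abs_of_nonneg (by linarith : 0 ≤ y - s), abs_of_nonneg (by linarith : 0 ≤ y + s)]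
      linarith
    · rw [abs_of_nonpos hy] at h ⊢
      rw [abs_of_nonpos (by linarith : y - s ≤ 0), abs_of_nonpos (by linarith : y + s ≤ 0)]
      linarith

theorem anticonc (ρ : ℝ) (hρ : 0 < ρ) : ∃ s : ℝ, 0 < s ∧ ∃ β : ℝ, 0 < β ∧
    ∀ (A : Type) [Fintype A] [DecidableEq A] (V : A → ℝ), ∑ i, V i ^ 2 = 1 → (∀ i, |V i| ≤ β) →
      ∀ t : ℝ, Ex (fun x : A → ℤˣ => if |lin V x - t| ≤ s then (1:ℝ) else 0) ≤ ρ := by
  classical
  obtain ⟨C, hC, hbin⟩ := binom_anticonc
  set s0 := ρ / (8 * C) with hs0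
  have hs0p : 0 < s0 := by positivity
  obtain ⟨β, hβ, hclt⟩ := clt_compare (s0 * ρ / 16) (by positivity)
  refine ⟨s0 / 2, by positivity, β, hβ, ?_⟩
  intro A _ _ V hV hVβ t
  -- choose m
  obtain ⟨m, hm⟩ := exists_nat_gt (max (1 / β ^ 2) (1 / s0 ^ 2))
  have hm1 : 1 / β ^ 2 < m := lt_of_le_of_lt (le_max_left _ _) hm
  have hm2 : 1 / s0 ^ 2 < m := lt_of_le_of_lt (le_max_right _ _) hm
  have hm0 : (0 : ℝ) < m := lt_trans (by positivity) hm1
  have hmpos : 0 < m := by exact_mod_cast hm0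
  have hsq : 0 < Real.sqrt m := Real.sqrt_pos.mpr hm0
  have hinv : ∀ b : ℝ, 0 < b → 1 / b ^ 2 < m → 1 / Real.sqrt m ≤ b := by
    intro b hb h
    rw [div_le_iff₀ hsq]
    rw [div_lt_iff₀ (by positivity)] at h
    have h2 : (1 : ℝ) ^ 2 ≤ (b * Real.sqrt m) ^ 2 := by
      rw [mul_pow, Real.sq_sqrt hm0.le]; nlinarith
    exact le_of_sq_le_sq_h965 h2 (by positivity)
  have hiβ := hinv β hβ hm1
  have his := hinv s0 hs0p hm2
  let W : Fin m → ℝ := fun _ => 1 / Real.sqrt m
  have hW : ∑ j, W j ^ 2 = 1 := by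
    simp only [W, Finset.sum_const, Finset.card_univ, Fintype.card_fin, nsmul_eq_mul]
    rw [div_pow, Real.sq_sqrt hm0.le]
    field_simp
  have hWβ : ∀ j, |W j| ≤ β := by
    intro j
    simp only [W]
    rw [abs_of_pos (by positivity)]
    exact hiβ
  have key : ∀ u : ℝ, |Ex (fun x : Fin m → ℤˣ => |lin W x - u|) - Ex (fun x : A → ℤˣ => |lin V x - u|)| ≤
      s0 * ρ / 16 := fun u => hclt A (Fin m) V W hV hW hVβ hWβ u
  have hexp : ∀ (B : Type) [Fintype B] (g : B → ℝ),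
      Ex (fun x => |g x - t - s0| + |g x - t + s0| - 2 * |g x - t|) =
      Ex (fun x => |g x - (t + s0)|) + Ex (fun x => |g x - (t - s0)|) - 2 * Ex (fun x => |g x - t|) := by
    intro B _ g
    rw [Ex_sub, Ex_add, Ex_const_mul]
    congr 2
    · congr 1
      funext x; congr 1; ring
    · congr 1
      funext x; congr 1; ring
  have h1 : s0 * Ex (fun x : A → ℤˣ => if |lin V x - t| ≤ s0 / 2 then (1:ℝ) else 0) ≤
      Ex (fun x : A → ℤˣ => |lin V x - t - s0| + |lin V x - t + s0| - 2 * |lin V x - t|) := by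
    rw [← Ex_const_mul]
    exact Ex_mono fun x => phi_lower_h965 s0 (lin V x - t) hs0p
  have h2 : Ex (fun x : Fin m → ℤˣ => |lin W x - t - s0| + |lin W x - t + s0| - 2 * |lin W x - t|) ≤
      2 * s0 * Ex (fun x : Fin m → ℤˣ => if |lin W x - t| ≤ s0 then (1:ℝ) else 0) := by
    rw [← Ex_const_mul]
    exact Ex_mono fun x => phi_upper_h965 s0 (lin W x - t) hs0p
  rw [hexp] at h1 h2
  have k1 := abs_le.mp (key (t + s0))
  have k2 := abs_le.mp (key (t - s0))
  have k3 := abs_le.mp (key t)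
  have h3 := hbin m hmpos t s0 hs0p.le
  have h4 : Ex (fun x : Fin m → ℤˣ => if |lin W x - t| ≤ s0 then (1:ℝ) else 0) ≤ ρ / 4 := by
    refine h3.trans ?_
    calc C * (s0 + 1 / Real.sqrt m) ≤ C * (s0 + s0) := by gcongr
      _ = ρ / 4 := by rw [hs0]; field_simp; ring
  have h5 : s0 * Ex (fun x : A → ℤˣ => if |lin V x - t| ≤ s0 / 2 then (1:ℝ) else 0) ≤
      2 * s0 * (ρ / 4) + 4 * (s0 * ρ / 16) := by
    have h6 := mul_le_mul_of_nonneg_left h4 (by positivity : (0:ℝ) ≤ 2 * s0)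
    linarith [k1.1, k1.2, k2.1, k2.2, k3.1, k3.2]
  have h7 : s0 * Ex (fun x : A → ℤˣ => if |lin V x - t| ≤ s0 / 2 then (1:ℝ) else 0) ≤ s0 * ρ := by
    have : 0 < s0 * ρ := by positivity
    linarith
  exact le_of_mul_le_mul_left h7 hs0p

end Pool.Agent.Helper497.HS
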