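import Pool.Agent.Helper497.HS.Moments

set_option autoImplicit false

namespace Pool.Agent.Helper497.HS


variable {ι : Type} [Fintype ι] [DecidableEq ι]





variable {κ : Type} [Fintype κ] [DecidableEq κ] [Nonempty κ]

omit [Fintype ι] [DecidableEq ι] [Fintype κ] [Nonempty κ] in
theorem g7638_lin [Fintype ι] (b : ι → ℝ) (z : ι → ℤˣ) (c : ι → κ) (j : κ) :
    ∑ i with c i = j, sv (z i) * b i = lin (fun i => if c i = j then b i else 0) z := by
  rw [Finset.sum_filter, lin]
  refine Finset.sum_congr rfl fun i _ => ?_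
  split_ifs
  · ring
  · ring

theorem g7638_coll {i i' : ι} (h : i ≠ i') :
    Ex (fun c : ι → κ => if c i = c i' then (1:ℝ) else 0) = 1 / Fintype.card κ := by
  have h' : i' ≠ i := fun e => h e.symm
  let g : κ × ({j // j ≠ i} → κ) → ℝ := fun p => if p.1 = p.2 ⟨i', h'⟩ then (1:ℝ) else 0
  have h1 : Ex (fun c : ι → κ => if c i = c i' then (1:ℝ) else 0) =
      Ex (fun c : ι → κ => g (Equiv.funSplitAt i κ c)) := by
    apply Ex_congr
    intro c
    simp [g]
  rw [h1, Ex_equiv, Ex_prod, Ex_comm]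
  have h2 : ∀ r : {j // j ≠ i} → κ, Ex (fun k : κ => g (k, r)) = 1 / Fintype.card κ := by
    intro r
    simp [g, Ex]
  rw [Ex_congr h2, Ex_const]

theorem g7638_coll_le (i i' : ι) :
    Ex (fun c : ι → κ => if c i = c i' then (1:ℝ) else 0) ≤
      (if i = i' then 1 else 0) + 1 / Fintype.card κ := by
  by_cases h : i = i'
  · subst h
    simp only [if_true]
    rw [Ex_const]
    have : (0:ℝ) ≤ 1 / Fintype.card κ := by positivity
    linarith
  · rw [g7638_coll h, if_neg h, zero_add]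

theorem block_sq (b : ι → ℝ) :
    Ex (fun zc : (ι → ℤˣ) × (ι → κ) => ∑ j : κ, (∑ i with zc.2 i = j, sv (zc.1 i) * b i) ^ 2)
      = ∑ i, b i ^ 2 := by
  rw [Ex_prod, Ex_comm]
  have h1 : ∀ c : ι → κ, Ex (fun z : ι → ℤˣ =>
      ∑ j : κ, (∑ i with c i = j, sv (z i) * b i) ^ 2) = ∑ i, b i ^ 2 := by
    intro c
    simp only [g7638_lin]
    rw [Ex_sum]
    simp only [Ex_lin_sq]
    rw [Finset.sum_comm]
    refine Finset.sum_congr rfl fun i _ => ?_
    rw [Finset.sum_eq_single (c i)]
    · simp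
    · intro j _ hj
      rw [if_neg (fun e => hj e.symm)]
      simp
    · intro hn
      exact absurd (Finset.mem_univ _) hn
  rw [Ex_congr h1, Ex_const]

theorem block_four (b : ι → ℝ) :
    Ex (fun zc : (ι → ℤˣ) × (ι → κ) => ∑ j : κ, (∑ i with zc.2 i = j, sv (zc.1 i) * b i) ^ 4)
      ≤ 3 * (∑ i, b i ^ 4 + (∑ i, b i ^ 2) ^ 2 / Fintype.card κ) := by
  rw [Ex_prod, Ex_comm]
  have h1 : ∀ c : ι → κ, Ex (fun z : ι → ℤˣ =>
      ∑ j : κ, (∑ i with c i = j, sv (z i) * b i) ^ 4) ≤
      3 * ∑ i, ∑ i', b i ^ 2 * b i' ^ 2 * (if c i = c i' then (1:ℝ) else 0) := by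
    intro c
    simp only [g7638_lin]
    rw [Ex_sum]
    have h2 : ∀ j : κ, Ex (fun z : ι → ℤˣ => lin (fun i => if c i = j then b i else 0) z ^ 4) ≤
        3 * (∑ i, (if c i = j then b i else 0) ^ 2) ^ 2 := fun j => Ex_lin_four _
    refine (Finset.sum_le_sum fun j _ => h2 j).trans (le_of_eq ?_)
    rw [← Finset.mul_sum]
    congr 1
    have h3 : ∀ j : κ, (∑ i, (if c i = j then b i else 0) ^ 2) ^ 2 =
        ∑ i, ∑ i', b i ^ 2 * b i' ^ 2 * (if c i = j then (if c i' = j then (1:ℝ) else 0) else 0) := by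
      intro j
      rw [sq, Finset.sum_mul_sum]
      refine Finset.sum_congr rfl fun i _ => Finset.sum_congr rfl fun i' _ => ?_
      split_ifs <;> simp
    simp only [h3]
    rw [Finset.sum_comm]
    refine Finset.sum_congr rfl fun i _ => ?_
    rw [Finset.sum_comm]
    refine Finset.sum_congr rfl fun i' _ => ?_
    rw [← Finset.mul_sum]
    congr 1
    rw [Finset.sum_ite_eq]
    simp only [Finset.mem_univ, if_true]
    simp only [eq_comm]
  refine (Ex_mono h1).trans ?_
  rw [Ex_const_mul]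
  refine mul_le_mul_of_nonneg_left ?_ (by norm_num)
  rw [Ex_sum]
  have h4 : ∀ i : ι, Ex (fun c : ι → κ => ∑ i', b i ^ 2 * b i' ^ 2 *
      (if c i = c i' then (1:ℝ) else 0)) ≤
      ∑ i', b i ^ 2 * b i' ^ 2 * ((if i = i' then 1 else 0) + 1 / Fintype.card κ) := by
    intro i
    rw [Ex_sum]
    refine Finset.sum_le_sum fun i' _ => ?_
    rw [Ex_const_mul]
    exact mul_le_mul_of_nonneg_left (g7638_coll_le i i') (by positivity)
  refine (Finset.sum_le_sum fun i _ => h4 i).trans (le_of_eq ?_)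
  simp only [mul_add, Finset.sum_add_distrib]
  congr 1
  · refine Finset.sum_congr rfl fun i _ => ?_
    simp only [mul_ite, mul_one, mul_zero]
    rw [Finset.sum_ite_eq]
    simp only [Finset.mem_univ, if_true]
    ring
  · rw [sq (∑ i, b i ^ 2), Finset.sum_mul_sum, Finset.sum_div]
    refine Finset.sum_congr rfl fun i _ => ?_
    rw [Finset.sum_div]
    refine Finset.sum_congr rfl fun i' _ => ?_
    ring

theorem inj_fail (J : Finset ι) [DecidablePred fun c : ι → κ => Set.InjOn c (J : Set ι)] :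
    Ex (fun c : ι → κ => if Set.InjOn c (J : Set ι) then (0:ℝ) else 1)
      ≤ (J.card : ℝ) ^ 2 / Fintype.card κ := by
  have h1 : ∀ c : ι → κ, (if Set.InjOn c (J : Set ι) then (0:ℝ) else 1) ≤
      ∑ i ∈ J, ∑ i' ∈ J, (if i = i' then 0 else 1) * (if c i = c i' then (1:ℝ) else 0) := by
    intro c
    have hnn : ∀ i i' : ι, (0:ℝ) ≤ (if i = i' then 0 else 1) * (if c i = c i' then (1:ℝ) else 0) := by
      intro i i'
      split_ifs <;> simp
    split_ifs with h
    · exact Finset.sum_nonneg fun i _ => Finset.sum_nonneg fun i' _ => hnn i i'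
    · rw [Set.InjOn] at h
      push Not at h
      obtain ⟨i, hi, i', hi', hc, hne⟩ := h
      calc (1:ℝ) = (if i = i' then 0 else 1) * (if c i = c i' then (1:ℝ) else 0) := by
            rw [if_neg hne, if_pos hc, one_mul]
        _ ≤ ∑ i' ∈ J, (if i = i' then 0 else 1) * (if c i = c i' then (1:ℝ) else 0) :=
            Finset.single_le_sum (f := fun i' => (if i = i' then (0:ℝ) else 1) * (if c i = c i' then (1:ℝ) else 0))
              (fun k _ => hnn i k) (Finset.mem_coe.mp hi')
        _ ≤ _ := Finset.single_le_sum (f := fun i => ∑ i' ∈ J, (if i = i' then (0:ℝ) else 1) * (if c i = c i' then (1:ℝ) else 0))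
              (fun k _ => Finset.sum_nonneg fun k' _ => hnn k k') (Finset.mem_coe.mp hi)
  refine (Ex_mono h1).trans ?_
  rw [Ex_sum]
  have h2 : ∀ i ∈ J, Ex (fun c : ι → κ => ∑ i' ∈ J, (if i = i' then 0 else 1) *
      (if c i = c i' then (1:ℝ) else 0)) ≤ ∑ i' ∈ J, 1 / (Fintype.card κ : ℝ) := by
    intro i _
    rw [Ex_sum]
    refine Finset.sum_le_sum fun i' _ => ?_
    by_cases h : i = i'
    · simp only [if_pos h, zero_mul]
      rw [Ex_const]
      positivity
    · simp only [if_neg h, one_mul]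
      rw [g7638_coll h]
  refine (Finset.sum_le_sum h2).trans (le_of_eq ?_)
  simp only [Finset.sum_const, nsmul_eq_mul]
  ring

end Pool.Agent.Helper497.HS
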