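import Pool.Agent.Helper497.HS.Moments

set_option autoImplicit false

namespace Pool.Agent.Helper497.HS


section
variable {ι : Type} [Fintype ι] [DecidableEq ι]




end

/-- functions with a second order expansion with uniform cubic error -/
def ClsD (K : ℝ) (g : ℝ → ℝ) : Prop :=
  ∀ x, ∃ a b : ℝ, ∀ h : ℝ, |g (x + h) - g x - a * h - b * h ^ 2| ≤ K * |h| ^ 3

lemma ClsD_shift {K : ℝ} {g : ℝ → ℝ} (hg : ClsD K g) (c : ℝ) : ClsD K (fun x => g (c + x)) := by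
  intro x
  obtain ⟨a, b, h⟩ := hg (c + x)
  refine ⟨a, b, fun t => ?_⟩
  have := h t
  simp only
  rwa [← add_assoc]

lemma ClsD_avg {Ω : Type} [Fintype Ω] [Nonempty Ω] {K : ℝ} {g : ℝ → ℝ} (hg : ClsD K g) (S : Ω → ℝ) :
    ClsD K (fun x => Ex (fun ω => g (x + S ω))) := by
  intro x
  choose a b hab using hg
  refine ⟨Ex (fun ω => a (x + S ω)), Ex (fun ω => b (x + S ω)), fun h => ?_⟩
  have h1 : Ex (fun ω => g (x + h + S ω)) - Ex (fun ω => g (x + S ω)) -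
      Ex (fun ω => a (x + S ω)) * h - Ex (fun ω => b (x + S ω)) * h ^ 2 =
      Ex (fun ω => g (x + S ω + h) - g (x + S ω) - a (x + S ω) * h - b (x + S ω) * h ^ 2) := by
    rw [Ex_sub, Ex_sub, Ex_sub, Ex_mul_const, Ex_mul_const]
    congr 3
    apply Ex_congr
    intro ω
    congr 1
    ring
  simp only
  rw [h1]
  refine (abs_Ex_le _).trans ?_
  refine (Ex_mono (h := fun _ => K * |h| ^ 3) fun ω => hab (x + S ω) h).trans ?_
  rw [Ex_const]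

lemma ClsD_sqrt (t s : ℝ) (hs : 0 < s) :
    ClsD (1 / (2 * s ^ 2)) (fun x => Real.sqrt ((x - t) ^ 2 + s ^ 2)) := by
  intro x
  obtain ⟨X, hX⟩ : ∃ X, X = x - t := ⟨_, rfl⟩
  obtain ⟨r, hr⟩ : ∃ r, r = Real.sqrt (X ^ 2 + s ^ 2) := ⟨_, rfl⟩
  refine ⟨X / r, s ^ 2 / (2 * r ^ 3), fun h => ?_⟩
  obtain ⟨r', hr'⟩ : ∃ r', r' = Real.sqrt ((X + h) ^ 2 + s ^ 2) := ⟨_, rfl⟩
  have e1 : Real.sqrt ((x + h - t) ^ 2 + s ^ 2) = r' := by
    rw [hr', hX]; congr 2; ring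
  have e2 : Real.sqrt ((x - t) ^ 2 + s ^ 2) = r := by
    rw [hr, hX]
  simp only
  rw [e1, e2]
  have hs2 : 0 < s ^ 2 := by positivity
  have hr2 : r ^ 2 = X ^ 2 + s ^ 2 := by
    rw [hr, Real.sq_sqrt (by positivity)]
  have hr2' : r' ^ 2 = (X + h) ^ 2 + s ^ 2 := by
    rw [hr', Real.sq_sqrt (by positivity)]
  have hrp : 0 < r := by rw [hr]; positivity
  have hrp' : 0 < r' := by rw [hr']; positivity
  have hXr : |X| ≤ r := by
    apply abs_le_of_sq_le_sq _ hrp.le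
    rw [hr2]; linarith
  have hCS : |X * (X + h)| + s ^ 2 ≤ r * r' := by
    apply le_of_sq_le_sq _ (by positivity)
    have h1 : (r * r') ^ 2 = (X ^ 2 + s ^ 2) * ((X + h) ^ 2 + s ^ 2) := by
      rw [mul_pow, hr2, hr2']
    rw [h1]
    have h2 : |X * (X + h)| ^ 2 = (X * (X + h)) ^ 2 := sq_abs _
    have h3 : 2 * |X * (X + h)| ≤ X ^ 2 + (X + h) ^ 2 := by
      rw [abs_mul]
      have h4 := sq_nonneg (|X| - |X + h|)
      have h5 := sq_abs X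
      have h6 := sq_abs (X + h)
      nlinarith
    nlinarith
  have hD : 2 * s ^ 2 ≤ r * r' + r ^ 2 + X * h := by
    have h1 := neg_abs_le (X * (X + h))
    rw [hr2]
    nlinarith
  obtain ⟨D, hDdef⟩ : ∃ D, D = r * r' + r ^ 2 + X * h := ⟨_, rfl⟩
  rw [← hDdef] at hD
  have hDp : 0 < D := by linarith
  have hlip : |r - r'| ≤ |h| := by
    have h1 : (r - r') * (r + r') = -(h * (2 * X + h)) := by
      have : (r - r') * (r + r') = r ^ 2 - r' ^ 2 := by ring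
      rw [this, hr2, hr2']; ring
    have hXh : |X + h| ≤ r' := by
      apply abs_le_of_sq_le_sq _ hrp'.le
      rw [hr2']; linarith
    have h2 : |2 * X + h| ≤ r + r' := by
      have : 2 * X + h = X + (X + h) := by ring
      rw [this]
      exact (abs_add_le _ _).trans (add_le_add hXr hXh)
    have h3 : |r - r'| * (r + r') ≤ |h| * (r + r') := by
      have h4 : |r - r'| * (r + r') = |(r - r') * (r + r')| := by
        rw [abs_mul, abs_of_pos (show 0 < r + r' by positivity)]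
      rw [h4, h1, abs_neg, abs_mul]
      exact mul_le_mul_of_nonneg_left h2 (abs_nonneg _)
    exact le_of_mul_le_mul_right h3 (by positivity)
  have hkey : r' - r - X / r * h - s ^ 2 / (2 * r ^ 3) * h ^ 2 =
      s ^ 2 * h ^ 2 * (2 * r ^ 2 - D) / (2 * r ^ 3 * D) := by
    have h1 : (r' * r - r ^ 2 - X * h) * D = s ^ 2 * h ^ 2 := by
      rw [hDdef]
      have : (r' * r - r ^ 2 - X * h) * (r * r' + r ^ 2 + X * h) =
        r ^ 2 * r' ^ 2 - (r ^ 2 + X * h) ^ 2 := by ring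
      rw [this, hr2', hr2]; ring
    field_simp
    have h2 : s ^ 2 * h ^ 2 * (2 * r ^ 2 - D) = 2 * r ^ 2 * ((r' * r - r ^ 2 - X * h) * D) - s ^ 2 * h ^ 2 * D := by
      rw [h1]; ring
    linear_combination (-1 : ℝ) * h2
  rw [hkey]
  have h2rD : |2 * r ^ 2 - D| ≤ 2 * r * |h| := by
    have : 2 * r ^ 2 - D = r * (r - r') - X * h := by rw [hDdef]; ring
    rw [this]
    refine (abs_sub _ _).trans ?_
    rw [abs_mul, abs_mul, abs_of_pos hrp]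
    have h1 := mul_le_mul_of_nonneg_left hlip hrp.le
    have h2 := mul_le_mul_of_nonneg_right hXr (abs_nonneg h)
    linarith
  rw [abs_div, abs_mul, abs_of_pos (show 0 < 2 * r ^ 3 * D by positivity),
    abs_of_nonneg (show 0 ≤ s ^ 2 * h ^ 2 by positivity)]
  have hh : h ^ 2 = |h| ^ 2 := (sq_abs h).symm
  rw [hh]
  have hrs : s ^ 2 ≤ r ^ 2 := by rw [hr2]; nlinarith [sq_nonneg X]
  calc s ^ 2 * |h| ^ 2 * |2 * r ^ 2 - D| / (2 * r ^ 3 * D)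
      ≤ s ^ 2 * |h| ^ 2 * (2 * r * |h|) / (2 * r ^ 3 * D) := by gcongr
    _ = s ^ 2 * |h| ^ 3 / (r ^ 2 * D) := by field_simp
    _ ≤ s ^ 2 * |h| ^ 3 / (s ^ 2 * (2 * s ^ 2)) := by gcongr
    _ = 1 / (2 * s ^ 2) * |h| ^ 3 := by field_simp

lemma abs_sub_sqrt (x t s : ℝ) (hs : 0 < s) :
    abs (|x - t| - Real.sqrt ((x - t) ^ 2 + s ^ 2)) ≤ s := by
  have h1 : |x - t| ≤ Real.sqrt ((x - t) ^ 2 + s ^ 2) := by
    apply Real.le_sqrt_of_sq_le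
    rw [sq_abs]
    nlinarith [sq_nonneg s]
  have h2 : Real.sqrt ((x - t) ^ 2 + s ^ 2) ≤ |x - t| + s := by
    rw [Real.sqrt_le_left (by positivity)]
    have := sq_abs (x - t)
    nlinarith [abs_nonneg (x - t)]
  rw [abs_le]
  constructor <;> linarith

lemma one_step {Ω : Type} [Fintype Ω] [Nonempty Ω] (Y : Ω → ℝ) (h0 : Ex Y = 0)
    (h2 : Ex (fun ω => Y ω ^ 2) = 1) {κ : ℝ} (h3 : Ex (fun ω => |Y ω| ^ 3) ≤ κ) {K : ℝ} (hK : 0 ≤ K)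
    (H : ℝ → ℝ) (a b w : ℝ) (hab : ∀ h : ℝ, |H (0 + h) - H 0 - a * h - b * h ^ 2| ≤ K * |h| ^ 3) :
    |Ex (fun ω => H (w * Y ω)) - H 0 - b * w ^ 2| ≤ K * κ * |w| ^ 3 := by
  have h1 : Ex (fun ω => H (w * Y ω)) - H 0 - b * w ^ 2 =
      Ex (fun ω => H (0 + w * Y ω) - H 0 - a * (w * Y ω) - b * (w * Y ω) ^ 2) := by
    rw [Ex_sub, Ex_sub, Ex_sub, Ex_const, Ex_const_mul, Ex_const_mul, h0, Ex_const_mul]
    have : Ex (fun ω => (w * Y ω) ^ 2) = w ^ 2 := by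
      have h4 : Ex (fun ω => (w * Y ω) ^ 2) = Ex (fun ω => w ^ 2 * Y ω ^ 2) :=
        Ex_congr fun ω => by ring
      rw [h4, Ex_const_mul, h2, mul_one]
    rw [this]
    simp
  rw [h1]
  refine (abs_Ex_le _).trans ?_
  refine (Ex_mono (h := fun ω => K * |w| ^ 3 * |Y ω| ^ 3) fun ω => ?_).trans ?_
  · refine (hab _).trans (le_of_eq ?_)
    rw [abs_mul, mul_pow]; ring
  · rw [Ex_const_mul]
    have : 0 ≤ K * |w| ^ 3 := by positivity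
    calc K * |w| ^ 3 * Ex (fun ω => |Y ω| ^ 3) ≤ K * |w| ^ 3 * κ := mul_le_mul_of_nonneg_left h3 this
      _ = K * κ * |w| ^ 3 := by ring

lemma lindeberg_fin {Ω₁ Ω₂ : Type} [Fintype Ω₁] [Nonempty Ω₁] [Fintype Ω₂] [Nonempty Ω₂]
    (Y₁ : Ω₁ → ℝ) (Y₂ : Ω₂ → ℝ) (h0 : Ex Y₁ = 0) (h2 : Ex (fun ω => Y₁ ω ^ 2) = 1) {κ₁ : ℝ}
    (h3 : Ex (fun ω => |Y₁ ω| ^ 3) ≤ κ₁) (h0' : Ex Y₂ = 0) (h2' : Ex (fun ω => Y₂ ω ^ 2) = 1) {κ₂ : ℝ}
    (h3' : Ex (fun ω => |Y₂ ω| ^ 3) ≤ κ₂) {K : ℝ} (hK : 0 ≤ K) (n : ℕ) :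
    ∀ (W : Fin n → ℝ) (g : ℝ → ℝ), ClsD K g →
      |Ex (fun ω : Fin n → Ω₁ => g (∑ j, W j * Y₁ (ω j))) -
        Ex (fun ω : Fin n → Ω₂ => g (∑ j, W j * Y₂ (ω j)))| ≤ K * (κ₁ + κ₂) * ∑ j, |W j| ^ 3 := by
  induction n with
  | zero =>
    intro W g _
    simp [Ex_const]
  | succ n ih =>
    intro W g hg
    have e1 : Ex (fun ω : Fin (n + 1) → Ω₁ => g (∑ j, W j * Y₁ (ω j))) =
        Ex (fun ω₀ : Ω₁ => Ex (fun ω : Fin n → Ω₁ =>
          g (W 0 * Y₁ ω₀ + ∑ j : Fin n, W j.succ * Y₁ (ω j)))) := by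
      rw [← Ex_equiv (Fin.consEquiv (fun _ : Fin (n + 1) => Ω₁)), Ex_prod]
      refine Ex_congr fun ω₀ => Ex_congr fun ω => ?_
      congr 1
      rw [Fin.sum_univ_succ]
      simp [Fin.consEquiv]
    have e2 : Ex (fun ω : Fin (n + 1) → Ω₂ => g (∑ j, W j * Y₂ (ω j))) =
        Ex (fun ω₀ : Ω₂ => Ex (fun ω : Fin n → Ω₂ =>
          g (W 0 * Y₂ ω₀ + ∑ j : Fin n, W j.succ * Y₂ (ω j)))) := by
      rw [← Ex_equiv (Fin.consEquiv (fun _ : Fin (n + 1) => Ω₂)), Ex_prod]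
      refine Ex_congr fun ω₀ => Ex_congr fun ω => ?_
      congr 1
      rw [Fin.sum_univ_succ]
      simp [Fin.consEquiv]
    rw [e1, e2]
    -- step 1
    have s1 : |Ex (fun ω₀ : Ω₁ => Ex (fun ω : Fin n → Ω₁ =>
          g (W 0 * Y₁ ω₀ + ∑ j : Fin n, W j.succ * Y₁ (ω j)))) -
        Ex (fun ω₀ : Ω₁ => Ex (fun ω : Fin n → Ω₂ =>
          g (W 0 * Y₁ ω₀ + ∑ j : Fin n, W j.succ * Y₂ (ω j))))| ≤
        K * (κ₁ + κ₂) * ∑ j : Fin n, |W j.succ| ^ 3 := by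
      rw [← Ex_sub]
      refine (abs_Ex_le _).trans ?_
      refine (Ex_mono (h := fun _ => K * (κ₁ + κ₂) * ∑ j : Fin n, |W j.succ| ^ 3) fun ω₀ => ?_).trans ?_
      · exact ih (fun j => W j.succ) (fun x => g (W 0 * Y₁ ω₀ + x)) (ClsD_shift hg _)
      · rw [Ex_const]
    -- step 2
    obtain ⟨a, b, hab⟩ := ClsD_avg hg (fun ω : Fin n → Ω₂ => ∑ j : Fin n, W j.succ * Y₂ (ω j)) 0
    have t1 := one_step Y₁ h0 h2 h3 hK
      (fun x => Ex (fun ω : Fin n → Ω₂ => g (x + ∑ j : Fin n, W j.succ * Y₂ (ω j)))) a b (W 0) hab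
    have t2 := one_step Y₂ h0' h2' h3' hK
      (fun x => Ex (fun ω : Fin n → Ω₂ => g (x + ∑ j : Fin n, W j.succ * Y₂ (ω j)))) a b (W 0) hab
    rw [Fin.sum_univ_succ]
    rw [abs_le] at s1 t1 t2 ⊢
    constructor <;> nlinarith [s1.1, s1.2, t1.1, t1.2, t2.1, t2.2]

lemma lindeberg {B Ω₁ Ω₂ : Type} [Fintype B] [DecidableEq B] [Fintype Ω₁] [Nonempty Ω₁] [Fintype Ω₂]
    [Nonempty Ω₂]
    (Y₁ : Ω₁ → ℝ) (Y₂ : Ω₂ → ℝ) (h0 : Ex Y₁ = 0) (h2 : Ex (fun ω => Y₁ ω ^ 2) = 1) {κ₁ : ℝ}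
    (h3 : Ex (fun ω => |Y₁ ω| ^ 3) ≤ κ₁) (h0' : Ex Y₂ = 0) (h2' : Ex (fun ω => Y₂ ω ^ 2) = 1) {κ₂ : ℝ}
    (h3' : Ex (fun ω => |Y₂ ω| ^ 3) ≤ κ₂) {K : ℝ} (hK : 0 ≤ K)
    (W : B → ℝ) (g : ℝ → ℝ) (hg : ClsD K g) :
      |Ex (fun ω : B → Ω₁ => g (∑ j, W j * Y₁ (ω j))) -
        Ex (fun ω : B → Ω₂ => g (∑ j, W j * Y₂ (ω j)))| ≤ K * (κ₁ + κ₂) * ∑ j, |W j| ^ 3 := by
  let e := Fintype.equivFin B
  have h := lindeberg_fin Y₁ Y₂ h0 h2 h3 h0' h2' h3' hK (Fintype.card B) (fun j => W (e.symm j)) g hg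
  have e1 : Ex (fun ω : Fin (Fintype.card B) → Ω₁ => g (∑ j, W (e.symm j) * Y₁ (ω j))) =
      Ex (fun ω : B → Ω₁ => g (∑ j, W j * Y₁ (ω j))) := by
    rw [← Ex_equiv (e.arrowCongr (Equiv.refl Ω₁))]
    refine Ex_congr fun ω => ?_
    congr 1
    rw [← Equiv.sum_comp e]
    simp
  have e2 : Ex (fun ω : Fin (Fintype.card B) → Ω₂ => g (∑ j, W (e.symm j) * Y₂ (ω j))) =
      Ex (fun ω : B → Ω₂ => g (∑ j, W j * Y₂ (ω j))) := by
    rw [← Ex_equiv (e.arrowCongr (Equiv.refl Ω₂))]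
    refine Ex_congr fun ω => ?_
    congr 1
    rw [← Equiv.sum_comp e]
    simp
  have e3 : ∑ j, |W (e.symm j)| ^ 3 = ∑ j, |W j| ^ 3 := Equiv.sum_comp e.symm (fun j => |W j| ^ 3)
  rw [e1, e2, e3] at h
  exact h

lemma sv_Ex0 : Ex (fun s : ℤˣ => sv s) = 0 := by
  unfold Ex
  rw [show (Finset.univ : Finset ℤˣ) = {1, -1} from rfl]
  simp

lemma half_compare {A B : Type} [Fintype A] [Fintype B] [DecidableEq A] [DecidableEq B]
    (V : A → ℝ) (W : B → ℝ) (hV : ∑ i, V i ^ 2 = 1) (hW : ∑ j, W j ^ 2 = 1) {β : ℝ}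
    (hWβ : ∀ j, |W j| ≤ β) {K : ℝ} (hK : 0 ≤ K) (g : ℝ → ℝ) (hg : ClsD K g) :
    |Ex (fun u : B → ℤˣ => g (lin W u)) -
      Ex (fun y : B → (A → ℤˣ) => g (∑ j, W j * lin V (y j)))| ≤ K * 3 * β := by
  have h1 : Ex (fun s : ℤˣ => sv s ^ 2) = 1 := by
    simp only [sv_sq]; exact Ex_const 1
  have h2 : Ex (fun s : ℤˣ => |sv s| ^ 3) ≤ 1 := by
    simp only [abs_sv, one_pow]; exact (Ex_const 1).le
  have h3 : Ex (fun x : A → ℤˣ => lin V x ^ 2) = 1 := by rw [Ex_lin_sq, hV]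
  have h4 : Ex (fun x : A → ℤˣ => |lin V x| ^ 3) ≤ 2 := by
    have h5 : Ex (fun x : A → ℤˣ => |lin V x| ^ 3) ≤
        Ex (fun x : A → ℤˣ => (1 / 2) * (lin V x ^ 2 + lin V x ^ 4)) := by
      refine Ex_mono fun x => ?_
      have h6 := sq_abs (lin V x)
      have h7 : lin V x ^ 4 = |lin V x| ^ 4 := by
        rw [show (4:ℕ) = 2 * 2 from rfl, pow_mul, pow_mul, h6]
      rw [h7, ← h6]
      nlinarith [sq_nonneg (|lin V x| - 1), sq_nonneg (|lin V x|), sq_nonneg (|lin V x| * (|lin V x| - 1))]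
    have h8 := Ex_lin_four V
    rw [hV] at h8
    rw [Ex_const_mul, Ex_add, h3] at h5
    linarith
  have h := lindeberg sv (lin V) sv_Ex0 h1 h2 (Ex_lin V) h3 h4 hK W g hg
  have h5 : ∑ j, |W j| ^ 3 ≤ β := by
    calc ∑ j, |W j| ^ 3 ≤ ∑ j, β * W j ^ 2 := by
          refine Finset.sum_le_sum fun j _ => ?_
          rw [← sq_abs (W j)]
          have := mul_le_mul_of_nonneg_right (hWβ j) (sq_nonneg |W j|)
          calc |W j| ^ 3 = |W j| * |W j| ^ 2 := by ring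
            _ ≤ β * |W j| ^ 2 := this
      _ = β := by rw [← Finset.mul_sum, hW, mul_one]
  refine h.trans ?_
  calc K * (1 + 2) * ∑ j, |W j| ^ 3 ≤ K * (1 + 2) * β := by gcongr
    _ = K * 3 * β := by ring

lemma double_swap {A B : Type} [Fintype A] [Fintype B] [DecidableEq A] [DecidableEq B]
    (V : A → ℝ) (W : B → ℝ) (g : ℝ → ℝ) :
    Ex (fun y : B → (A → ℤˣ) => g (∑ j, W j * lin V (y j))) =
      Ex (fun z : A → (B → ℤˣ) => g (∑ i, V i * lin W (z i))) := by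
  rw [← Ex_equiv (Equiv.piComm (fun (_ : A) (_ : B) => ℤˣ))]
  refine Ex_congr fun z => ?_
  congr 1
  simp only [lin, Finset.mul_sum, Equiv.piComm_apply]
  rw [Finset.sum_comm]
  refine Finset.sum_congr rfl fun i _ => Finset.sum_congr rfl fun j _ => ?_
  simp only [Function.swap]
  ring

theorem clt_compare (κ : ℝ) (hκ : 0 < κ) : ∃ β : ℝ, 0 < β ∧
    ∀ (A B : Type) [Fintype A] [Fintype B] [DecidableEq A] [DecidableEq B]
      (V : A → ℝ) (W : B → ℝ),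
      ∑ i, V i ^ 2 = 1 → ∑ j, W j ^ 2 = 1 → (∀ i, |V i| ≤ β) → (∀ j, |W j| ≤ β) →
      ∀ t : ℝ, |Ex (fun u : B → ℤˣ => |lin W u - t|) - Ex (fun x : A → ℤˣ => |lin V x - t|)| ≤ κ := by
  obtain ⟨s, hs⟩ : ∃ s, s = κ / 4 := ⟨_, rfl⟩
  have hsp : 0 < s := by rw [hs]; positivity
  refine ⟨κ * s ^ 2 / 6, by positivity, ?_⟩
  intro A B _ _ _ _ V W hV hW hVb hWb t
  have hK : (0:ℝ) ≤ 1 / (2 * s ^ 2) := by positivity
  have hg := ClsD_sqrt t s hsp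
  have c1 := half_compare V W hV hW hWb hK _ hg
  have c2 := half_compare W V hW hV hVb hK _ hg
  have sw : Ex (fun y : B → (A → ℤˣ) => Real.sqrt ((∑ j, W j * lin V (y j) - t) ^ 2 + s ^ 2)) =
      Ex (fun z : A → (B → ℤˣ) => Real.sqrt ((∑ i, V i * lin W (z i) - t) ^ 2 + s ^ 2)) :=
    double_swap V W (fun x => Real.sqrt ((x - t) ^ 2 + s ^ 2))
  rw [sw] at c1
  have hb : 1 / (2 * s ^ 2) * 3 * (κ * s ^ 2 / 6) = κ / 4 := by
    field_simp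
    norm_num
  rw [hb] at c1 c2
  have d1 : |Ex (fun u : B → ℤˣ => |lin W u - t|) -
      Ex (fun u : B → ℤˣ => Real.sqrt ((lin W u - t) ^ 2 + s ^ 2))| ≤ s := by
    rw [← Ex_sub]
    refine (abs_Ex_le _).trans ?_
    refine (Ex_mono (h := fun _ => s) fun u => abs_sub_sqrt _ t s hsp).trans ?_
    rw [Ex_const]
  have d2 : |Ex (fun x : A → ℤˣ => |lin V x - t|) -
      Ex (fun x : A → ℤˣ => Real.sqrt ((lin V x - t) ^ 2 + s ^ 2))| ≤ s := by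
    rw [← Ex_sub]
    refine (abs_Ex_le _).trans ?_
    refine (Ex_mono (h := fun _ => s) fun u => abs_sub_sqrt _ t s hsp).trans ?_
    rw [Ex_const]
  rw [abs_le] at c1 c2 d1 d2 ⊢
  constructor <;> linarith [c1.1, c1.2, c2.1, c2.2, d1.1, d1.2, d2.1, d2.2]

end Pool.Agent.Helper497.HS
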