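import Pool.Agent.Helper497.HS.Influence
import Pool.Agent.Helper497.HS.Anticonc

set_option autoImplicit false

namespace Pool.Agent.Helper497.HS

lemma ne_ind (p q : ℤˣ) : (if p = q then (0:ℝ) else 1) = (1 - sv q * sv p) / 2 := by
  rcases Int.units_eq_one_or p with h | h <;> rcases Int.units_eq_one_or q with h' | h' <;>
    simp [h, h']

lemma abs_Ex_sv_le {Ω : Type} [Fintype Ω] [Nonempty Ω] (g : Ω → ℤˣ) : |Ex (fun ω => sv (g ω))| ≤ 1 := by
  refine (abs_Ex_le _).trans ?_
  simp [Ex_const]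

/-- Chebyshev: far thresholds make the halfspace nearly constant. -/
lemma cheb {ι : Type} [Fintype ι] [DecidableEq ι] (w : ι → ℝ) (hw : ∑ i, w i ^ 2 = 1)
    (t T : ℝ) (hT : 0 < T) (ht : T < |t|) :
    1 - sv (sgn (-t)) * Ex (fun u : ι → ℤˣ => sv (sgn (lin w u - t))) ≤ 2 / T ^ 2 := by
  have h1 : ∀ u : ι → ℤˣ, 1 - sv (sgn (-t)) * sv (sgn (lin w u - t)) ≤ 2 / T ^ 2 * lin w u ^ 2 := by
    intro u
    have hT2 : 0 < T ^ 2 := by positivity
    by_cases h : sgn (lin w u - t) = sgn (-t)
    · rw [h]; simp; positivity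
    · have hX : T ^ 2 ≤ lin w u ^ 2 := by
        have : T ≤ |lin w u| := by
          unfold sgn at h
          rcases lt_or_ge 0 t with h0 | h0
          · rw [abs_of_pos h0] at ht
            rw [if_neg (show ¬ 0 ≤ -t by linarith)] at h
            split_ifs at h with h2
            · exact le_trans (by linarith) (le_abs_self _)
            · exact absurd rfl h
          · rw [abs_of_nonpos h0] at ht
            rw [if_pos (show 0 ≤ -t by linarith)] at h
            split_ifs at h with h2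
            · exact absurd rfl h
            · exact le_trans (by linarith) (neg_le_abs _)
        calc T ^ 2 ≤ |lin w u| ^ 2 := by gcongr
          _ = _ := sq_abs _
      have : 1 - sv (sgn (-t)) * sv (sgn (lin w u - t)) ≤ 2 := by
        rcases sv_cases (sgn (-t)) with h | h <;> rcases sv_cases (sgn (lin w u - t)) with h' | h' <;>
          rw [h, h'] <;> norm_num
      calc _ ≤ 2 := this
        _ = 2 / T ^ 2 * T ^ 2 := by field_simp
        _ ≤ _ := by gcongr
  have h2 := Ex_mono h1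
  rw [Ex_sub, Ex_const, Ex_const_mul, Ex_const_mul, Ex_lin_sq, hw] at h2
  linarith

theorem caseY {Ω A B : Type} [Fintype Ω] [Nonempty Ω] [Fintype A] [Fintype B]
    [DecidableEq A] [DecidableEq B] (s T κ δ ρ σ : ℝ) (hs : 0 < s) (hT : 0 < T) (hδ : 0 ≤ δ)
    (hσ : 0 < σ)
    (f : Ω → (A → ℤˣ) → ℤˣ) (t : Ω → ℝ) (W : B → ℝ) (hW : ∑ j, W j ^ 2 = 1)
    (l : A → ℝ) (hl1 : ∑ i, l i ^ 2 = 1)
    (hl : ∀ i, Ex (fun a => Ex (fun x => sv (f a x) * sv (x i))) = σ * l i)
    (H2 : ∀ a, |Ex (fun u => sv (sgn (lin W u - t a))) - Ex (fun x => sv (f a x))| ≤ δ)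
    (H3 : ∑ j, (Ex (fun a => Ex (fun u => sv (sgn (lin W u - t a)) * sv (u j)))) ^ 2 ≤ σ ^ 2 + δ)
    (hκ : ∀ t : ℝ, |Ex (fun u : B → ℤˣ => |lin W u - t|) - Ex (fun x : A → ℤˣ => |lin l x - t|)| ≤ κ)
    (hρ : ∀ t : ℝ, Ex (fun x : A → ℤˣ => if |lin l x - t| ≤ s then (1:ℝ) else 0) ≤ ρ) :
    Ex (fun a => Ex (fun x => if f a x = sgn (lin l x - t a) then (0:ℝ) else 1))
      ≤ ρ + (κ + T * δ + Real.sqrt δ + Real.sqrt (4 / T ^ 2 + 2 * δ)) / (2 * s)
        + (2 / T ^ 2 + δ / 2) := by
  set e : Ω → ℝ := fun a => Ex (fun x => sv (f a x)) with he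
  set E : Ω → ℝ := fun a => Ex (fun u => sv (sgn (lin W u - t a))) with hE
  set P : Ω → ℝ := fun a => Ex (fun u => sv (sgn (lin W u - t a)) * lin W u) with hP
  set p : Ω → ℝ := fun a => Ex (fun x => sv (f a x) * lin l x) with hp
  set D : Ω → ℝ := fun a => Ex (fun x : A → ℤˣ => |lin l x - t a|) - p a + t a * e a with hD
  set R := Real.sqrt (4 / T ^ 2 + 2 * δ) with hR
  have hκ0 : 0 ≤ κ := (abs_nonneg _).trans (hκ 0)
  have hρ0 : 0 ≤ ρ := (Ex_nonneg (fun x => by split_ifs <;> norm_num)).trans (hρ 0)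
  have hR0 : 0 ≤ R := Real.sqrt_nonneg _
  -- (i) D as an expectation
  have hDe : ∀ a, D a = Ex (fun x => |lin l x - t a| - sv (f a x) * (lin l x - t a)) := by
    intro a
    have : ∀ x, |lin l x - t a| - sv (f a x) * (lin l x - t a)
        = (|lin l x - t a| - sv (f a x) * lin l x) + t a * sv (f a x) := by intro x; ring
    rw [Ex_congr this, Ex_add, Ex_sub, Ex_const_mul]
  -- (ii)
  have h2 : ∀ a, Ex (fun x => if f a x = sgn (lin l x - t a) then (0:ℝ) else 1) ≤ ρ + D a / (2 * s) := by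
    intro a
    have hpt : ∀ x, (if f a x = sgn (lin l x - t a) then (0:ℝ) else 1)
        ≤ (if |lin l x - t a| ≤ s then (1:ℝ) else 0)
          + (|lin l x - t a| - sv (f a x) * (lin l x - t a)) * (1 / (2 * s)) := by
      intro x
      have hnn : 0 ≤ (|lin l x - t a| - sv (f a x) * (lin l x - t a)) * (1 / (2 * s)) := by
        apply mul_nonneg _ (by positivity)
        rcases sv_cases (f a x) with h | h <;> rw [h]
        · have := le_abs_self (lin l x - t a); linarith
        · have := neg_le_abs (lin l x - t a); linarith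
      by_cases hc : f a x = sgn (lin l x - t a)
      · rw [if_pos hc]
        have : (0:ℝ) ≤ (if |lin l x - t a| ≤ s then (1:ℝ) else 0) := by split_ifs <;> norm_num
        linarith
      · rw [if_neg hc]
        split_ifs with hc2
        · linarith
        · push Not at hc2
          have hneg : sv (f a x) = - sv (sgn (lin l x - t a)) := by
            rcases Int.units_eq_one_or (f a x) with h | h <;>
              rcases Int.units_eq_one_or (sgn (lin l x - t a)) with h' | h'
            · exact absurd (h.trans h'.symm) hc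
            · rw [h, h']; simp
            · rw [h, h']; simp
            · exact absurd (h.trans h'.symm) hc
          rw [hneg, neg_mul, sv_sgn_mul_self, sub_neg_eq_add, ← two_mul, zero_add]
          rw [mul_one_div, le_div_iff₀ (by positivity)]
          linarith
    have := Ex_mono hpt
    rw [Ex_add, Ex_mul_const, ← hDe] at this
    have h3 := hρ (t a)
    rw [mul_one_div] at this
    linarith
  -- (iii)
  have h3 : ∀ a, D a ≤ κ + (P a - p a) + |t a| * δ := by
    intro a
    have h31 : Ex (fun u : B → ℤˣ => |lin W u - t a|) = P a - t a * E a := by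
      have : ∀ u : B → ℤˣ, |lin W u - t a|
          = sv (sgn (lin W u - t a)) * lin W u - t a * sv (sgn (lin W u - t a)) := by
        intro u; rw [← sv_sgn_mul_self]; ring
      rw [Ex_congr this, Ex_sub, Ex_const_mul]
    have h32 := (abs_le.mp (hκ (t a))).1
    rw [h31] at h32
    have h33 : t a * (e a - E a) ≤ |t a| * δ := by
      calc t a * (e a - E a) ≤ |t a * (e a - E a)| := le_abs_self _
        _ = |t a| * |e a - E a| := abs_mul _ _
        _ ≤ _ := by
          gcongr
          rw [abs_sub_comm]; exact H2 a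
    simp only [hD]
    linarith
  -- (iv)
  have h4 : ∀ a, 0 ≤ P a := by
    intro a
    have := corr_lower W hW (t a)
    have h41 : |E a| ≤ 1 := abs_Ex_sv_le _
    simp only [hP]
    refine le_trans ?_ this
    apply div_nonneg _ (by norm_num)
    linarith
  -- (v)
  have h5 : ∀ a, T < |t a| → 1 - sv (sgn (- t a)) * e a ≤ 2 / T ^ 2 + δ := by
    intro a ha
    have h51 := cheb W hW (t a) T hT ha
    have h52 := abs_le.mp (H2 a)
    change 1 - sv (sgn (- t a)) * E a ≤ _ at h51
    rcases sv_cases (sgn (- t a)) with h | h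
    · rw [h] at h51 ⊢
      linarith [h52.2]
    · rw [h] at h51 ⊢
      linarith [h52.1]
  have h6 : ∀ a, T < |t a| → p a ≤ R := by
    intro a ha
    have h61 : p a = Ex (fun x => (sv (f a x) - sv (sgn (- t a))) * lin l x) := by
      have : ∀ x, (sv (f a x) - sv (sgn (- t a))) * lin l x
        = sv (f a x) * lin l x - sv (sgn (- t a)) * lin l x := by intro x; ring
      rw [Ex_congr this, Ex_sub, Ex_const_mul, Ex_lin]; ring
    have h62 : p a ^ 2 ≤ 4 / T ^ 2 + 2 * δ := by
      rw [h61]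
      refine (Ex_mul_sq_le _ _).trans ?_
      rw [Ex_lin_sq, hl1, mul_one]
      have : ∀ x, (sv (f a x) - sv (sgn (- t a))) ^ 2 = 2 - (2 * sv (sgn (- t a))) * sv (f a x) := by
        intro x
        have h1 := sv_sq (f a x)
        have h2 := sv_sq (sgn (- t a))
        nlinarith
      rw [Ex_congr this, Ex_sub, Ex_const, Ex_const_mul]
      have := h5 a ha
      change 2 - 2 * sv (sgn (- t a)) * e a ≤ _
      have h63 : (4:ℝ) / T ^ 2 = 2 * (2 / T ^ 2) := by ring
      rw [h63]; linarith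
    exact Real.le_sqrt_of_sq_le h62
  have h7 : ∀ a, T < |t a| →
      Ex (fun x => if f a x = sgn (lin l x - t a) then (0:ℝ) else 1) ≤ 2 / T ^ 2 + δ / 2 := by
    intro a ha
    have hpt : ∀ x, (if f a x = sgn (lin l x - t a) then (0:ℝ) else 1)
        ≤ (1 - sv (sgn (- t a)) * sv (f a x)) / 2
          + (1 - sv (sgn (- t a)) * sv (sgn (lin l x - t a))) / 2 := by
      intro x
      rw [ne_ind]
      rcases sv_cases (f a x) with h | h <;> rcases sv_cases (sgn (lin l x - t a)) with h' | h' <;>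
        rcases sv_cases (sgn (- t a)) with h'' | h'' <;> rw [h, h', h''] <;> norm_num
    have h71 := Ex_mono hpt
    have h72 := cheb l hl1 (t a) T hT ha
    have h73 := h5 a ha
    simp only [div_eq_mul_inv] at h71 h72 h73 ⊢
    rw [Ex_add, Ex_mul_const, Ex_mul_const, Ex_sub, Ex_sub, Ex_const, Ex_const_mul, Ex_const_mul] at h71
    change _ ≤ (1 - sv (sgn (- t a)) * e a) * 2⁻¹ + _ at h71
    linarith
  -- (vi)
  have h8 : ∀ a, Ex (fun x => if f a x = sgn (lin l x - t a) then (0:ℝ) else 1)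
      ≤ (ρ + (κ + T * δ + R) * (1 / (2 * s)) + (2 / T ^ 2 + δ / 2)) + (P a - p a) * (1 / (2 * s)) := by
    intro a
    have hc0 : 0 ≤ 1 / (2 * s) := by positivity
    have hTT : 0 ≤ 2 / T ^ 2 + δ / 2 := by positivity
    rcases le_or_gt (|t a|) T with ha | ha
    · have h81 := h2 a
      have h82 := h3 a
      have h83 : D a / (2 * s) ≤ (κ + (P a - p a) + T * δ) * (1 / (2 * s)) := by
        rw [div_eq_mul_one_div]
        gcongr
        have : |t a| * δ ≤ T * δ := by gcongr
        linarith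
      have h84 : 0 ≤ R * (1 / (2 * s)) := by positivity
      have : (ρ + (κ + T * δ + R) * (1 / (2 * s)) + (2 / T ^ 2 + δ / 2)) + (P a - p a) * (1 / (2 * s))
        = ρ + (κ + (P a - p a) + T * δ) * (1 / (2 * s)) + R * (1 / (2 * s)) + (2 / T ^ 2 + δ / 2) := by
        ring
      rw [this]
      linarith
    · have h81 := h7 a ha
      have h82 : 0 ≤ (P a - p a + R) * (1 / (2 * s)) := by
        apply mul_nonneg _ hc0
        have := h6 a ha
        have := h4 a
        linarith
      have h83 : 0 ≤ (κ + T * δ) * (1 / (2 * s)) := by positivity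
      have : (ρ + (κ + T * δ + R) * (1 / (2 * s)) + (2 / T ^ 2 + δ / 2)) + (P a - p a) * (1 / (2 * s))
        = ρ + (κ + T * δ) * (1 / (2 * s)) + (P a - p a + R) * (1 / (2 * s)) + (2 / T ^ 2 + δ / 2) := by
        ring
      rw [this]
      linarith
  -- (vii)
  have hPsum : Ex P = ∑ j, W j * Ex (fun a => Ex (fun u => sv (sgn (lin W u - t a)) * sv (u j))) := by
    have : ∀ a, P a = ∑ j, W j * Ex (fun u => sv (sgn (lin W u - t a)) * sv (u j)) := by
      intro a
      have : ∀ u, sv (sgn (lin W u - t a)) * lin W u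
          = ∑ j, W j * (sv (sgn (lin W u - t a)) * sv (u j)) := by
        intro u
        rw [lin, Finset.mul_sum]
        refine Finset.sum_congr rfl fun j _ => ?_
        ring
      simp only [hP]
      rw [Ex_congr this, Ex_sum]
      refine Finset.sum_congr rfl fun j _ => ?_
      rw [Ex_const_mul]
    rw [Ex_congr this, Ex_sum]
    refine Finset.sum_congr rfl fun j _ => ?_
    rw [Ex_const_mul]
  have hpsum : Ex p = σ := by
    have : ∀ a, p a = ∑ i, l i * Ex (fun x => sv (f a x) * sv (x i)) := by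
      intro a
      have : ∀ x, sv (f a x) * lin l x = ∑ i, l i * (sv (f a x) * sv (x i)) := by
        intro x
        rw [lin, Finset.mul_sum]
        refine Finset.sum_congr rfl fun j _ => ?_
        ring
      simp only [hp]
      rw [Ex_congr this, Ex_sum]
      refine Finset.sum_congr rfl fun j _ => ?_
      rw [Ex_const_mul]
    rw [Ex_congr this, Ex_sum]
    have : ∀ i ∈ Finset.univ, Ex (fun a => l i * Ex (fun x => sv (f a x) * sv (x i))) = σ * l i ^ 2 := by
      intro i _
      rw [Ex_const_mul, hl]; ring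
    rw [Finset.sum_congr rfl this, ← Finset.mul_sum, hl1, mul_one]
  have hPle : Ex P ≤ σ + Real.sqrt δ := by
    have h91 : (Ex P) ^ 2 ≤ σ ^ 2 + δ := by
      rw [hPsum]
      refine (Finset.sum_mul_sq_le_sq_mul_sq _ _ _).trans ?_
      rw [hW, one_mul]; exact H3
    have h92 : Ex P ≤ Real.sqrt (σ ^ 2 + δ) := Real.le_sqrt_of_sq_le h91
    refine h92.trans ?_
    rw [Real.sqrt_le_left (by positivity)]
    have := Real.sq_sqrt hδ
    have h93 : 0 ≤ σ * Real.sqrt δ := by positivity
    nlinarith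
  have h9 := Ex_mono h8
  rw [Ex_add, Ex_const, Ex_mul_const, Ex_sub, hpsum] at h9
  refine h9.trans ?_
  have h10 : (Ex P - σ) * (1 / (2 * s)) ≤ Real.sqrt δ * (1 / (2 * s)) := by
    gcongr; linarith
  have : ρ + (κ + T * δ + Real.sqrt δ + R) / (2 * s) + (2 / T ^ 2 + δ / 2)
    = (ρ + (κ + T * δ + R) * (1 / (2 * s)) + (2 / T ^ 2 + δ / 2)) + Real.sqrt δ * (1 / (2 * s)) := by
    ring
  rw [this]
  linarith

/-- Case X. -/
theorem caseX {Ω A B : Type} [Fintype Ω] [Nonempty Ω] [Fintype A] [Fintype B]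
    [DecidableEq A] [DecidableEq B] (δ η : ℝ)
    (f : Ω → (A → ℤˣ) → ℤˣ) (t : Ω → ℝ) (W : B → ℝ)
    (H2 : ∀ a, |Ex (fun u => sv (sgn (t a + lin W u))) - Ex (fun x => sv (f a x))| ≤ δ)
    (Hη : Ex (fun a => 1 - |Ex (fun u => sv (sgn (t a + lin W u)))|) ≤ η) :
    Ex (fun a => Ex (fun x : A → ℤˣ => if f a x = sgn (t a) then (0:ℝ) else 1)) ≤ (η + δ) / 2 := by
  have hsym : ∀ a, 0 ≤ sv (sgn (t a)) * Ex (fun u => sv (sgn (t a + lin W u))) := by
    intro a
    have hneg : Ex (fun u => sv (sgn (t a + lin W u))) = Ex (fun u => sv (sgn (t a - lin W u))) := by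
      rw [← Ex_equiv (Equiv.neg (B → ℤˣ)) (fun u => sv (sgn (t a + lin W u)))]
      apply Ex_congr
      intro u
      congr 2
      simp [lin, Equiv.neg_apply]
      ring_nf
    have h2 : 2 * (sv (sgn (t a)) * Ex (fun u => sv (sgn (t a + lin W u))))
        = Ex (fun u => sv (sgn (t a)) * (sv (sgn (t a + lin W u)) + sv (sgn (t a - lin W u)))) := by
      rw [Ex_const_mul, Ex_add, ← hneg]; ring
    have h3 : 0 ≤ Ex (fun u => sv (sgn (t a)) * (sv (sgn (t a + lin W u)) + sv (sgn (t a - lin W u)))) := by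
      apply Ex_nonneg
      intro u
      unfold sgn
      split_ifs <;> simp <;> linarith
    linarith
  have h1 : ∀ a, Ex (fun x : A → ℤˣ => if f a x = sgn (t a) then (0:ℝ) else 1)
      ≤ (1 - |Ex (fun u => sv (sgn (t a + lin W u)))| + δ) * (1 / 2) := by
    intro a
    have h11 : ∀ x, (if f a x = sgn (t a) then (0:ℝ) else 1) = (1 - sv (sgn (t a)) * sv (f a x)) * (1 / 2) := by
      intro x; rw [ne_ind]; ring
    rw [Ex_congr h11, Ex_mul_const, Ex_sub, Ex_const, Ex_const_mul]
    gcongr ?_ * _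
    have h12 := H2 a
    have h13 : |Ex (fun u => sv (sgn (t a + lin W u)))|
        = sv (sgn (t a)) * Ex (fun u => sv (sgn (t a + lin W u))) := by
      rw [← abs_of_nonneg (hsym a), abs_mul, abs_sv, one_mul]
    rw [h13]
    have h14 := abs_le.mp h12
    rcases sv_cases (sgn (t a)) with h | h
    · rw [h]; linarith [h14.2]
    · rw [h]; linarith [h14.1]
  refine (Ex_mono h1).trans ?_
  rw [Ex_mul_const, Ex_add, Ex_const]
  linarith

lemma sgn_mul_pos (r y : ℝ) (hr : 0 < r) : sgn (r * y) = sgn y := by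
  unfold sgn
  by_cases h : 0 ≤ y
  · rw [if_pos h, if_pos (by positivity)]
  · rw [if_neg h, if_neg]
    push Not at h ⊢
    exact mul_neg_of_pos_of_neg hr h

lemma lin_div {ι : Type} [Fintype ι] (w : ι → ℝ) (r : ℝ) (x : ι → ℤˣ) :
    lin (fun i => w i / r) x = lin w x / r := by
  simp only [lin, Finset.sum_div]
  exact Finset.sum_congr rfl fun i _ => by ring

set_option maxHeartbeats 1000000 in
theorem core (ε : ℝ) (hε : 0 < ε) : ∃ δ : ℝ, 0 < δ ∧
    ∀ (J A B : Type) [Fintype J] [Fintype A] [Fintype B]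
      [DecidableEq J] [DecidableEq A] [DecidableEq B]
      (f : (J → ℤˣ) → (A → ℤˣ) → ℤˣ) (F : (J → ℤˣ) → (B → ℤˣ) → ℤˣ)
      (v : J → ℝ) (W : B → ℝ) (θ : ℝ),
      (∀ a u, F a u = sgn (lin v a + lin W u - θ)) →
      (∀ i, |Ex (fun a => Ex (fun x => sv (f a x) * sv (x i)))| ≤ δ) →
      (∀ a, |Ex (fun u => sv (F a u)) - Ex (fun x => sv (f a x))| ≤ δ) →
      (∑ j, (Ex (fun a => Ex (fun u => sv (F a u) * sv (u j)))) ^ 2
        ≤ ∑ i, (Ex (fun a => Ex (fun x => sv (f a x) * sv (x i)))) ^ 2 + δ) →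
      (∀ j, |Ex (fun a => Ex (fun u => sv (F a u) * sv (u j)))| ≤ δ) →
      ∃ (v' : J → ℝ) (l : A → ℝ) (θ' : ℝ),
        Ex (fun a => Ex (fun x => if f a x = sgn (lin v' a + lin l x - θ') then (0:ℝ) else 1)) ≤ ε := by
  -- parameters
  set η : ℝ := min ε 1 with hη
  have hη0 : 0 < η := by positivity
  have hηε : η ≤ ε := min_le_left _ _
  have hη1 : η ≤ 1 := min_le_right _ _
  obtain ⟨s, hs, β₁, hβ₁, hanti⟩ := anticonc (ε / 4) (by positivity)
  set μ : ℝ := min 1 (min ((s * η / 10) ^ 2) (η / 4)) with hμ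
  have hμ0 : 0 < μ := by positivity
  have hμ1 : μ ≤ 1 := min_le_left _ _
  have hμ2 : μ ≤ (s * η / 10) ^ 2 := (min_le_right _ _).trans (min_le_left _ _)
  have hμ3 : μ ≤ η / 4 := (min_le_right _ _).trans (min_le_right _ _)
  obtain ⟨β₂, hβ₂, hclt⟩ := clt_compare μ hμ0
  have hsμ : 0 < Real.sqrt μ := Real.sqrt_pos.mpr hμ0
  have hsμ2 : Real.sqrt μ ≤ s * η / 10 := by
    rw [Real.sqrt_le_left (by positivity)]; exact hμ2
  have hsμ3 : Real.sqrt μ ^ 2 = μ := Real.sq_sqrt hμ0.le
  have hsμ4 : Real.sqrt μ ≤ 1 := by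
    rw [Real.sqrt_le_left (by norm_num)]; simpa using hμ1
  have hμs : μ ≤ Real.sqrt μ := by nlinarith
  set T : ℝ := 2 / Real.sqrt μ with hT
  have hT0 : 0 < T := by positivity
  have hTμ : 4 / T ^ 2 = μ := by
    rw [hT, div_pow, hsμ3]; field_simp; norm_num
  have hTμ2 : 2 / T ^ 2 = μ / 2 := by
    rw [← hTμ]; ring
  set δ : ℝ := min (min μ (μ / T)) (min (η ^ 2 / 32) (min (β₂ ^ 2 * η ^ 2 / 8) (min (β₁ * η / 6) (β₂ * η / 6))))
    with hδ
  have hδ0 : 0 < δ := by positivity
  have d1 : δ ≤ μ := (min_le_left _ _).trans (min_le_left _ _)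
  have d2 : δ ≤ μ / T := (min_le_left _ _).trans (min_le_right _ _)
  have d3 : δ ≤ η ^ 2 / 32 := (min_le_right _ _).trans (min_le_left _ _)
  have d4 : δ ≤ β₂ ^ 2 * η ^ 2 / 8 :=
    ((min_le_right _ _).trans (min_le_right _ _)).trans (min_le_left _ _)
  have d5 : δ ≤ β₁ * η / 6 :=
    (((min_le_right _ _).trans (min_le_right _ _)).trans (min_le_right _ _)).trans (min_le_left _ _)
  have d6 : δ ≤ β₂ * η / 6 :=
    (((min_le_right _ _).trans (min_le_right _ _)).trans (min_le_right _ _)).trans (min_le_right _ _)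
  clear_value δ
  refine ⟨δ, hδ0, ?_⟩
  intro J A B _ _ _ _ _ _ f F v W θ hF H1 H2 H3 H4
  by_cases hX : Ex (fun a => 1 - |Ex (fun u => sv (F a u))|) ≤ η
  · -- case X
    refine ⟨v, 0, θ, ?_⟩
    have hF' : ∀ a u, F a u = sgn ((lin v a - θ) + lin W u) := by
      intro a u; rw [hF]; congr 1; ring
    simp only [hF'] at H2 hX
    have := caseX δ η f (fun a => lin v a - θ) W H2 hX
    have h0 : ∀ x : A → ℤˣ, lin (0 : A → ℝ) x = 0 := by intro x; simp [lin]
    simp only [h0, add_zero]
    refine this.trans ?_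
    have : η ^ 2 / 32 ≤ η := by nlinarith
    linarith
  · -- case Y
    push Not at hX
    have hr0 : 0 < ∑ j, W j ^ 2 := by
      rcases (Finset.sum_nonneg (fun j _ => sq_nonneg (W j)) : 0 ≤ ∑ j, W j ^ 2).lt_or_eq with h | h
      · exact h
      · exfalso
        have hW0 : ∀ j, W j = 0 := by
          intro j
          have := (Finset.sum_eq_zero_iff_of_nonneg (fun j _ => sq_nonneg (W j))).mp h.symm j (Finset.mem_univ j)
          exact pow_eq_zero_iff (two_ne_zero) |>.mp this
        have hlin : ∀ u : B → ℤˣ, lin W u = 0 := by intro u; simp [lin, hW0]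
        have : Ex (fun a => 1 - |Ex (fun u => sv (F a u))|) = 0 := by
          have : ∀ a, 1 - |Ex (fun u => sv (F a u))| = 0 := by
            intro a
            have : ∀ u, sv (F a u) = sv (sgn (lin v a - θ)) := by
              intro u; rw [hF, hlin, add_zero]
            rw [Ex_congr this, Ex_const, abs_sv, sub_self]
          rw [Ex_congr this, Ex_const]
        linarith
    set r : ℝ := Real.sqrt (∑ j, W j ^ 2) with hr
    have hrpos : 0 < r := Real.sqrt_pos.mpr hr0
    have hr2 : r ^ 2 = ∑ j, W j ^ 2 := Real.sq_sqrt hr0.le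
    set W' : B → ℝ := fun j => W j / r with hW'
    set t : (J → ℤˣ) → ℝ := fun a => (θ - lin v a) / r with ht
    have hW'1 : ∑ j, W' j ^ 2 = 1 := by
      simp only [hW', div_pow, ← Finset.sum_div]
      rw [hr2, div_self hr0.ne']
    have hF' : ∀ a u, F a u = sgn (lin W' u - t a) := by
      intro a u
      rw [hF, ← sgn_mul_pos r (lin W' u - t a) hrpos]
      congr 1
      simp only [hW', lin_div, ht]
      field_simp
      ring
    simp only [hF'] at H2 H3 H4 hX
    -- regularity of W'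
    have hreg : ∀ j, |W' j| ≤ β₂ := by
      intro j0
      obtain ⟨j, -, hj⟩ := Finset.exists_max_image Finset.univ (fun j => |W' j|) ⟨j0, Finset.mem_univ _⟩
      refine (hj j0 (Finset.mem_univ _)).trans ?_
      rcases (abs_nonneg (W' j)).lt_or_eq with h0 | h0
      swap
      · rw [← h0]; exact hβ₂.le
      have h1 : ∀ a, |W' j| ^ 3 / 8 * (1 - |Ex (fun u : B → ℤˣ => sv (sgn (lin W' u - t a)))|) ^ 2
          ≤ W' j * Ex (fun u : B → ℤˣ => sv (sgn (lin W' u - t a)) * sv (u j)) := by
        intro a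
        have := influence_lower W' hW'1 (t a) j (fun i => hj i (Finset.mem_univ _))
        refine le_trans (le_of_eq ?_) this
        ring
      have h2 := Ex_mono h1
      rw [Ex_const_mul, Ex_const_mul] at h2
      have h3 := Ex_sq_le (fun a => 1 - |Ex (fun u : B → ℤˣ => sv (sgn (lin W' u - t a)))|)
      have h4 : η ^ 2 ≤ Ex (fun a => (1 - |Ex (fun u : B → ℤˣ => sv (sgn (lin W' u - t a)))|) ^ 2) := by
        refine le_trans ?_ h3
        gcongr
      have h5 : W' j * Ex (fun a => Ex (fun u : B → ℤˣ => sv (sgn (lin W' u - t a)) * sv (u j)))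
          ≤ |W' j| * δ := by
        refine (le_abs_self _).trans ?_
        rw [abs_mul]
        gcongr
        exact H4 j
      have h6 : |W' j| ^ 3 / 8 * η ^ 2 ≤ |W' j| * δ := by
        refine le_trans ?_ (h2.trans h5)
        gcongr
      have h7 : |W' j| ^ 2 * η ^ 2 ≤ 8 * δ := by
        have : |W' j| * (|W' j| ^ 2 * η ^ 2) ≤ |W' j| * (8 * δ) := by nlinarith
        exact le_of_mul_le_mul_left this h0
      have h8 : |W' j| ^ 2 * η ^ 2 ≤ β₂ ^ 2 * η ^ 2 := by linarith
      have h9 : |W' j| ^ 2 ≤ β₂ ^ 2 := le_of_mul_le_mul_right h8 (by positivity)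
      exact abs_le_of_sq_le_sq' h9 hβ₂.le |>.2 |> fun h => by simpa using h
    -- size of σ
    have hP : η / 4 ≤ Ex (fun a => Ex (fun u => sv (sgn (lin W' u - t a)) * lin W' u)) := by
      have h1 : ∀ a, (1 - |Ex (fun u : B → ℤˣ => sv (sgn (lin W' u - t a)))|) * (1 / 4)
          ≤ Ex (fun u => sv (sgn (lin W' u - t a)) * lin W' u) := by
        intro a
        have := corr_lower W' hW'1 (t a)
        linarith
      have h2 := Ex_mono h1
      rw [Ex_mul_const] at h2
      linarith
    have hPsum : Ex (fun a => Ex (fun u => sv (sgn (lin W' u - t a)) * lin W' u))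
        = ∑ j, W' j * Ex (fun a => Ex (fun u => sv (sgn (lin W' u - t a)) * sv (u j))) := by
      have : ∀ a, Ex (fun u => sv (sgn (lin W' u - t a)) * lin W' u)
          = ∑ j, W' j * Ex (fun u => sv (sgn (lin W' u - t a)) * sv (u j)) := by
        intro a
        have : ∀ u, sv (sgn (lin W' u - t a)) * lin W' u
            = ∑ j, W' j * (sv (sgn (lin W' u - t a)) * sv (u j)) := by
          intro u
          nth_rewrite 2 [lin]
          rw [Finset.mul_sum]
          refine Finset.sum_congr rfl fun j _ => ?_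
          ring
        rw [Ex_congr this, Ex_sum]
        refine Finset.sum_congr rfl fun j _ => ?_
        rw [Ex_const_mul]
      rw [Ex_congr this, Ex_sum]
      refine Finset.sum_congr rfl fun j _ => ?_
      rw [Ex_const_mul]
    have hPle : (η / 4) ^ 2 ≤ ∑ j, (Ex (fun a => Ex (fun u => sv (sgn (lin W' u - t a)) * sv (u j)))) ^ 2 := by
      have h1 : (η / 4) ^ 2 ≤ (Ex (fun a => Ex (fun u => sv (sgn (lin W' u - t a)) * lin W' u))) ^ 2 := by
        gcongr
      refine h1.trans ?_
      rw [hPsum]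
      refine (Finset.sum_mul_sq_le_sq_mul_sq _ _ _).trans ?_
      rw [hW'1, one_mul]
    set S2 : ℝ := ∑ i, (Ex (fun a => Ex (fun x => sv (f a x) * sv (x i)))) ^ 2 with hS2
    have hS2l : (η / 6) ^ 2 ≤ S2 := by nlinarith
    have hS2p : 0 < S2 := lt_of_lt_of_le (by positivity) hS2l
    set σ : ℝ := Real.sqrt S2 with hσ
    have hσ0 : 0 < σ := Real.sqrt_pos.mpr hS2p
    have hσ2 : σ ^ 2 = S2 := Real.sq_sqrt hS2p.le
    have hσl : η / 6 ≤ σ := Real.le_sqrt_of_sq_le hS2l
    set l : A → ℝ := fun i => Ex (fun a => Ex (fun x => sv (f a x) * sv (x i))) / σ with hl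
    have hl1 : ∑ i, l i ^ 2 = 1 := by
      simp only [hl, div_pow, ← Finset.sum_div]
      rw [hσ2, ← hS2, div_self hS2p.ne']
    have hlreg : ∀ i, |l i| ≤ δ / (η / 6) := by
      intro i
      simp only [hl]
      rw [abs_div, abs_of_pos hσ0]
      have := H1 i
      gcongr
    have hlreg1 : ∀ i, |l i| ≤ β₁ := by
      intro i
      refine (hlreg i).trans ?_
      rw [div_le_iff₀ (by positivity)]
      linarith
    have hlreg2 : ∀ i, |l i| ≤ β₂ := by
      intro i
      refine (hlreg i).trans ?_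
      rw [div_le_iff₀ (by positivity)]
      linarith
    have key := caseY s T μ δ (ε / 4) σ hs hT0 hδ0.le hσ0 f t W' hW'1 l hl1
      (by intro i; simp only [hl]; field_simp) H2 (by rw [hσ2]; exact H3)
      (fun τ => hclt A B l W' hl1 hW'1 hlreg2 hreg τ) (fun τ => hanti A l hl1 hlreg1 τ)
    refine ⟨fun i => v i / r, l, θ / r, ?_⟩
    have hfin : ∀ a x, lin (fun i => v i / r) a + lin l x - θ / r = lin l x - t a := by
      intro a x
      rw [lin_div]
      simp only [ht]
      ring
    simp only [hfin]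
    refine key.trans ?_
    have k1 : T * δ ≤ μ := by
      rw [le_div_iff₀ hT0] at d2; linarith
    have k2 : Real.sqrt δ ≤ Real.sqrt μ := Real.sqrt_le_sqrt d1
    have k3 : Real.sqrt (4 / T ^ 2 + 2 * δ) ≤ 2 * Real.sqrt μ := by
      rw [Real.sqrt_le_left (by positivity), hTμ, mul_pow, hsμ3]
      linarith
    have k4 : (μ + T * δ + Real.sqrt δ + Real.sqrt (4 / T ^ 2 + 2 * δ)) / (2 * s) ≤ η / 4 := by
      rw [div_le_iff₀ (by positivity)]
      have : μ + T * δ + Real.sqrt δ + Real.sqrt (4 / T ^ 2 + 2 * δ) ≤ 5 * Real.sqrt μ := by linarith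
      refine this.trans ?_
      linarith
    rw [hTμ2]
    linarith

end Pool.Agent.Helper497.HS
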