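import Mathlib

set_option autoImplicit false

namespace Pool.Agent.Helper497.HS

/-- The real value `±1` of a sign. -/
def sv (s : ℤˣ) : ℝ := ((s : ℤ) : ℝ)

/-- `sgn t = 1` for `t ≥ 0` and `-1` otherwise. -/
noncomputable def sgn (t : ℝ) : ℤˣ := if 0 ≤ t then 1 else -1

/-- The linear form with weights `w`. -/
def lin {ι : Type} [Fintype ι] (w : ι → ℝ) (x : ι → ℤˣ) : ℝ := ∑ i, w i * sv (x i)

/-- Linear threshold functions (halfspaces) on `{-1,1}^ι`. -/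
def IsLTF {ι : Type} [Fintype ι] (f : (ι → ℤˣ) → ℤˣ) : Prop :=
  ∃ (w : ι → ℝ) (θ : ℝ), ∀ x, f x = sgn (lin w x - θ)

/-- Uniform average over a finite type. -/
noncomputable def Ex {Ω : Type} [Fintype Ω] (g : Ω → ℝ) : ℝ := (∑ ω, g ω) / (Fintype.card Ω : ℝ)

/-- the sampled point: `u` on a small cube is blown up to `x i = z i * u (c i)` -/
def samp {ι κ : Type} (z : ι → ℤˣ) (c : ι → κ) (u : κ → ℤˣ) : ι → ℤˣ := fun i => z i * u (c i)

section sv

@[simp] lemma sv_one : sv 1 = 1 := by simp [sv]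
@[simp] lemma sv_neg_one : sv (-1) = -1 := by simp [sv]
@[simp] lemma sv_neg (s : ℤˣ) : sv (-s) = - sv s := by simp [sv]
lemma sv_mul (s t : ℤˣ) : sv (s * t) = sv s * sv t := by simp [sv]
lemma sv_cases (s : ℤˣ) : sv s = 1 ∨ sv s = -1 := by
  rcases Int.units_eq_one_or s with h | h <;> simp [h]
@[simp] lemma sv_sq (s : ℤˣ) : sv s ^ 2 = 1 := by rcases sv_cases s with h | h <;> simp [h]
@[simp] lemma sv_mul_self (s : ℤˣ) : sv s * sv s = 1 := by rcases sv_cases s with h | h <;> simp [h]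
@[simp] lemma abs_sv (s : ℤˣ) : |sv s| = 1 := by rcases sv_cases s with h | h <;> simp [h]
lemma sv_injective : Function.Injective sv := by
  intro a b h
  unfold sv at h
  exact Units.ext (Int.cast_injective h)
lemma sv_sgn_mul_self (t : ℝ) : sv (sgn t) * t = |t| := by
  unfold sgn; split_ifs with h
  · simp [abs_of_nonneg h]
  · simp [abs_of_neg (not_le.mp h)]

end sv

section Ex

variable {Ω Ω' : Type} [Fintype Ω] [Fintype Ω']

lemma card_pos_real [Nonempty Ω] : (0:ℝ) < (Fintype.card Ω : ℝ) := by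
  exact_mod_cast Fintype.card_pos

lemma Ex_const [Nonempty Ω] (c : ℝ) : Ex (fun _ : Ω => c) = c := by
  simp [Ex]

lemma Ex_add (g h : Ω → ℝ) : Ex (fun ω => g ω + h ω) = Ex g + Ex h := by
  simp [Ex, Finset.sum_add_distrib, add_div]

lemma Ex_sub (g h : Ω → ℝ) : Ex (fun ω => g ω - h ω) = Ex g - Ex h := by
  simp [Ex, Finset.sum_sub_distrib, sub_div]

lemma Ex_neg (g : Ω → ℝ) : Ex (fun ω => - g ω) = - Ex g := by
  simp [Ex, neg_div]

lemma Ex_const_mul (c : ℝ) (g : Ω → ℝ) : Ex (fun ω => c * g ω) = c * Ex g := by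
  simp [Ex, ← Finset.mul_sum, mul_div_assoc]

lemma Ex_mul_const (c : ℝ) (g : Ω → ℝ) : Ex (fun ω => g ω * c) = Ex g * c := by
  simp [Ex, ← Finset.sum_mul, div_mul_eq_mul_div]

lemma Ex_sum {κ : Type} (s : Finset κ) (g : κ → Ω → ℝ) :
    Ex (fun ω => ∑ k ∈ s, g k ω) = ∑ k ∈ s, Ex (g k) := by
  simp only [Ex]; rw [Finset.sum_comm, Finset.sum_div]

lemma Ex_mono {g h : Ω → ℝ} (H : ∀ ω, g ω ≤ h ω) : Ex g ≤ Ex h := by
  unfold Ex; gcongr with ω _; exact H ω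

lemma Ex_nonneg {g : Ω → ℝ} (H : ∀ ω, 0 ≤ g ω) : 0 ≤ Ex g := by
  unfold Ex; exact div_nonneg (Finset.sum_nonneg fun ω _ => H ω) (Nat.cast_nonneg _)

lemma Ex_congr {g h : Ω → ℝ} (H : ∀ ω, g ω = h ω) : Ex g = Ex h := by
  rw [show g = h from funext H]

lemma abs_Ex_le (g : Ω → ℝ) : |Ex g| ≤ Ex (fun ω => |g ω|) := by
  unfold Ex
  rw [abs_div, abs_of_nonneg (Nat.cast_nonneg (Fintype.card Ω) : (0:ℝ) ≤ _)]
  gcongr
  exact Finset.abs_sum_le_sum_abs _ _

lemma Ex_comm (g : Ω → Ω' → ℝ) :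
    Ex (fun a => Ex (fun b => g a b)) = Ex (fun b => Ex (fun a => g a b)) := by
  simp only [Ex, ← Finset.sum_div]
  rw [Finset.sum_comm, div_div, div_div, mul_comm]

lemma Ex_prod (g : Ω × Ω' → ℝ) : Ex g = Ex (fun a => Ex (fun b => g (a, b))) := by
  simp only [Ex, ← Finset.sum_div, Fintype.sum_prod_type, Fintype.card_prod, Nat.cast_mul]
  rw [div_div, mul_comm]

lemma Ex_equiv (e : Ω ≃ Ω') (g : Ω' → ℝ) : Ex (fun ω => g (e ω)) = Ex g := by
  simp only [Ex]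
  rw [Fintype.card_congr e]
  congr 1
  exact Equiv.sum_comp e g

/-- Cauchy–Schwarz. -/
lemma Ex_mul_sq_le (g h : Ω → ℝ) :
    (Ex (fun ω => g ω * h ω)) ^ 2 ≤ Ex (fun ω => g ω ^ 2) * Ex (fun ω => h ω ^ 2) := by
  simp only [Ex]
  rw [div_pow, div_mul_div_comm, ← sq]
  gcongr
  exact Finset.sum_mul_sq_le_sq_mul_sq _ _ _

lemma Ex_sq_le (g : Ω → ℝ) [Nonempty Ω] : (Ex g) ^ 2 ≤ Ex (fun ω => g ω ^ 2) := by
  have := Ex_mul_sq_le g (fun _ => 1)
  simpa [Ex_const] using this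

/-- If the average is `≤ c` (resp. `<`) some point is. -/
lemma exists_le_of_Ex_le [Nonempty Ω] {g : Ω → ℝ} {c : ℝ} (h : Ex g ≤ c) : ∃ ω, g ω ≤ c := by
  by_contra H
  push Not at H
  have h1 : Ex (fun _ : Ω => c) < Ex g := by
    unfold Ex
    have := card_pos_real (Ω := Ω)
    apply div_lt_div_of_pos_right _ this
    exact Finset.sum_lt_sum_of_nonempty Finset.univ_nonempty fun ω _ => H ω
  rw [Ex_const] at h1
  linarith

end Ex

end Pool.Agent.Helper497.HS
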