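import Pool.Agent.Helper497.HS.Defs

set_option autoImplicit false

namespace Pool.Agent.Helper497.HS


variable {ι : Type} [Fintype ι] [DecidableEq ι]

def chi (S : Finset ι) (x : ι → ℤˣ) : ℝ := ∏ i ∈ S, sv (x i)
noncomputable def fc (g : (ι → ℤˣ) → ℝ) (S : Finset ι) : ℝ := Ex (fun x => g x * chi S x)


lemma chi_hs (S : Finset ι) (x y : ι → ℤˣ) : chi S x * chi S y = ∏ i ∈ S, (sv (x i) * sv (y i)) := by
  unfold chi; rw [Finset.prod_mul_distrib]

lemma sum_chi_hs (x y : ι → ℤˣ) :
    ∑ S : Finset ι, chi S x * chi S y = if x = y then (2:ℝ) ^ (Fintype.card ι) else 0 := by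
  have h1 : ∑ S : Finset ι, chi S x * chi S y = ∏ i : ι, (1 + sv (x i) * sv (y i)) := by
    rw [Finset.prod_one_add]
    rw [Finset.powerset_univ]
    exact Finset.sum_congr rfl fun S _ => chi_hs S x y
  rw [h1]
  split_ifs with h
  · subst h
    rw [Finset.prod_congr rfl (fun i _ => by rw [sv_mul_self])]
    simp only [Finset.prod_const, Finset.card_univ]
    norm_num
  · obtain ⟨i, hi⟩ : ∃ i, x i ≠ y i := by
      by_contra H; push Not at H; exact h (funext H)
    apply Finset.prod_eq_zero (Finset.mem_univ i)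
    rcases Int.units_eq_one_or (x i) with h1 | h1 <;> rcases Int.units_eq_one_or (y i) with h2 | h2
    · exact absurd (h1.trans h2.symm) hi
    · rw [h1, h2]; simp
    · rw [h1, h2]; simp
    · exact absurd (h1.trans h2.symm) hi

lemma card_cube_hs : (Fintype.card (ι → ℤˣ) : ℝ) = (2:ℝ) ^ (Fintype.card ι) := by
  simp

theorem fourier_expand (g : (ι → ℤˣ) → ℝ) (x : ι → ℤˣ) : g x = ∑ S, fc g S * chi S x := by
  have h1 : ∀ S : Finset ι, fc g S * chi S x = Ex (fun y => g y * (chi S y * chi S x)) := by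
    intro S
    unfold fc
    rw [← Ex_mul_const]
    exact Ex_congr fun y => by ring
  simp_rw [h1]
  rw [← Ex_sum]
  have h2 : (fun y => ∑ S : Finset ι, g y * (chi S y * chi S x))
      = fun y => g y * (if y = x then (2:ℝ) ^ (Fintype.card ι) else 0) := by
    funext y
    rw [← Finset.mul_sum, sum_chi_hs]
  rw [h2]
  unfold Ex
  rw [card_cube_hs]
  simp

lemma chi_mul_hs (S : Finset ι) (x y : ι → ℤˣ) : chi S (fun i => x i * y i) = chi S x * chi S y := by
  rw [chi_hs]
  exact Finset.prod_congr rfl fun i _ => sv_mul _ _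

theorem corr_expand (g : (ι → ℤˣ) → ℝ) (y : ι → ℤˣ) :
    Ex (fun x => g x * g (fun i => x i * y i)) = ∑ S, fc g S ^ 2 * chi S y := by
  have h1 : (fun x => g x * g (fun i => x i * y i))
      = fun x => ∑ S : Finset ι, (g x * chi S x) * (fc g S * chi S y) := by
    funext x
    conv_lhs => rw [fourier_expand g (fun i => x i * y i)]
    rw [Finset.mul_sum]
    refine Finset.sum_congr rfl fun S _ => ?_
    rw [chi_mul_hs]; ring
  rw [h1, Ex_sum]
  refine Finset.sum_congr rfl fun S _ => ?_
  rw [Ex_mul_const]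
  change fc g S * _ = _
  ring

theorem parseval (g : (ι → ℤˣ) → ℝ) : Ex (fun x => g x ^ 2) = ∑ S, fc g S ^ 2 := by
  have := corr_expand g (fun _ => 1)
  simp only [mul_one] at this
  have h2 : ∀ S : Finset ι, chi S (fun _ : ι => (1 : ℤˣ)) = 1 := by
    intro S; unfold chi; simp
  simp only [h2, mul_one] at this
  rw [← this]
  exact Ex_congr fun x => by ring

/-- flip one coordinate, as an equivalence -/
def flipE_hs (j : ι) : (ι → ℤˣ) ≃ (ι → ℤˣ) where
  toFun x := Function.update x j (-(x j))
  invFun x := Function.update x j (-(x j))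
  left_inv x := by simp
  right_inv x := by simp

lemma chi_flip_hs (S : Finset ι) (j : ι) (x : ι → ℤˣ) :
    chi S (Function.update x j (-(x j))) = if j ∈ S then - chi S x else chi S x := by
  unfold chi
  split_ifs with h
  · rw [← Finset.mul_prod_erase S _ h, ← Finset.mul_prod_erase S (fun i => sv (x i)) h]
    simp only [Function.update_self, sv_neg]
    rw [neg_mul]
    congr 2
    refine Finset.prod_congr rfl fun i hi => ?_
    rw [Function.update_of_ne (Finset.ne_of_mem_erase hi)]
  · refine Finset.prod_congr rfl fun i hi => ?_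
    rw [Function.update_of_ne]
    rintro rfl; exact h hi

lemma fc_diff_hs (h : (ι → ℤˣ) → ℝ) (j : ι) (S : Finset ι) :
    fc (fun x => h x - h (Function.update x j (-(x j)))) S = if j ∈ S then 2 * fc h S else 0 := by
  have h0 : fc (fun x => h x - h (Function.update x j (-(x j)))) S
      = fc h S - Ex (fun x => h (Function.update x j (-(x j))) * chi S x) := by
    unfold fc
    rw [← Ex_sub]
    exact Ex_congr fun x => by ring
  have h1 : Ex (fun x => h (Function.update x j (-(x j))) * chi S x)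
      = Ex (fun x => h x * chi S (Function.update x j (-(x j)))) := by
    rw [← Ex_equiv (flipE_hs j) (fun x => h x * chi S (Function.update x j (-(x j))))]
    refine Ex_congr fun x => ?_
    simp [flipE_hs]
  rw [h0, h1]
  simp only [chi_flip_hs]
  split_ifs with hj
  · have : Ex (fun x => h x * -chi S x) = - fc h S := by
      unfold fc; rw [← Ex_neg]; exact Ex_congr fun x => by ring
    rw [this]; ring
  · change fc h S - fc h S = 0
    ring

theorem efron_stein (h : (ι → ℤˣ) → ℝ) :
    Ex (fun x => h x ^ 2) - (Ex h) ^ 2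
      ≤ (1 / 4) * ∑ j, Ex (fun x => (h x - h (Function.update x j (-(x j)))) ^ 2) := by
  have h1 : ∀ j : ι, Ex (fun x => (h x - h (Function.update x j (-(x j)))) ^ 2)
      = ∑ S : Finset ι, (if j ∈ S then 4 * fc h S ^ 2 else 0) := by
    intro j
    rw [parseval (fun x => h x - h (Function.update x j (-(x j))))]
    refine Finset.sum_congr rfl fun S _ => ?_
    rw [fc_diff_hs]
    split_ifs <;> ring
  simp_rw [h1]
  rw [Finset.sum_comm]
  have h2 : ∀ S : Finset ι, ∑ j : ι, (if j ∈ S then 4 * fc h S ^ 2 else 0)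
      = 4 * (S.card * fc h S ^ 2) := by
    intro S
    rw [← Finset.sum_filter]
    simp
    ring
  simp_rw [h2]
  rw [← Finset.mul_sum]
  have h3 : fc h ∅ = Ex h := by
    unfold fc; exact Ex_congr fun x => by simp [chi]
  rw [parseval, ← h3]
  have h4 : ∑ S : Finset ι, fc h S ^ 2 = fc h ∅ ^ 2 + ∑ S ∈ Finset.univ.erase (∅ : Finset ι), fc h S ^ 2 := by
    rw [← Finset.add_sum_erase _ _ (Finset.mem_univ (∅ : Finset ι))]
  have h5 : ∑ S : Finset ι, (S.card : ℝ) * fc h S ^ 2
      = ∑ S ∈ Finset.univ.erase (∅ : Finset ι), (S.card : ℝ) * fc h S ^ 2 := by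
    rw [← Finset.add_sum_erase _ _ (Finset.mem_univ (∅ : Finset ι))]
    simp
  rw [h4, h5]
  have h6 : ∑ S ∈ Finset.univ.erase (∅ : Finset ι), fc h S ^ 2
      ≤ ∑ S ∈ Finset.univ.erase (∅ : Finset ι), (S.card : ℝ) * fc h S ^ 2 := by
    refine Finset.sum_le_sum fun S hS => ?_
    have : S ≠ ∅ := Finset.ne_of_mem_erase hS
    have h7 : (1:ℝ) ≤ S.card := by
      exact_mod_cast Finset.card_pos.mpr (Finset.nonempty_iff_ne_empty.mpr this)
    nlinarith [sq_nonneg (fc h S)]
  linarith

end Pool.Agent.Helper497.HS
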