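import Pool.Agent.Helper497.HS.Moments
import Pool.Agent.Helper497.HS.Fourier

set_option autoImplicit false

namespace Pool.Agent.Helper497.HS


variable {ι : Type} [Fintype ι] [DecidableEq ι]



noncomputable def Wn_inf (t ω p : ℝ) : ℝ := if t - ω ≤ p ∧ p < t + ω then 1 else 0
noncomputable def Pn_inf (t ω p : ℝ) : ℝ := if t + ω ≤ p then 1 else 0
noncomputable def Mn_inf (t ω p : ℝ) : ℝ := if p < t - ω then 1 else 0
noncomputable def cl_inf (t ω p : ℝ) : ℝ := max (t - ω) (min (t + ω) p)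

theorem sgn_val_inf (z : ℝ) : sv (sgn z) = if 0 ≤ z then 1 else -1 := by
  unfold sgn
  split_ifs <;> simp

theorem s1_inf (t ω p : ℝ) (hω : 0 ≤ ω) :
    sv (sgn (p + ω - t)) - sv (sgn (p - ω - t)) = 2 * Wn_inf t ω p := by
  rw [sgn_val_inf, sgn_val_inf]
  unfold Wn_inf
  rcases lt_or_ge p (t - ω) with h1 | h1
  · rw [if_neg (by linarith), if_neg (by linarith), if_neg (fun h => by linarith [h.1])]
    ring
  · rcases lt_or_ge p (t + ω) with h2 | h2
    · rw [if_pos (by linarith), if_neg (by linarith), if_pos ⟨h1, h2⟩]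
      ring
    · rw [if_pos (by linarith), if_pos (by linarith), if_neg (fun h => by linarith [h.2])]
      ring

theorem s2_inf (t ω p : ℝ) (hω : 0 ≤ ω) :
    sv (sgn (p + ω - t)) + sv (sgn (p - ω - t)) = 2 * (Pn_inf t ω p - Mn_inf t ω p) := by
  rw [sgn_val_inf, sgn_val_inf]
  unfold Pn_inf Mn_inf
  rcases lt_or_ge p (t - ω) with h1 | h1
  · rw [if_neg (by linarith), if_neg (by linarith), if_neg (by linarith), if_pos h1]
    ring
  · rcases lt_or_ge p (t + ω) with h2 | h2
    · rw [if_pos (by linarith), if_neg (by linarith), if_neg (by linarith), if_neg (by linarith)]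
      ring
    · rw [if_pos (by linarith), if_pos (by linarith), if_pos h2, if_neg (by linarith)]
      ring

theorem s3_inf (t ω p : ℝ) (hω : 0 ≤ ω) :
    Pn_inf t ω p + Mn_inf t ω p + Wn_inf t ω p = 1 := by
  unfold Pn_inf Mn_inf Wn_inf
  rcases lt_or_ge p (t - ω) with h1 | h1
  · rw [if_neg (by linarith), if_pos h1, if_neg (fun h => by linarith [h.1])]
    ring
  · rcases lt_or_ge p (t + ω) with h2 | h2
    · rw [if_neg (by linarith), if_neg (by linarith), if_pos ⟨h1, h2⟩]
      ring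
    · rw [if_pos h2, if_neg (by linarith), if_neg (fun h => by linarith [h.2])]
      ring

theorem Wn_nonneg_inf (t ω p : ℝ) : 0 ≤ Wn_inf t ω p := by
  unfold Wn_inf; split_ifs <;> norm_num
theorem Pn_nonneg_inf (t ω p : ℝ) : 0 ≤ Pn_inf t ω p := by
  unfold Pn_inf; split_ifs <;> norm_num
theorem Mn_nonneg_inf (t ω p : ℝ) : 0 ≤ Mn_inf t ω p := by
  unfold Mn_inf; split_ifs <;> norm_num

theorem cl_low_inf (t ω p : ℝ) (h : p < t - ω) : cl_inf t ω p = t - ω := by
  unfold cl_inf
  exact max_eq_left ((min_le_right _ _).trans h.le)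

theorem cl_high_inf (t ω p : ℝ) (hω : 0 ≤ ω) (h : t + ω ≤ p) : cl_inf t ω p = t + ω := by
  unfold cl_inf
  rw [min_eq_left h]
  exact max_eq_right (by linarith)

theorem cl_lip_inf (t ω p p' : ℝ) : |cl_inf t ω p - cl_inf t ω p'| ≤ |p - p'| := by
  unfold cl_inf
  have h1 : |max (t - ω) (min (t + ω) p) - max (t - ω) (min (t + ω) p')| ≤
      |min (t + ω) p - min (t + ω) p'| := by
    rw [max_comm (t - ω), max_comm (t - ω)]
    exact abs_max_sub_max_le_abs _ _ _
  have h2 : |min (t + ω) p - min (t + ω) p'| ≤ |p - p'| := by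
    rw [abs_le]
    rcases le_total (t + ω) p with a | a <;> rcases le_total (t + ω) p' with b | b
    · rw [min_eq_left a, min_eq_left b, sub_self]
      exact ⟨neg_nonpos.mpr (abs_nonneg _), abs_nonneg _⟩
    · rw [min_eq_left a, min_eq_right b]
      exact ⟨by linarith [abs_nonneg (p - p')], by linarith [le_abs_self (p - p')]⟩
    · rw [min_eq_right a, min_eq_left b]
      exact ⟨by linarith [neg_abs_le (p - p')], by linarith [abs_nonneg (p - p')]⟩
    · rw [min_eq_right a, min_eq_right b]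
      exact ⟨neg_abs_le _, le_abs_self _⟩
  exact h1.trans h2

theorem c1_inf (t ω p p' δ : ℝ) (hω : 0 ≤ ω) (h : |p - p'| ≤ δ) (hδ : δ ≤ 2 * ω) :
    (cl_inf t ω p - cl_inf t ω p') ^ 2 ≤ δ ^ 2 * (Wn_inf t ω p + Wn_inf t ω p') := by
  have hlip : (cl_inf t ω p - cl_inf t ω p') ^ 2 ≤ δ ^ 2 := by
    rw [← sq_abs]
    exact pow_le_pow_left₀ (abs_nonneg _) ((cl_lip_inf t ω p p').trans h) 2
  have hW1 := Wn_nonneg_inf t ω p
  have hW2 := Wn_nonneg_inf t ω p'
  by_cases a : t - ω ≤ p ∧ p < t + ω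
  · have e : Wn_inf t ω p = 1 := if_pos a
    rw [e]
    nlinarith [sq_nonneg δ]
  · by_cases b : t - ω ≤ p' ∧ p' < t + ω
    · have e : Wn_inf t ω p' = 1 := if_pos b
      rw [e]
      nlinarith [sq_nonneg δ]
    · have h1 := (abs_le.mp h).1
      have h2 := (abs_le.mp h).2
      have h0 : 0 ≤ δ ^ 2 * (Wn_inf t ω p + Wn_inf t ω p') :=
        mul_nonneg (sq_nonneg _) (add_nonneg hW1 hW2)
      rcases lt_or_ge p (t - ω) with p1 | p1
      · rcases lt_or_ge p' (t - ω) with p2 | p2
        · rw [cl_low_inf t ω p p1, cl_low_inf t ω p' p2, sub_self]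
          simpa using h0
        · have p3 : t + ω ≤ p' := by
            by_contra hc
            exact b ⟨p2, not_le.mp hc⟩
          linarith
      · have p3 : t + ω ≤ p := by
          by_contra hc
          exact a ⟨p1, not_le.mp hc⟩
        rcases lt_or_ge p' (t - ω) with p2 | p2
        · linarith
        · have p4 : t + ω ≤ p' := by
            by_contra hc
            exact b ⟨p2, not_le.mp hc⟩
          rw [cl_high_inf t ω p hω p3, cl_high_inf t ω p' hω p4, sub_self]
          simpa using h0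

theorem c2_inf (t ω p p' : ℝ) (hω : 0 ≤ ω) :
    4 * ω ^ 2 * (Pn_inf t ω p * Mn_inf t ω p' + Mn_inf t ω p * Pn_inf t ω p') ≤
      (cl_inf t ω p - cl_inf t ω p') ^ 2 := by
  by_cases a : t + ω ≤ p
  · have a' : ¬ p < t - ω := by
      intro h; linarith
    have e1 : Pn_inf t ω p = 1 := if_pos a
    have e2 : Mn_inf t ω p = 0 := if_neg a'
    rw [e1, e2, cl_high_inf t ω p hω a]
    by_cases b : p' < t - ω
    · have e3 : Mn_inf t ω p' = 1 := if_pos b
      rw [e3, cl_low_inf t ω p' b]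
      apply le_of_eq
      ring
    · have e3 : Mn_inf t ω p' = 0 := if_neg b
      rw [e3]
      nlinarith [sq_nonneg (t + ω - cl_inf t ω p')]
  · have e1 : Pn_inf t ω p = 0 := if_neg a
    rw [e1]
    by_cases b : p < t - ω
    · have e2 : Mn_inf t ω p = 1 := if_pos b
      rw [e2, cl_low_inf t ω p b]
      by_cases d : t + ω ≤ p'
      · have e3 : Pn_inf t ω p' = 1 := if_pos d
        rw [e3, cl_high_inf t ω p' hω d]
        apply le_of_eq
        ring
      · have e3 : Pn_inf t ω p' = 0 := if_neg d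
        rw [e3]
        nlinarith [sq_nonneg (t - ω - cl_inf t ω p')]
    · have e2 : Mn_inf t ω p = 0 := if_neg b
      rw [e2]
      nlinarith [sq_nonneg (cl_inf t ω p - cl_inf t ω p')]

/-- flipping one coordinate -/
def flipE_inf (i : ι) : (ι → ℤˣ) ≃ (ι → ℤˣ) where
  toFun x := Function.update x i (-(x i))
  invFun x := Function.update x i (-(x i))
  left_inv x := by simp
  right_inv x := by simp

theorem flipE_apply_inf (i : ι) (x : ι → ℤˣ) : flipE_inf i x = Function.update x i (-(x i)) := rfl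

theorem lin_flip_inf (w : ι → ℝ) (i : ι) (x : ι → ℤˣ) :
    lin w (flipE_inf i x) = lin w x - 2 * w i * sv (x i) := by
  have h : ∀ k, w k * sv (flipE_inf i x k) = w k * sv (x k) + if k = i then -(2 * w i * sv (x i)) else 0 := by
    intro k
    rw [flipE_apply_inf]
    by_cases hk : k = i
    · rw [hk, Function.update_self, if_pos rfl, sv_neg]
      ring
    · rw [Function.update_of_ne hk, if_neg hk, add_zero]
  unfold lin
  rw [Finset.sum_congr rfl fun k _ => h k, Finset.sum_add_distrib, Finset.sum_ite_eq',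
    if_pos (Finset.mem_univ i)]
  ring

theorem Ex_half_inf (i : ι) (g : (ι → ℤˣ) → ℝ) :
    Ex g = (1 / 2) * Ex (fun u => g u + g (flipE_inf i u)) := by
  rw [Ex_add, Ex_equiv (flipE_inf i) g]
  ring

theorem Ex_var_inf {Ω : Type} [Fintype Ω] [Nonempty Ω] (h : Ω → ℝ) :
    Ex (fun x => Ex (fun y => (h x - h y) ^ 2)) = 2 * (Ex (fun x => h x ^ 2) - (Ex h) ^ 2) := by
  have e1 : ∀ x, Ex (fun y => (h x - h y) ^ 2) =
      h x ^ 2 - 2 * h x * Ex h + Ex (fun y => h y ^ 2) := by
    intro x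
    have e2 : (fun y => (h x - h y) ^ 2) = fun y => (h x ^ 2 - (2 * h x) * h y) + h y ^ 2 := by
      funext y; ring
    rw [e2, Ex_add, Ex_sub, Ex_const, Ex_const_mul]
  rw [Ex_congr e1, Ex_add, Ex_sub, Ex_const]
  have e3 : (fun ω => 2 * h ω * Ex h) = fun ω => (2 * Ex h) * h ω := by
    funext ω; ring
  rw [e3, Ex_const_mul]
  ring

theorem influence_lower (w : ι → ℝ) (hw : ∑ i, w i ^ 2 = 1) (t : ℝ) (j : ι)
    (hj : ∀ i, |w i| ≤ |w j|) :
    |w j| ^ 3 * (1 - |Ex (fun u : ι → ℤˣ => sv (sgn (lin w u - t)))|) ^ 2 / 8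
      ≤ w j * Ex (fun u : ι → ℤˣ => sv (sgn (lin w u - t)) * sv (u j)) := by
  obtain ⟨ω, hω⟩ : ∃ ω, ω = |w j| := ⟨_, rfl⟩
  have hω0 : 0 ≤ ω := by rw [hω]; exact abs_nonneg _
  have hω1 : ω ≤ 1 := by
    have h1 : w j ^ 2 ≤ 1 := by
      rw [← hw]
      exact Finset.single_le_sum (f := fun i => w i ^ 2) (fun i _ => sq_nonneg _) (Finset.mem_univ j)
    have h2 : ω ^ 2 ≤ 1 := by rw [hω, sq_abs]; exact h1
    by_contra hc
    have hc' := not_le.mp hc
    nlinarith
  obtain ⟨X, hX⟩ : ∃ X : (ι → ℤˣ) → ℝ, X = fun u => lin w u - w j * sv (u j) := ⟨_, rfl⟩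
  have hXu : ∀ u, lin w u = X u + w j * sv (u j) := by
    intro u; rw [hX]; ring
  have hXj : ∀ u, X (flipE_inf j u) = X u := by
    intro u
    rw [hX]
    show lin w (flipE_inf j u) - w j * sv (flipE_inf j u j) = lin w u - w j * sv (u j)
    rw [lin_flip_inf, flipE_apply_inf, Function.update_self, sv_neg]
    ring
  have hXi : ∀ i, i ≠ j → ∀ u, |X u - X (flipE_inf i u)| ≤ 2 * |w i| := by
    intro i hij u
    have e : X u - X (flipE_inf i u) = 2 * w i * sv (u i) := by
      rw [hX]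
      show (lin w u - w j * sv (u j)) - (lin w (flipE_inf i u) - w j * sv (flipE_inf i u j)) = _
      rw [lin_flip_inf, flipE_apply_inf, Function.update_of_ne (Ne.symm hij)]
      ring
    rw [e, abs_mul, abs_mul, abs_sv, mul_one, abs_two]
  have hcase : ∀ u : ι → ℤˣ, w j * sv (u j) = ω ∨ w j * sv (u j) = -ω := by
    intro u
    have h1 : |w j * sv (u j)| = ω := by rw [abs_mul, abs_sv, mul_one, hω]
    rcases abs_choice (w j * sv (u j)) with h | h
    · left; rw [← h, h1]
    · right; rw [← h1, h, neg_neg]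
  have hflin : ∀ u, lin w (flipE_inf j u) = X u - w j * sv (u j) := by
    intro u
    rw [lin_flip_inf, hXu]; ring
  obtain ⟨qp, hqp⟩ : ∃ qp, qp = Ex (fun u => Pn_inf t ω (X u)) := ⟨_, rfl⟩
  obtain ⟨qm, hqm⟩ : ∃ qm, qm = Ex (fun u => Mn_inf t ω (X u)) := ⟨_, rfl⟩
  obtain ⟨I, hI⟩ : ∃ I, I = Ex (fun u => Wn_inf t ω (X u)) := ⟨_, rfl⟩
  have hqp0 : 0 ≤ qp := by rw [hqp]; exact Ex_nonneg fun u => Pn_nonneg_inf _ _ _
  have hqm0 : 0 ≤ qm := by rw [hqm]; exact Ex_nonneg fun u => Mn_nonneg_inf _ _ _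
  have hI0 : 0 ≤ I := by rw [hI]; exact Ex_nonneg fun u => Wn_nonneg_inf _ _ _
  have hsum : qp + qm + I = 1 := by
    rw [hqp, hqm, hI, ← Ex_add, ← Ex_add, Ex_congr (h := fun _ => 1) (fun u => s3_inf t ω (X u) hω0),
      Ex_const]
  have hEF : Ex (fun u : ι → ℤˣ => sv (sgn (lin w u - t))) = qp - qm := by
    rw [Ex_half_inf j]
    have e : ∀ u : ι → ℤˣ, sv (sgn (lin w u - t)) + sv (sgn (lin w (flipE_inf j u) - t)) =
        2 * (Pn_inf t ω (X u) - Mn_inf t ω (X u)) := by
      intro u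
      rw [← s2_inf t ω (X u) hω0, hflin, hXu]
      rcases hcase u with h | h
      · rw [h]
      · rw [h, sub_neg_eq_add, ← sub_eq_add_neg, add_comm]
    rw [Ex_congr e, Ex_const_mul, Ex_sub, ← hqp, ← hqm]
    ring
  have hEI : w j * Ex (fun u : ι → ℤˣ => sv (sgn (lin w u - t)) * sv (u j)) = ω * I := by
    rw [Ex_half_inf j]
    have e : ∀ u : ι → ℤˣ, w j * (sv (sgn (lin w u - t)) * sv (u j) +
        sv (sgn (lin w (flipE_inf j u) - t)) * sv (flipE_inf j u j)) =
        ω * (2 * Wn_inf t ω (X u)) := by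
      intro u
      rw [← s1_inf t ω (X u) hω0, hflin, hXu, flipE_apply_inf, Function.update_self, sv_neg]
      have e2 : w j * (sv (sgn (X u + w j * sv (u j) - t)) * sv (u j) +
          sv (sgn (X u - w j * sv (u j) - t)) * -sv (u j)) =
          (w j * sv (u j)) * (sv (sgn (X u + w j * sv (u j) - t)) -
            sv (sgn (X u - w j * sv (u j) - t))) := by ring
      rw [e2]
      rcases hcase u with h | h
      · rw [h]
      · rw [h, sub_neg_eq_add, ← sub_eq_add_neg]
        ring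
    have e3 : w j * (1 / 2 * Ex (fun u : ι → ℤˣ => sv (sgn (lin w u - t)) * sv (u j) +
        sv (sgn (lin w (flipE_inf j u) - t)) * sv (flipE_inf j u j))) =
        1 / 2 * Ex (fun u : ι → ℤˣ => w j * (sv (sgn (lin w u - t)) * sv (u j) +
        sv (sgn (lin w (flipE_inf j u) - t)) * sv (flipE_inf j u j))) := by
      rw [Ex_const_mul]; ring
    rw [e3, Ex_congr e, Ex_const_mul, Ex_const_mul, ← hI]
    ring
  -- the key inequality
  obtain ⟨η, hη⟩ : ∃ η, η = 1 - |qp - qm| := ⟨_, rfl⟩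
  have hη0 : 0 ≤ η := by
    rw [hη]
    have : |qp - qm| ≤ 1 := by
      rw [abs_le]; constructor <;> linarith
    linarith
  have hη1 : η ≤ 1 := by
    rw [hη]; linarith [abs_nonneg (qp - qm)]
  have hkey : ω ^ 2 * η ^ 2 / 8 ≤ I := by
    by_cases hbig : η / 2 ≤ I
    · have h1 : ω ^ 2 ≤ 1 := by nlinarith
      have h2 : η ^ 2 ≤ η := by nlinarith
      have h3 : ω ^ 2 * η ^ 2 ≤ 1 * η := mul_le_mul h1 h2 (sq_nonneg _) (by norm_num)
      linarith
    · have hlt := not_le.mp hbig
      have hqq : η ^ 2 / 16 ≤ qp * qm := by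
        rcases le_total qp qm with h | h
        · rw [abs_of_nonpos (by linarith)] at hη
          have h1 : η / 4 ≤ qp := by linarith
          have h2 : η / 4 ≤ qm := by linarith
          have h3 : η / 4 * (η / 4) ≤ qp * qm := mul_le_mul h1 h2 (by linarith) hqp0
          linarith [h3, (by ring : η / 4 * (η / 4) = η ^ 2 / 16)]
        · rw [abs_of_nonneg (by linarith)] at hη
          have h1 : η / 4 ≤ qm := by linarith
          have h2 : η / 4 ≤ qp := by linarith
          have h3 : η / 4 * (η / 4) ≤ qp * qm := mul_le_mul h2 h1 (by linarith) hqp0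
          linarith [h3, (by ring : η / 4 * (η / 4) = η ^ 2 / 16)]
      -- lower bound of the variance
      have hlow : 4 * ω ^ 2 * (qp * qm) ≤ Ex (fun u => cl_inf t ω (X u) ^ 2) -
          (Ex (fun u => cl_inf t ω (X u))) ^ 2 := by
        have h1 := Ex_var_inf (fun u : ι → ℤˣ => cl_inf t ω (X u))
        have h2 : Ex (fun x : ι → ℤˣ => Ex (fun y : ι → ℤˣ => 4 * ω ^ 2 *
            (Pn_inf t ω (X x) * Mn_inf t ω (X y) + Mn_inf t ω (X x) * Pn_inf t ω (X y)))) ≤
            Ex (fun x : ι → ℤˣ => Ex (fun y : ι → ℤˣ => (cl_inf t ω (X x) - cl_inf t ω (X y)) ^ 2)) :=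
          Ex_mono fun x => Ex_mono fun y => c2_inf t ω (X x) (X y) hω0
        have h3 : Ex (fun x : ι → ℤˣ => Ex (fun y : ι → ℤˣ => 4 * ω ^ 2 *
            (Pn_inf t ω (X x) * Mn_inf t ω (X y) + Mn_inf t ω (X x) * Pn_inf t ω (X y)))) =
            2 * (4 * ω ^ 2 * (qp * qm)) := by
          have e1 : ∀ x : ι → ℤˣ, Ex (fun y : ι → ℤˣ => 4 * ω ^ 2 *
            (Pn_inf t ω (X x) * Mn_inf t ω (X y) + Mn_inf t ω (X x) * Pn_inf t ω (X y))) =
            4 * ω ^ 2 * (Pn_inf t ω (X x) * qm + Mn_inf t ω (X x) * qp) := by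
            intro x
            rw [Ex_const_mul, Ex_add, Ex_const_mul, Ex_const_mul, ← hqp, ← hqm]
          rw [Ex_congr e1, Ex_const_mul, Ex_add, Ex_mul_const, Ex_mul_const, ← hqp, ← hqm]
          ring
        rw [h3, h1] at h2
        linarith
      -- upper bound of the variance
      have hup := efron_stein (fun u : ι → ℤˣ => cl_inf t ω (X u))
      have hterm : ∀ i, Ex (fun x : ι → ℤˣ => (cl_inf t ω (X x) -
          cl_inf t ω (X (Function.update x i (-(x i))))) ^ 2) ≤ 8 * I * w i ^ 2 := by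
        intro i
        by_cases hij : i = j
        · have e1 : ∀ x : ι → ℤˣ, (cl_inf t ω (X x) -
            cl_inf t ω (X (Function.update x i (-(x i))))) ^ 2 = 0 := by
            intro x
            rw [hij, ← flipE_apply_inf, hXj, sub_self]
            ring
          rw [Ex_congr e1, Ex_const]
          positivity
        · have e1 : ∀ x : ι → ℤˣ, (cl_inf t ω (X x) -
            cl_inf t ω (X (Function.update x i (-(x i))))) ^ 2 ≤
            (2 * |w i|) ^ 2 * (Wn_inf t ω (X x) + Wn_inf t ω (X (flipE_inf i x))) := by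
            intro x
            rw [← flipE_apply_inf]
            refine c1_inf t ω _ _ _ hω0 (hXi i hij x) ?_
            have := hj i
            rw [← hω] at this
            linarith
          refine (Ex_mono e1).trans ?_
          rw [Ex_const_mul, Ex_add, Ex_equiv (flipE_inf i) (fun x => Wn_inf t ω (X x)), ← hI,
            mul_pow, sq_abs]
          apply le_of_eq
          ring
      have hsumle : ∑ i, Ex (fun x : ι → ℤˣ => (cl_inf t ω (X x) -
          cl_inf t ω (X (Function.update x i (-(x i))))) ^ 2) ≤ 8 * I := by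
        refine (Finset.sum_le_sum fun i _ => hterm i).trans ?_
        rw [← Finset.mul_sum, hw, mul_one]
      have hω2 : 0 ≤ ω ^ 2 := sq_nonneg _
      have h5 : 4 * ω ^ 2 * (η ^ 2 / 16) ≤ 4 * ω ^ 2 * (qp * qm) :=
        mul_le_mul_of_nonneg_left hqq (by positivity)
      have h6 : 4 * ω ^ 2 * (η ^ 2 / 16) ≤ 1 / 4 * (8 * I) := by
        refine h5.trans (hlow.trans (hup.trans ?_))
        exact mul_le_mul_of_nonneg_left hsumle (by norm_num)
      nlinarith
  rw [hEI, hEF, ← hη, ← hω]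
  have := mul_le_mul_of_nonneg_left hkey hω0
  calc ω ^ 3 * η ^ 2 / 8 = ω * (ω ^ 2 * η ^ 2 / 8) := by ring
    _ ≤ ω * I := this

end Pool.Agent.Helper497.HS
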