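import Pool.Agent.Helper497.HS.Defs

set_option autoImplicit false

namespace Pool.Agent.Helper497.HS


variable {ι : Type} [Fintype ι] [DecidableEq ι]


/-- flipping one coordinate -/
def flipE_hsa (i : ι) : (ι → ℤˣ) ≃ (ι → ℤˣ) :=
  Function.Involutive.toPerm (fun x => Function.update x i (-(x i))) (by
    intro x
    funext j
    by_cases h : j = i
    · subst h; simp
    · simp [h])

theorem flip_same_hsa (i : ι) (x : ι → ℤˣ) : flipE_hsa i x i = -(x i) := by
  simp [flipE_hsa, Function.Involutive.toPerm]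

theorem flip_ne_hsa (i j : ι) (h : j ≠ i) (x : ι → ℤˣ) : flipE_hsa i x j = x j := by
  simp [flipE_hsa, Function.Involutive.toPerm, h]

theorem odd_hsa (i : ι) (φ : (ι → ℤˣ) → ℝ) (hφ : ∀ x, φ (flipE_hsa i x) = φ x) :
    Ex (fun x : ι → ℤˣ => φ x * sv (x i)) = 0 := by
  have h1 := Ex_equiv (flipE_hsa i) (fun x : ι → ℤˣ => φ x * sv (x i))
  have h2 : Ex (fun x : ι → ℤˣ => φ (flipE_hsa i x) * sv (flipE_hsa i x i)) =
      - Ex (fun x : ι → ℤˣ => φ x * sv (x i)) := by
    rw [← Ex_neg]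
    apply Ex_congr
    intro x
    rw [hφ, flip_same_hsa, sv_neg]
    ring
  rw [h2] at h1
  linarith

/-- partial sums -/
def ps_hsa (w : ι → ℝ) (s : Finset ι) (x : ι → ℤˣ) : ℝ := ∑ j ∈ s, w j * sv (x j)

theorem ps_flip_hsa (w : ι → ℝ) (s : Finset ι) (i : ι) (hi : i ∉ s) (x : ι → ℤˣ) :
    ps_hsa w s (flipE_hsa i x) = ps_hsa w s x := by
  unfold ps_hsa
  apply Finset.sum_congr rfl
  intro j hj
  rw [flip_ne_hsa i j (fun h => hi (h ▸ hj))]

theorem ps_mom_hsa (w : ι → ℝ) (s : Finset ι) :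
    Ex (fun x => ps_hsa w s x) = 0 ∧ Ex (fun x => ps_hsa w s x ^ 2) = ∑ i ∈ s, w i ^ 2 ∧
      Ex (fun x => ps_hsa w s x ^ 4) ≤ 3 * (∑ i ∈ s, w i ^ 2) ^ 2 := by
  induction s using Finset.induction_on with
  | empty =>
    simp [ps_hsa, Ex]
  | insert i s hi ih =>
    obtain ⟨h1, h2, h4⟩ := ih
    have e : ∀ x, ps_hsa w (insert i s) x = w i * sv (x i) + ps_hsa w s x := by
      intro x
      unfold ps_hsa
      rw [Finset.sum_insert hi]
    have o0 := odd_hsa i (fun _ => (1:ℝ)) (fun _ => rfl)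
    have o1 := odd_hsa i (fun x => ps_hsa w s x) (ps_flip_hsa w s i hi)
    have o3 := odd_hsa i (fun x => ps_hsa w s x ^ 3) (fun x => by
      rw [ps_flip_hsa w s i hi])
    refine ⟨?_, ?_, ?_⟩
    · have e1 : ∀ x : ι → ℤˣ, ps_hsa w (insert i s) x = w i * (1 * sv (x i)) + ps_hsa w s x := by
        intro x; rw [e]; ring
      rw [Ex_congr e1, Ex_add, Ex_const_mul, o0, h1]
      ring
    · have e1 : ∀ x : ι → ℤˣ, ps_hsa w (insert i s) x ^ 2 =
          w i ^ 2 + (2 * w i) * (ps_hsa w s x * sv (x i)) + ps_hsa w s x ^ 2 := by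
        intro x
        rw [e]
        linear_combination w i ^ 2 * sv_sq (x i)
      rw [Ex_congr e1, Ex_add, Ex_add, Ex_const_mul, Ex_const, o1, h2, Finset.sum_insert hi]
      ring
    · have e1 : ∀ x : ι → ℤˣ, ps_hsa w (insert i s) x ^ 4 =
          w i ^ 4 + (4 * w i ^ 3) * (ps_hsa w s x * sv (x i)) +
          (6 * w i ^ 2) * ps_hsa w s x ^ 2 + (4 * w i) * (ps_hsa w s x ^ 3 * sv (x i)) +
          ps_hsa w s x ^ 4 := by
        intro x
        rw [e]
        have hu := sv_sq (x i)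
        linear_combination (w i ^ 4 * (sv (x i) ^ 2 + 1) + 4 * w i ^ 3 * ps_hsa w s x * sv (x i) +
          6 * w i ^ 2 * ps_hsa w s x ^ 2) * hu
      rw [Ex_congr e1, Ex_add, Ex_add, Ex_add, Ex_add, Ex_const_mul, Ex_const_mul, Ex_const_mul,
        Ex_const, o1, o3, h2, Finset.sum_insert hi]
      have h5 : 0 ≤ w i ^ 4 := by positivity
      nlinarith

theorem lin_eq_hsa (w : ι → ℝ) (x : ι → ℤˣ) : lin w x = ps_hsa w Finset.univ x := rfl

theorem Ex_lin (w : ι → ℝ) : Ex (fun x : ι → ℤˣ => lin w x) = 0 :=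
  (ps_mom_hsa w Finset.univ).1

theorem Ex_lin_sq (w : ι → ℝ) : Ex (fun x : ι → ℤˣ => lin w x ^ 2) = ∑ i, w i ^ 2 :=
  (ps_mom_hsa w Finset.univ).2.1

theorem Ex_lin_four (w : ι → ℝ) :
    Ex (fun x : ι → ℤˣ => lin w x ^ 4) ≤ 3 * (∑ i, w i ^ 2) ^ 2 :=
  (ps_mom_hsa w Finset.univ).2.2

theorem Ex_abs_lin_ge (w : ι → ℝ) (hw : ∑ i, w i ^ 2 = 1) :
    1 / 2 ≤ Ex (fun x : ι → ℤˣ => |lin w x|) := by
  have h1 : ∀ x : ι → ℤˣ, lin w x ^ 2 - (4 / 27) * lin w x ^ 4 ≤ |lin w x| := by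
    intro x
    obtain ⟨a, ha⟩ : ∃ a, a = |lin w x| := ⟨_, rfl⟩
    have ha0 : 0 ≤ a := by rw [ha]; exact abs_nonneg _
    have h2 : lin w x ^ 2 = a ^ 2 := by rw [ha, sq_abs]
    have h4 : lin w x ^ 4 = a ^ 4 := by
      rw [show (4:ℕ) = 2 * 2 by norm_num, pow_mul, pow_mul, h2]
    rw [h2, h4, ← ha]
    have h5 : 0 ≤ (4 / 27) * (a * ((a + 3) * (a - 3 / 2) ^ 2)) := by positivity
    nlinarith
  have h2 := Ex_mono h1
  rw [Ex_sub, Ex_const_mul, Ex_lin_sq, hw] at h2
  have h4 := Ex_lin_four w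
  rw [hw] at h4
  linarith

theorem cheb_hsa {Ω : Type} [Fintype Ω] [Nonempty Ω] (a b : Ω → ℝ)
    (h : ∀ x y, 0 ≤ (a x - a y) * (b x - b y)) : Ex a * Ex b ≤ Ex (fun x => a x * b x) := by
  have h1 : 0 ≤ Ex (fun x => Ex (fun y => (a x - a y) * (b x - b y))) :=
    Ex_nonneg fun x => Ex_nonneg fun y => h x y
  have h2 : ∀ x, Ex (fun y => (a x - a y) * (b x - b y)) =
      (a x * b x + Ex (fun y => a y * b y)) - (a x * Ex b + b x * Ex a) := by
    intro x
    have e : ∀ y, (a x - a y) * (b x - b y) = (a x * b x + a y * b y) - (a x * b y + b x * a y) := by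
      intro y; ring
    rw [Ex_congr e, Ex_sub, Ex_add, Ex_add, Ex_const, Ex_const_mul, Ex_const_mul]
  rw [Ex_congr h2, Ex_sub, Ex_add, Ex_add, Ex_const, Ex_mul_const, Ex_mul_const] at h1
  linarith

theorem lin_neg_hsa (w : ι → ℝ) (x : ι → ℤˣ) : lin w (-x) = - lin w x := by
  unfold lin
  rw [← Finset.sum_neg_distrib]
  apply Finset.sum_congr rfl
  intro i _
  rw [Pi.neg_apply, sv_neg]
  ring

theorem Ex_negX_hsa (w : ι → ℝ) (φ : ℝ → ℝ) :
    Ex (fun x : ι → ℤˣ => φ (- lin w x)) = Ex (fun x : ι → ℤˣ => φ (lin w x)) := by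
  have h := Ex_equiv (Equiv.neg (ι → ℤˣ)) (fun x : ι → ℤˣ => φ (lin w x))
  rw [← h]
  apply Ex_congr
  intro x
  rw [Equiv.neg_apply, lin_neg_hsa]

theorem Ex_pos_part_hsa (w : ι → ℝ) (hw : ∑ i, w i ^ 2 = 1) :
    1 / 4 ≤ Ex (fun x : ι → ℤˣ => max (lin w x) 0) := by
  have e : ∀ x : ι → ℤˣ, max (lin w x) 0 = (1 / 2) * |lin w x| + (1 / 2) * lin w x := by
    intro x
    rcases le_total 0 (lin w x) with h | h
    · rw [max_eq_left h, abs_of_nonneg h]; ring
    · rw [max_eq_right h, abs_of_nonpos h]; ring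
  rw [Ex_congr e, Ex_add, Ex_const_mul, Ex_const_mul, Ex_lin]
  have := Ex_abs_lin_ge w hw
  linarith

theorem corr_lower (w : ι → ℝ) (hw : ∑ i, w i ^ 2 = 1) (t : ℝ) :
    (1 - |Ex (fun u : ι → ℤˣ => sv (sgn (lin w u - t)))|) / 4
      ≤ Ex (fun u : ι → ℤˣ => sv (sgn (lin w u - t)) * lin w u) := by
  have hF : ∀ u : ι → ℤˣ, sv (sgn (lin w u - t)) = if t ≤ lin w u then 1 else -1 := by
    intro u
    unfold sgn
    by_cases h : t ≤ lin w u
    · rw [if_pos (by linarith), if_pos h, sv_one]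
    · rw [if_neg (by linarith [not_le.1 h]), if_neg h, sv_neg_one]
  have hpp := Ex_pos_part_hsa w hw
  rcases lt_or_ge 0 t with ht | ht
  · obtain ⟨p, hp⟩ : ∃ p, p = Ex (fun u : ι → ℤˣ => if t ≤ lin w u then (1:ℝ) else 0) := ⟨_, rfl⟩
    have hp0 : 0 ≤ p := by
      rw [hp]
      exact Ex_nonneg fun u => by split_ifs <;> norm_num
    have hp2 : p ≤ 1 / 2 := by
      have h1 := Ex_negX_hsa w (fun y => if t ≤ y then (1:ℝ) else 0)
      have h2 : Ex (fun u : ι → ℤˣ => (if t ≤ lin w u then (1:ℝ) else 0) +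
          (if t ≤ - lin w u then (1:ℝ) else 0)) ≤ Ex (fun _ : ι → ℤˣ => (1:ℝ)) := by
        apply Ex_mono
        intro u
        split_ifs with h3 h4
        · exfalso; linarith
        all_goals norm_num
      rw [Ex_add, Ex_const, h1, ← hp] at h2
      linarith
    have e1 : ∀ u : ι → ℤˣ, sv (sgn (lin w u - t)) =
        2 * (if t ≤ lin w u then (1:ℝ) else 0) - 1 := by
      intro u
      rw [hF]
      split_ifs <;> norm_num
    have e2 : Ex (fun u : ι → ℤˣ => sv (sgn (lin w u - t))) = 2 * p - 1 := by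
      rw [Ex_congr e1, Ex_sub, Ex_const_mul, Ex_const, ← hp]
    have e3 : ∀ u : ι → ℤˣ, sv (sgn (lin w u - t)) * lin w u =
        2 * (max (lin w u) 0 * (if t ≤ lin w u then (1:ℝ) else 0)) - lin w u := by
      intro u
      rw [hF]
      split_ifs with h
      · rw [max_eq_left (by linarith)]; ring
      · ring
    have h3 := cheb_hsa (fun u : ι → ℤˣ => max (lin w u) 0)
      (fun u => if t ≤ lin w u then (1:ℝ) else 0) (by
        intro x y
        split_ifs with h1 h2 h2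
        · simp
        · have : max (lin w y) 0 ≤ max (lin w x) 0 := max_le_max (by linarith) le_rfl
          nlinarith
        · have : max (lin w x) 0 ≤ max (lin w y) 0 := max_le_max (by linarith) le_rfl
          nlinarith
        · simp)
    rw [← hp] at h3
    rw [e2, Ex_congr e3, Ex_sub, Ex_const_mul, Ex_lin]
    have h4 : |2 * p - 1| = 1 - 2 * p := by
      rw [abs_of_nonpos (by linarith)]; ring
    rw [h4]
    have h5 : 1 / 4 * p ≤ Ex (fun x : ι → ℤˣ => max (lin w x) 0) * p :=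
      mul_le_mul_of_nonneg_right hpp hp0
    linarith
  · obtain ⟨p, hp⟩ : ∃ p, p = Ex (fun u : ι → ℤˣ => if - lin w u < t then (1:ℝ) else 0) :=
      ⟨_, rfl⟩
    have hp' : Ex (fun u : ι → ℤˣ => if lin w u < t then (1:ℝ) else 0) = p := by
      rw [hp]
      exact (Ex_negX_hsa w (fun y => if y < t then (1:ℝ) else 0)).symm
    have hp0 : 0 ≤ p := by
      rw [hp]
      exact Ex_nonneg fun u => by split_ifs <;> norm_num
    have hp2 : p ≤ 1 / 2 := by
      have h2 : Ex (fun u : ι → ℤˣ => (if lin w u < t then (1:ℝ) else 0) +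
          (if - lin w u < t then (1:ℝ) else 0)) ≤ Ex (fun _ : ι → ℤˣ => (1:ℝ)) := by
        apply Ex_mono
        intro u
        split_ifs with h3 h4
        · exfalso; linarith
        all_goals norm_num
      rw [Ex_add, Ex_const, hp', ← hp] at h2
      linarith
    have e1 : ∀ u : ι → ℤˣ, sv (sgn (lin w u - t)) =
        1 - 2 * (if lin w u < t then (1:ℝ) else 0) := by
      intro u
      rw [hF]
      by_cases h : lin w u < t
      · rw [if_pos h, if_neg (not_le.2 h)]; norm_num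
      · rw [if_neg h, if_pos (not_lt.1 h)]; norm_num
    have e2 : Ex (fun u : ι → ℤˣ => sv (sgn (lin w u - t))) = 1 - 2 * p := by
      rw [Ex_congr e1, Ex_sub, Ex_const_mul, Ex_const, hp']
    have e3 : ∀ u : ι → ℤˣ, sv (sgn (lin w u - t)) * lin w u =
        lin w u - 2 * (lin w u * (if lin w u < t then (1:ℝ) else 0)) := by
      intro u
      rw [e1]
      ring
    have e4 : Ex (fun u : ι → ℤˣ => lin w u * (if lin w u < t then (1:ℝ) else 0)) =
        - Ex (fun u : ι → ℤˣ => max (lin w u) 0 * (if - lin w u < t then (1:ℝ) else 0)) := by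
      rw [← Ex_neg, ← Ex_negX_hsa w (fun y => y * (if y < t then (1:ℝ) else 0))]
      apply Ex_congr
      intro u
      split_ifs with h
      · rw [max_eq_left (by linarith)]; ring
      · ring
    have h3 := cheb_hsa (fun u : ι → ℤˣ => max (lin w u) 0)
      (fun u => if - lin w u < t then (1:ℝ) else 0) (by
        intro x y
        split_ifs with h1 h2 h2
        · simp
        · have : max (lin w y) 0 ≤ max (lin w x) 0 := max_le_max (by linarith) le_rfl
          nlinarith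
        · have : max (lin w x) 0 ≤ max (lin w y) 0 := max_le_max (by linarith) le_rfl
          nlinarith
        · simp)
    rw [← hp] at h3
    rw [e2, Ex_congr e3, Ex_sub, Ex_const_mul, Ex_lin, e4]
    have h4 : |1 - 2 * p| = 1 - 2 * p := abs_of_nonneg (by linarith)
    rw [h4]
    have h5 : 1 / 4 * p ≤ Ex (fun x : ι → ℤˣ => max (lin w x) 0) * p :=
      mul_le_mul_of_nonneg_right hpp hp0
    linarith

end Pool.Agent.Helper497.HS
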