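import Pool.Agent.Helper497.HS.Transfer
import Pool.Agent.Helper497.HS.Blocks

set_option autoImplicit false

namespace Pool.Agent.Helper497.HS


section
variable {ι : Type} [Fintype ι] [DecidableEq ι]


variable {κ : Type} [Fintype κ] [DecidableEq κ] [Nonempty κ]






end

theorem Ex_svsv_7632 (n : ℕ) (i j : Fin n) :
    Ex (fun x : Fin n → ℤˣ => sv (x i) * sv (x j)) = if i = j then 1 else 0 := by
  split_ifs with h
  · subst h
    simp only [sv_mul_self]
    exact Ex_const 1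
  · have h1 := Ex_equiv (Equiv.mulRight (Pi.mulSingle i (-1 : ℤˣ)))
      (fun x : Fin n → ℤˣ => sv (x i) * sv (x j))
    have h2 : Ex (fun x : Fin n → ℤˣ => - (sv (x i) * sv (x j)))
        = Ex (fun x : Fin n → ℤˣ => sv (x i) * sv (x j)) := by
      rw [← h1]
      apply Ex_congr
      intro x
      have e1 : (Equiv.mulRight (Pi.mulSingle i (-1 : ℤˣ)) x) i = - x i := by
        simp
      have e2 : (Equiv.mulRight (Pi.mulSingle i (-1 : ℤˣ)) x) j = x j := by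
        simp [Pi.mulSingle_eq_of_ne (Ne.symm h)]
      rw [e1, e2, sv_neg]
      ring
    rw [Ex_neg] at h2
    linarith

theorem bessel_7632 (n : ℕ) (f : (Fin n → ℤˣ) → ℤˣ) :
    ∑ i, (Ex (fun x => sv (f x) * sv (x i))) ^ 2 ≤ 1 := by
  set a : Fin n → ℝ := fun i => Ex (fun x => sv (f x) * sv (x i)) with ha
  have h0 : 0 ≤ Ex (fun x => (sv (f x) - ∑ i, a i * sv (x i)) ^ 2) :=
    Ex_nonneg (fun x => sq_nonneg _)
  have h1 : Ex (fun x => (sv (f x) - ∑ i, a i * sv (x i)) ^ 2) = 1 - ∑ i, a i ^ 2 := by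
    have e : ∀ x : Fin n → ℤˣ, (sv (f x) - ∑ i, a i * sv (x i)) ^ 2
        = (1 - ∑ i, (2 * a i) * (sv (f x) * sv (x i)))
          + ∑ i, ∑ j, (a i * a j) * (sv (x i) * sv (x j)) := by
      intro x
      have e1 : (∑ i, a i * sv (x i)) ^ 2 = ∑ i, ∑ j, (a i * a j) * (sv (x i) * sv (x j)) := by
        rw [sq, Finset.sum_mul_sum]
        refine Finset.sum_congr rfl (fun i _ => Finset.sum_congr rfl (fun j _ => ?_))
        ring
      have e2 : ∑ i, (2 * a i) * (sv (f x) * sv (x i)) = 2 * sv (f x) * ∑ i, a i * sv (x i) := by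
        rw [Finset.mul_sum]
        refine Finset.sum_congr rfl (fun i _ => ?_)
        ring
      rw [← e1, e2, sub_sq, sv_sq]
    rw [Ex_congr e, Ex_add, Ex_sub, Ex_const, Ex_sum, Ex_sum]
    have e3 : ∀ i : Fin n, Ex (fun x => (2 * a i) * (sv (f x) * sv (x i))) = 2 * a i ^ 2 := by
      intro i
      rw [Ex_const_mul]
      simp only [ha]; ring
    have e4 : ∀ i : Fin n, Ex (fun x : Fin n → ℤˣ => ∑ j, (a i * a j) * (sv (x i) * sv (x j)))
        = a i ^ 2 := by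
      intro i
      rw [Ex_sum]
      have : ∀ j : Fin n, Ex (fun x : Fin n → ℤˣ => (a i * a j) * (sv (x i) * sv (x j)))
          = if i = j then a i * a j else 0 := by
        intro j
        rw [Ex_const_mul, Ex_svsv_7632]
        split_ifs <;> simp
      simp only [this]
      rw [Finset.sum_ite_eq]
      simp [sq]
    simp only [e3, e4]
    rw [← Finset.mul_sum]
    ring
  rw [h1] at h0
  linarith

theorem Ex_snd_7632 {A B : Type} [Fintype A] [Fintype B] [Nonempty A] (g : B → ℝ) :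
    Ex (fun p : A × B => g p.2) = Ex g := by
  rw [Ex_prod]
  simp only
  exact Ex_const _

theorem exists_lt_7632 {Ω : Type} [Fintype Ω] [Nonempty Ω] (N : Fin 6 → Ω → ℝ) (m : Fin 6 → ℝ)
    (h0 : ∀ t ω, 0 ≤ N t ω) (hm : ∀ t, Ex (N t) ≤ m t) (hs : ∑ t, m t < 1) :
    ∃ ω, ∀ t, N t ω < 1 := by
  have h1 : Ex (fun ω => ∑ t, N t ω) ≤ ∑ t, m t := by
    rw [Ex_sum]
    exact Finset.sum_le_sum (fun t _ => hm t)
  obtain ⟨ω, hω⟩ := exists_le_of_Ex_le h1
  refine ⟨ω, fun t => ?_⟩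
  have : N t ω ≤ ∑ t, N t ω := Finset.single_le_sum (f := fun t => N t ω) (fun s _ => h0 s ω)
    (Finset.mem_univ t)
  linarith

open scoped Classical in
theorem sampling_aux_7632 (δ : ℝ) (hδ : 0 < δ) (hδ1 : δ ≤ 1) : ∃ (M : ℕ) (δ₀ : ℝ), 0 < M ∧ 0 < δ₀ ∧
    ∀ (n : ℕ) (f : (Fin n → ℤˣ) → ℤˣ),
      Ex (fun zc : (Fin n → ℤˣ) × (Fin n → Fin M) =>
        if IsLTF (fun u => f (samp zc.1 zc.2 u)) then (0:ℝ) else 1) < δ₀ →
      ∃ (J : Finset (Fin n)) (z : Fin n → ℤˣ) (c : Fin n → Fin M),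
        IsLTF (fun u => f (samp z c u)) ∧ Set.InjOn c (J : Set (Fin n)) ∧
        (∀ i ∉ J, |Ex (fun x => sv (f x) * sv (x i))| ≤ δ) ∧
        (∀ b : Fin n → ℤˣ,
          2 ^ J.card * |Ex (fun u => if ∀ i ∈ J, samp z c u i = b i then sv (f (samp z c u)) else 0)
            - Ex (fun x => if ∀ i ∈ J, x i = b i then sv (f x) else 0)| ≤ δ) ∧
        (∑ j with j ∉ J.image c, (Ex (fun u => sv (f (samp z c u)) * sv (u j))) ^ 2
          ≤ ∑ i with i ∉ J, (Ex (fun x => sv (f x) * sv (x i))) ^ 2 + δ) ∧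
        (∀ j ∉ J.image c, |Ex (fun u => sv (f (samp z c u)) * sv (u j))| ≤ δ) := by
  set τ : ℝ := δ ^ 3 / 34 with hτd
  have hτ : 0 < τ := by positivity
  set K0 : ℕ := ⌈1 / τ ^ 2⌉₊ with hK0
  set Mr : ℝ := 24 * 8 ^ K0 / δ ^ 3 + 24 * (K0 : ℝ) ^ 2 / δ + 4608 / δ ^ 3 + 1152 / δ ^ 5 with hMr
  have q1 : 0 ≤ 24 * 8 ^ K0 / δ ^ 3 := by positivity
  have q2 : 0 ≤ 24 * (K0 : ℝ) ^ 2 / δ := by positivity
  have q3 : 0 ≤ 4608 / δ ^ 3 := by positivity
  have q4 : 0 ≤ 1152 / δ ^ 5 := by positivity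
  refine ⟨⌈Mr⌉₊ + 1, δ / 24, Nat.succ_pos _, by positivity, ?_⟩
  have hMge : Mr ≤ ((⌈Mr⌉₊ + 1 : ℕ) : ℝ) := by
    push_cast
    linarith [Nat.le_ceil Mr]
  generalize hM : ⌈Mr⌉₊ + 1 = M at *
  have hMpos : 0 < M := by rw [← hM]; exact Nat.succ_pos _
  have hMr0 : (0 : ℝ) < (M : ℝ) := by exact_mod_cast hMpos
  have : Nonempty (Fin M) := ⟨⟨0, hMpos⟩⟩
  have m1 : 24 * 8 ^ K0 / δ ^ 3 ≤ M := by linarith
  have m2 : 24 * (K0 : ℝ) ^ 2 / δ ≤ M := by linarith
  have m3 : 4608 / δ ^ 3 ≤ M := by linarith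
  have m4 : 1152 / δ ^ 5 ≤ M := by linarith
  rw [div_le_iff₀ (by positivity)] at m1 m2 m3 m4
  intro n f hf
  have hbes := bessel_7632 n f
  set a : Fin n → ℝ := fun i => Ex (fun x => sv (f x) * sv (x i)) with ha
  set J : Finset (Fin n) := Finset.univ.filter (fun i => τ ≤ |a i|) with hJ
  have hJm : ∀ i, i ∈ J ↔ τ ≤ |a i| := by intro i; simp [hJ]
  set b : Fin n → ℝ := fun i => if i ∈ J then 0 else a i with hb
  have hk : (J.card : ℝ) ≤ K0 := by
    have h1 : (J.card : ℝ) * τ ^ 2 ≤ 1 := by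
      calc (J.card : ℝ) * τ ^ 2 = ∑ i ∈ J, τ ^ 2 := by rw [Finset.sum_const, nsmul_eq_mul]
        _ ≤ ∑ i ∈ J, a i ^ 2 := by
            refine Finset.sum_le_sum (fun i hi => ?_)
            rw [← sq_abs (a i)]
            have := (hJm i).1 hi
            gcongr
        _ ≤ ∑ i, a i ^ 2 := Finset.sum_le_sum_of_subset_of_nonneg (Finset.subset_univ _)
            (fun _ _ _ => sq_nonneg _)
        _ ≤ 1 := hbes
    have h2 : (J.card : ℝ) ≤ 1 / τ ^ 2 := by
      rw [le_div_iff₀ (by positivity)]; exact h1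
    exact h2.trans (Nat.le_ceil _)
  have hkN : J.card ≤ K0 := by exact_mod_cast hk
  have hσ : ∑ i with i ∉ J, a i ^ 2 = ∑ i, b i ^ 2 := by
    rw [Finset.sum_filter]
    refine Finset.sum_congr rfl (fun i _ => ?_)
    simp only [hb]
    split_ifs <;> simp_all
  set σ2 : ℝ := ∑ i, b i ^ 2 with hσ2
  have hσ0 : 0 ≤ σ2 := Finset.sum_nonneg (fun _ _ => sq_nonneg _)
  have hσ1 : σ2 ≤ 1 := by
    refine le_trans (Finset.sum_le_sum (fun i _ => ?_)) hbes
    simp only [hb]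
    split_ifs
    · rw [zero_pow two_ne_zero]; exact sq_nonneg _
    · exact le_refl _
  have hb4 : ∑ i, b i ^ 4 ≤ τ ^ 2 := by
    calc ∑ i, b i ^ 4 ≤ ∑ i, τ ^ 2 * b i ^ 2 := by
          refine Finset.sum_le_sum (fun i _ => ?_)
          have hbi : b i ^ 2 ≤ τ ^ 2 := by
            simp only [hb]
            split_ifs with h
            · rw [zero_pow two_ne_zero]; exact sq_nonneg _
            · rw [hJm] at h
              push Not at h
              rw [← sq_abs]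
              gcongr
          calc b i ^ 4 = b i ^ 2 * b i ^ 2 := by ring
            _ ≤ τ ^ 2 * b i ^ 2 := by gcongr
      _ = τ ^ 2 * σ2 := by rw [← Finset.mul_sum]
      _ ≤ τ ^ 2 * 1 := by gcongr
      _ = τ ^ 2 := mul_one _
  let g : ({i // i ∈ J} → ℤˣ) → (Fin n → ℤˣ) → ℝ := fun b' x =>
    if ∀ i : {i // i ∈ J}, x i = b' i then sv (f x) else 0
  let Fh : (Fin n → ℤˣ) × (Fin n → Fin M) → Fin M → ℝ := fun zc j =>
    Ex (fun u => sv (f (samp zc.1 zc.2 u)) * sv (u j))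
  let Bb : (Fin n → ℤˣ) × (Fin n → Fin M) → Fin M → ℝ := fun zc j =>
    ∑ i with zc.2 i = j, sv (zc.1 i) * a i
  let Bp : (Fin n → ℤˣ) × (Fin n → Fin M) → Fin M → ℝ := fun zc j =>
    ∑ i with zc.2 i = j, sv (zc.1 i) * b i
  let N : Fin 6 → (Fin n → ℤˣ) × (Fin n → Fin M) → ℝ := ![
    fun zc => if IsLTF (fun u => f (samp zc.1 zc.2 u)) then (0:ℝ) else 1,
    fun zc => if Set.InjOn zc.2 (J : Set (Fin n)) then (0:ℝ) else 1,
    fun zc => ∑ b', ((2 ^ J.card) ^ 2 / δ ^ 2) *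
      (Ex (fun u => g b' (samp zc.1 zc.2 u)) - Ex (g b')) ^ 2,
    fun zc => (64 / δ ^ 2) * ∑ j, (Fh zc j - Bb zc j) ^ 2,
    fun zc => (16 / δ ^ 4) * ∑ j, Bp zc j ^ 4,
    fun zc => (1 / (σ2 + δ / 2)) * ∑ j, Bp zc j ^ 2]
  let mm : Fin 6 → ℝ := ![δ / 24, δ / 24, δ / 24, δ / 24, δ / 24 + δ / 24, 1 - δ / 3]
  have hN0 : ∀ t ω, 0 ≤ N t ω := by
    intro t ω
    fin_cases t
    · show 0 ≤ (if IsLTF (fun u => f (samp ω.1 ω.2 u)) then (0:ℝ) else 1)
      split_ifs <;> norm_num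
    · show 0 ≤ (if Set.InjOn ω.2 (J : Set (Fin n)) then (0:ℝ) else 1)
      split_ifs <;> norm_num
    · exact Finset.sum_nonneg (fun _ _ => by positivity)
    · exact mul_nonneg (by positivity) (Finset.sum_nonneg (fun _ _ => by positivity))
    · exact mul_nonneg (by positivity) (Finset.sum_nonneg (fun _ _ => by positivity))
    · exact mul_nonneg (by positivity) (Finset.sum_nonneg (fun _ _ => by positivity))
  have hδ2 : δ ^ 2 ≤ δ := pow_le_of_le_one hδ.le hδ1 two_ne_zero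
  have hδσ : δ * σ2 ≤ δ := mul_le_of_le_one_right hδ.le hσ1
  have hcardM : (Fintype.card (Fin M) : ℝ) = M := by simp
  have hNm : ∀ t, Ex (N t) ≤ mm t := by
    intro t
    fin_cases t
    · exact hf.le
    · show Ex (fun zc : (Fin n → ℤˣ) × (Fin n → Fin M) =>
        if Set.InjOn zc.2 (J : Set (Fin n)) then (0:ℝ) else 1) ≤ δ / 24
      rw [Ex_snd_7632 (fun c : Fin n → Fin M => if Set.InjOn c (J : Set (Fin n)) then (0:ℝ) else 1)]
      refine (inj_fail (κ := Fin M) J).trans ?_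
      rw [hcardM, div_le_iff₀ hMr0]
      have : (J.card : ℝ) ^ 2 ≤ (K0 : ℝ) ^ 2 := by gcongr
      linarith
    · show Ex (fun zc : (Fin n → ℤˣ) × (Fin n → Fin M) => ∑ b', ((2 ^ J.card) ^ 2 / δ ^ 2) *
        (Ex (fun u => g b' (samp zc.1 zc.2 u)) - Ex (g b')) ^ 2) ≤ δ / 24
      rw [Ex_sum]
      have h1 : ∀ b', Ex (fun zc : (Fin n → ℤˣ) × (Fin n → Fin M) => ((2 ^ J.card) ^ 2 / δ ^ 2) *
        (Ex (fun u => g b' (samp zc.1 zc.2 u)) - Ex (g b')) ^ 2)
          ≤ ((2 ^ J.card) ^ 2 / δ ^ 2) * (1 / M) := by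
        intro b'
        rw [Ex_const_mul]
        refine mul_le_mul_of_nonneg_left ?_ (by positivity)
        refine (transfer_zero (κ := Fin M) (g b')).trans ?_
        rw [hcardM]
        have : Ex (fun x => g b' x ^ 2) ≤ 1 := by
          calc Ex (fun x => g b' x ^ 2) ≤ Ex (fun _ : Fin n → ℤˣ => (1 : ℝ)) := by
                refine Ex_mono (fun x => ?_)
                simp only [g]
                split_ifs
                · rw [sv_sq]
                · norm_num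
            _ = 1 := Ex_const 1
        gcongr
      refine (Finset.sum_le_sum (fun b' _ => h1 b')).trans ?_
      rw [Finset.sum_const, nsmul_eq_mul, Finset.card_univ]
      have hc : (Fintype.card ({i // i ∈ J} → ℤˣ) : ℝ) = 2 ^ J.card := by
        rw [Fintype.card_fun, Fintype.card_coe]
        have : Fintype.card ℤˣ = 2 := rfl
        rw [this]; norm_num
      rw [hc]
      have h8 : (2 : ℝ) ^ J.card * (2 ^ J.card) ^ 2 = 8 ^ J.card := by
        rw [← pow_succ', ← pow_mul, mul_comm, pow_mul]; norm_num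
      have h8' : (8 : ℝ) ^ J.card ≤ 8 ^ K0 := pow_le_pow_right₀ (by norm_num) hkN
      calc (2 : ℝ) ^ J.card * (((2 ^ J.card) ^ 2 / δ ^ 2) * (1 / M))
          = (2 ^ J.card * (2 ^ J.card) ^ 2) / (δ ^ 2 * M) := by ring
        _ = 8 ^ J.card / (δ ^ 2 * M) := by rw [h8]
        _ ≤ 8 ^ K0 / (δ ^ 2 * M) := by gcongr
        _ ≤ δ / 24 := by
            rw [div_le_iff₀ (by positivity)]
            linarith
    · show Ex (fun zc : (Fin n → ℤˣ) × (Fin n → Fin M) =>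
        (64 / δ ^ 2) * ∑ j, (Fh zc j - Bb zc j) ^ 2) ≤ δ / 24
      rw [Ex_const_mul]
      have h1 : Ex (fun zc : (Fin n → ℤˣ) × (Fin n → Fin M) => ∑ j, (Fh zc j - Bb zc j) ^ 2)
          ≤ 3 * 1 / M := by
        have h2 := transfer_one (κ := Fin M) (fun x : Fin n → ℤˣ => sv (f x))
        simp only [sv_sq] at h2
        rw [Ex_const, hcardM] at h2
        exact h2
      calc (64 / δ ^ 2) * Ex (fun zc : (Fin n → ℤˣ) × (Fin n → Fin M) => ∑ j, (Fh zc j - Bb zc j) ^ 2)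
          ≤ (64 / δ ^ 2) * (3 * 1 / M) := by gcongr
        _ = 192 / (δ ^ 2 * M) := by field_simp; norm_num
        _ ≤ δ / 24 := by
            rw [div_le_iff₀ (by positivity)]
            linarith
    · show Ex (fun zc : (Fin n → ℤˣ) × (Fin n → Fin M) => (16 / δ ^ 4) * ∑ j, Bp zc j ^ 4)
        ≤ δ / 24 + δ / 24
      rw [Ex_const_mul]
      have h1 : Ex (fun zc : (Fin n → ℤˣ) × (Fin n → Fin M) => ∑ j, Bp zc j ^ 4)
          ≤ 3 * (τ ^ 2 + 1 / M) := by
        refine (block_four (κ := Fin M) b).trans ?_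
        rw [hcardM]
        have : (∑ i, b i ^ 2) ^ 2 ≤ 1 := by
          have : σ2 ^ 2 ≤ 1 ^ 2 := by gcongr
          simpa using this
        gcongr
      have h2 : 16 / δ ^ 4 * (3 * τ ^ 2) ≤ δ / 24 := by
        rw [hτd]
        have : 16 / δ ^ 4 * (3 * (δ ^ 3 / 34) ^ 2) = 48 / 1156 * δ ^ 2 := by
          field_simp
          norm_num
        rw [this]
        linarith
      have h3 : 16 / δ ^ 4 * (3 * (1 / M)) ≤ δ / 24 := by
        have : 16 / δ ^ 4 * (3 * (1 / (M : ℝ))) = 48 / (δ ^ 4 * M) := by field_simp; norm_num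
        rw [this, div_le_iff₀ (by positivity)]
        linarith
      calc (16 / δ ^ 4) * Ex (fun zc : (Fin n → ℤˣ) × (Fin n → Fin M) => ∑ j, Bp zc j ^ 4)
          ≤ (16 / δ ^ 4) * (3 * (τ ^ 2 + 1 / M)) := by gcongr
        _ = 16 / δ ^ 4 * (3 * τ ^ 2) + 16 / δ ^ 4 * (3 * (1 / M)) := by ring
        _ ≤ δ / 24 + δ / 24 := add_le_add h2 h3
    · show Ex (fun zc : (Fin n → ℤˣ) × (Fin n → Fin M) => (1 / (σ2 + δ / 2)) * ∑ j, Bp zc j ^ 2)
        ≤ 1 - δ / 3
      rw [Ex_const_mul]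
      have h1 : Ex (fun zc : (Fin n → ℤˣ) × (Fin n → Fin M) => ∑ j, Bp zc j ^ 2) = σ2 :=
        block_sq (κ := Fin M) b
      rw [h1, one_div, inv_mul_eq_div, div_le_iff₀ (by positivity)]
      linarith
  have hs : ∑ t, mm t < 1 := by
    simp only [mm, Fin.sum_univ_succ, Fin.sum_univ_zero]
    simp
    linarith
  obtain ⟨⟨z, c⟩, hzc⟩ := exists_lt_7632 N mm hN0 hNm hs
  have hn1 : (if IsLTF (fun u => f (samp z c u)) then (0:ℝ) else 1) < 1 := hzc 0
  have hn2 : (if Set.InjOn c (J : Set (Fin n)) then (0:ℝ) else 1) < 1 := hzc 1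
  have hn3 : ∑ b', ((2 ^ J.card) ^ 2 / δ ^ 2) *
      (Ex (fun u => g b' (samp z c u)) - Ex (g b')) ^ 2 < 1 := hzc 2
  have hn4 : (64 / δ ^ 2) * ∑ j, (Fh (z, c) j - Bb (z, c) j) ^ 2 < 1 := hzc 3
  have hn5 : (16 / δ ^ 4) * ∑ j, Bp (z, c) j ^ 4 < 1 := hzc 4
  have hn6 : (1 / (σ2 + δ / 2)) * ∑ j, Bp (z, c) j ^ 2 < 1 := hzc 5
  have hE : ∑ j, (Fh (z, c) j - Bb (z, c) j) ^ 2 < (δ / 8) ^ 2 := by
    rw [div_mul_eq_mul_div, div_lt_iff₀ (by positivity)] at hn4
    linarith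
  have hS : ∑ j, Bp (z, c) j ^ 2 < σ2 + δ / 2 := by
    rw [one_div, inv_mul_eq_div, div_lt_iff₀ (by positivity)] at hn6
    linarith
  have hB5 : ∀ j, |Bp (z, c) j| < δ / 2 := by
    intro j
    have h1 : Bp (z, c) j ^ 4 ≤ ∑ j, Bp (z, c) j ^ 4 :=
      Finset.single_le_sum (f := fun j => Bp (z, c) j ^ 4) (fun _ _ => by positivity)
        (Finset.mem_univ j)
    rw [div_mul_eq_mul_div, div_lt_iff₀ (by positivity)] at hn5
    have h2 : |Bp (z, c) j| ^ 4 < (δ / 2) ^ 4 := by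
      rw [← abs_pow, abs_of_nonneg (by positivity)]
      have : (δ / 2) ^ 4 = δ ^ 4 / 16 := by ring
      rw [this]
      linarith
    exact lt_of_pow_lt_pow_left₀ 4 (by positivity) h2
  have hEj : ∀ j, |Fh (z, c) j - Bb (z, c) j| < δ / 8 := by
    intro j
    have h1 : (Fh (z, c) j - Bb (z, c) j) ^ 2 ≤ ∑ j, (Fh (z, c) j - Bb (z, c) j) ^ 2 :=
      Finset.single_le_sum (f := fun j => (Fh (z, c) j - Bb (z, c) j) ^ 2) (fun _ _ => by positivity)
        (Finset.mem_univ j)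
    exact abs_lt_of_sq_lt_sq (lt_of_le_of_lt h1 hE) (by positivity)
  have hBB : ∀ j ∉ J.image c, Bb (z, c) j = Bp (z, c) j := by
    intro j hj
    refine Finset.sum_congr rfl (fun i hi => ?_)
    have hij : c i = j := by simpa using hi
    have hiJ : i ∉ J := by
      intro h
      exact hj (Finset.mem_image.2 ⟨i, h, hij⟩)
    simp only [hb, if_neg hiJ]
  refine ⟨J, z, c, ?_, ?_, ?_, ?_, ?_, ?_⟩
  · by_contra h
    rw [if_neg h] at hn1
    exact lt_irrefl _ hn1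
  · by_contra h
    rw [if_neg h] at hn2
    exact lt_irrefl _ hn2
  · intro i hi
    rw [hJm] at hi
    push Not at hi
    have hτδ : τ ≤ δ := by
      rw [hτd]
      have : δ ^ 3 ≤ δ := pow_le_of_le_one hδ.le hδ1 three_ne_zero
      linarith
    exact hi.le.trans hτδ
  · intro bb
    let b' : {i // i ∈ J} → ℤˣ := fun i => bb i
    have hg : ∀ x : Fin n → ℤˣ, g b' x = if ∀ i ∈ J, x i = bb i then sv (f x) else 0 := by
      intro x
      simp only [g, b', Subtype.forall]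
    have h1 : ((2 ^ J.card) ^ 2 / δ ^ 2) * (Ex (fun u => g b' (samp z c u)) - Ex (g b')) ^ 2 < 1 :=
      lt_of_le_of_lt (Finset.single_le_sum (f := fun b' => ((2 ^ J.card) ^ 2 / δ ^ 2) *
        (Ex (fun u => g b' (samp z c u)) - Ex (g b')) ^ 2) (fun _ _ => by positivity)
        (Finset.mem_univ b')) hn3
    have h2 : Ex (g b') = Ex (fun x => if ∀ i ∈ J, x i = bb i then sv (f x) else 0) := Ex_congr hg
    have h3 : Ex (fun u => g b' (samp z c u)) =
        Ex (fun u => if ∀ i ∈ J, samp z c u i = bb i then sv (f (samp z c u)) else 0) :=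
      Ex_congr (fun u => hg _)
    rw [h2, h3] at h1
    rw [div_mul_eq_mul_div, div_lt_iff₀ (by positivity), one_mul, ← mul_pow] at h1
    have h4 := (abs_lt_of_sq_lt_sq h1 hδ.le).le
    rw [abs_mul, abs_of_nonneg (by positivity : (0 : ℝ) ≤ 2 ^ J.card)] at h4
    exact h4
  · have hsub : ∑ j with j ∉ J.image c, (Ex (fun u => sv (f (samp z c u)) * sv (u j))) ^ 2
        ≤ ∑ j, (Bp (z, c) j + (Fh (z, c) j - Bb (z, c) j)) ^ 2 := by
      calc ∑ j with j ∉ J.image c, (Ex (fun u => sv (f (samp z c u)) * sv (u j))) ^ 2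
          = ∑ j with j ∉ J.image c, (Bp (z, c) j + (Fh (z, c) j - Bb (z, c) j)) ^ 2 := by
            refine Finset.sum_congr rfl (fun j hj => ?_)
            have hj' : j ∉ J.image c := (Finset.mem_filter.1 hj).2
            rw [← hBB j hj']
            congr 1
            show Fh (z, c) j = _
            ring
        _ ≤ _ := Finset.sum_le_sum_of_subset_of_nonneg (Finset.subset_univ _)
            (fun _ _ _ => sq_nonneg _)
    refine hsub.trans ?_
    rw [hσ]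
    have hpt : ∀ j, (Bp (z, c) j + (Fh (z, c) j - Bb (z, c) j)) ^ 2
        ≤ (1 + δ / 8) * Bp (z, c) j ^ 2 + (1 + 8 / δ) * (Fh (z, c) j - Bb (z, c) j) ^ 2 := by
      intro j
      generalize Bp (z, c) j = p
      generalize Fh (z, c) j - Bb (z, c) j = q
      have h1 : 2 * p * q ≤ δ / 8 * p ^ 2 + 8 / δ * q ^ 2 := by
        have h2 : 0 ≤ (δ / 8) * (p - 8 / δ * q) ^ 2 := by positivity
        have h3 : (δ / 8) * (p - 8 / δ * q) ^ 2 = δ / 8 * p ^ 2 - 2 * p * q + 8 / δ * q ^ 2 := by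
          field_simp
          ring
        linarith
      linarith
    refine (Finset.sum_le_sum (fun j _ => hpt j)).trans ?_
    rw [Finset.sum_add_distrib, ← Finset.mul_sum, ← Finset.mul_sum]
    have hS0 : 0 ≤ ∑ j, Bp (z, c) j ^ 2 := Finset.sum_nonneg (fun _ _ => sq_nonneg _)
    generalize (∑ j, Bp (z, c) j ^ 2) = Sx at *
    generalize (∑ j, (Fh (z, c) j - Bb (z, c) j) ^ 2) = Ey at *
    have t1 : (1 + 8 / δ) * Ey ≤ (1 + 8 / δ) * (δ / 8) ^ 2 := by gcongr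
    have t2 : (1 + 8 / δ) * (δ / 8) ^ 2 = δ ^ 2 / 64 + δ / 8 := by field_simp; ring
    have t3 : (1 + δ / 8) * Sx ≤ (1 + δ / 8) * (σ2 + δ / 2) := by gcongr
    linarith
  · intro j hj
    have h1 : Ex (fun u => sv (f (samp z c u)) * sv (u j))
        = Bp (z, c) j + (Fh (z, c) j - Bb (z, c) j) := by
      rw [← hBB j hj]
      show Fh (z, c) j = _
      ring
    rw [h1]
    refine (abs_add_le _ _).trans ?_
    linarith [hB5 j, hEj j]

open scoped Classical in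
theorem sampling (δ : ℝ) (hδ : 0 < δ) : ∃ (M : ℕ) (δ₀ : ℝ), 0 < M ∧ 0 < δ₀ ∧
    ∀ (n : ℕ) (f : (Fin n → ℤˣ) → ℤˣ),
      Ex (fun zc : (Fin n → ℤˣ) × (Fin n → Fin M) =>
        if IsLTF (fun u => f (samp zc.1 zc.2 u)) then (0:ℝ) else 1) < δ₀ →
      ∃ (J : Finset (Fin n)) (z : Fin n → ℤˣ) (c : Fin n → Fin M),
        IsLTF (fun u => f (samp z c u)) ∧ Set.InjOn c (J : Set (Fin n)) ∧
        (∀ i ∉ J, |Ex (fun x => sv (f x) * sv (x i))| ≤ δ) ∧
        (∀ b : Fin n → ℤˣ,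
          2 ^ J.card * |Ex (fun u => if ∀ i ∈ J, samp z c u i = b i then sv (f (samp z c u)) else 0)
            - Ex (fun x => if ∀ i ∈ J, x i = b i then sv (f x) else 0)| ≤ δ) ∧
        (∑ j with j ∉ J.image c, (Ex (fun u => sv (f (samp z c u)) * sv (u j))) ^ 2
          ≤ ∑ i with i ∉ J, (Ex (fun x => sv (f x) * sv (x i))) ^ 2 + δ) ∧
        (∀ j ∉ J.image c, |Ex (fun u => sv (f (samp z c u)) * sv (u j))| ≤ δ) := by
  obtain ⟨M, δ₀, hM, hδ₀, H⟩ := sampling_aux_7632 (min δ 1) (lt_min hδ one_pos) (min_le_right _ _)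
  refine ⟨M, δ₀, hM, hδ₀, fun n f hf => ?_⟩
  obtain ⟨J, z, c, h1, h2, h3, h4, h5, h6⟩ := H n f hf
  have hle : min δ 1 ≤ δ := min_le_left _ _
  refine ⟨J, z, c, h1, h2, fun i hi => (h3 i hi).trans hle, fun b => (h4 b).trans hle,
    h5.trans (by linarith), fun j hj => (h6 j hj).trans hle⟩



end Pool.Agent.Helper497.HS
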