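import Pool.Agent.Helper497.HS.Moments
import Pool.Agent.Helper497.HS.Fourier

set_option autoImplicit false

namespace Pool.Agent.Helper497.HS


variable {ι : Type} [Fintype ι] [DecidableEq ι]









variable {κ : Type} [Fintype κ] [DecidableEq κ] [Nonempty κ]


noncomputable def rhoT_hF (v : κ → ℤˣ) : ℝ := lin (fun _ => 1 / (Fintype.card κ : ℝ)) v

lemma cardT_pos_hF : (0:ℝ) < (Fintype.card κ : ℝ) := by exact_mod_cast Fintype.card_pos

lemma rhoT_eq_hF (v : κ → ℤˣ) : rhoT_hF v = (∑ j, sv (v j)) / (Fintype.card κ : ℝ) := by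
  unfold rhoT_hF lin
  rw [← Finset.mul_sum]; ring

lemma abs_rhoT_le_hF (v : κ → ℤˣ) : |rhoT_hF v| ≤ 1 := by
  rw [rhoT_eq_hF, abs_div, abs_of_pos (cardT_pos_hF (κ := κ)), div_le_one cardT_pos_hF]
  calc |∑ j, sv (v j)| ≤ ∑ j, |sv (v j)| := Finset.abs_sum_le_sum_abs _ _
    _ = Fintype.card κ := by simp

lemma Ex_rhoT_hF : Ex (fun v : κ → ℤˣ => rhoT_hF v) = 0 := Ex_lin _

lemma Ex_rhoT_sq_hF : Ex (fun v : κ → ℤˣ => rhoT_hF v ^ 2) = 1 / (Fintype.card κ : ℝ) := by
  unfold rhoT_hF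
  rw [Ex_lin_sq]
  have := (cardT_pos_hF (κ := κ)).ne'
  simp only [Finset.sum_const, Finset.card_univ, nsmul_eq_mul]
  field_simp

lemma Ex_rhoT_four_hF : Ex (fun v : κ → ℤˣ => rhoT_hF v ^ 4) ≤ 3 / (Fintype.card κ : ℝ) ^ 2 := by
  unfold rhoT_hF
  refine (Ex_lin_four _).trans (le_of_eq ?_)
  have := (cardT_pos_hF (κ := κ)).ne'
  simp only [Finset.sum_const, Finset.card_univ, nsmul_eq_mul]
  field_simp

lemma rhoT_neg_hF (v : κ → ℤˣ) : rhoT_hF (-v) = - rhoT_hF v := by
  rw [rhoT_eq_hF, rhoT_eq_hF]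
  simp [neg_div]

lemma Ex_rhoT_three_hF : Ex (fun v : κ → ℤˣ => rhoT_hF v ^ 3) = 0 := by
  have h := Ex_equiv (Equiv.neg (κ → ℤˣ)) (fun v => rhoT_hF v ^ 3)
  have h2 : (fun v : κ → ℤˣ => rhoT_hF (Equiv.neg (κ → ℤˣ) v) ^ 3) = fun v => - (rhoT_hF v ^ 3) := by
    funext v
    simp only [Equiv.neg_apply, rhoT_neg_hF]
    ring
  rw [h2, Ex_neg] at h
  linarith

lemma Ex_chi_comp_hF (S : Finset ι) (v : κ → ℤˣ) :
    Ex (fun c : ι → κ => chi S (fun i => v (c i))) = rhoT_hF v ^ S.card := by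
  have h1 : ∀ c : ι → κ, chi S (fun i => v (c i)) = ∏ i, (if i ∈ S then sv (v (c i)) else 1) := by
    intro c
    unfold chi
    rw [Finset.prod_ite_mem, Finset.univ_inter]
  unfold Ex
  simp only [h1]
  have h2 := Finset.prod_univ_sum (fun _ : ι => (Finset.univ : Finset κ))
    (fun i j => if i ∈ S then sv (v j) else (1:ℝ))
  rw [Fintype.piFinset_univ] at h2
  rw [← h2, Fintype.card_fun]
  push_cast
  have hM := (cardT_pos_hF (κ := κ)).ne'
  have h3 : ((Fintype.card κ : ℝ)) ^ Fintype.card ι = ∏ _i : ι, (Fintype.card κ : ℝ) := by simp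
  rw [h3, ← Finset.prod_div_distrib]
  have h4 : ∀ i : ι, (∑ j : κ, (if i ∈ S then sv (v j) else (1:ℝ))) / (Fintype.card κ : ℝ)
      = if i ∈ S then rhoT_hF v else 1 := by
    intro i
    split_ifs with hi
    · rw [rhoT_eq_hF]
    · simp [hM]
  simp only [h4]
  rw [Finset.prod_ite_mem, Finset.univ_inter, Finset.prod_const]

lemma Ex_pair_hF (g : (ι → ℤˣ) → ℝ) (u u' : κ → ℤˣ) :
    Ex (fun zc : (ι → ℤˣ) × (ι → κ) => g (samp zc.1 zc.2 u) * g (samp zc.1 zc.2 u'))
      = ∑ S, fc g S ^ 2 * rhoT_hF (u * u') ^ S.card := by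
  rw [Ex_prod, Ex_comm]
  have h1 : ∀ c : ι → κ, Ex (fun z : ι → ℤˣ => g (samp z c u) * g (samp z c u'))
      = ∑ S, fc g S ^ 2 * chi S (fun i => (u * u') (c i)) := by
    intro c
    rw [← corr_expand g (fun i => (u * u') (c i))]
    rw [← Ex_equiv (Equiv.mulRight (fun i => u (c i)))
      (fun x : ι → ℤˣ => g x * g (fun i => x i * (u * u') (c i)))]
    apply Ex_congr
    intro z
    have e1 : (Equiv.mulRight (fun i => u (c i))) z = samp z c u := by
      funext i; simp [samp]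
    have e2 : (fun i => (Equiv.mulRight (fun i => u (c i))) z i * (u * u') (c i)) = samp z c u' := by
      funext i
      simp only [samp, Equiv.coe_mulRight, Pi.mul_apply]
      rw [mul_assoc, ← mul_assoc (u (c i)) (u (c i)) (u' (c i)), Int.units_mul_self, one_mul]
    rw [e1] at e2
    simp only [e1, e2]
  simp only [h1]
  rw [Ex_sum]
  apply Finset.sum_congr rfl
  intro S _
  rw [Ex_const_mul, Ex_chi_comp_hF]

lemma Ex_conv_hF (H : (κ → ℤˣ) → ℝ) :
    Ex (fun u : κ → ℤˣ => Ex (fun u' : κ → ℤˣ => H (u * u'))) = Ex H := by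
  have h : ∀ u : κ → ℤˣ, Ex (fun u' : κ → ℤˣ => H (u * u')) = Ex H := by
    intro u
    exact Ex_equiv (Equiv.mulLeft u) H
  simp only [h]
  exact Ex_const _

lemma Ex_sq_expand_hF {Ω : Type} [Fintype Ω] (f : Ω → ℝ) :
    (Ex f) ^ 2 = Ex (fun a => Ex (fun b => f a * f b)) := by
  simp only [Ex_const_mul, Ex_mul_const, sq]

lemma second_moment_hF (g : (ι → ℤˣ) → ℝ) (φ : (κ → ℤˣ) → ℝ) :
    Ex (fun zc : (ι → ℤˣ) × (ι → κ) => (Ex (fun u => g (samp zc.1 zc.2 u) * φ u)) ^ 2)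
      = Ex (fun u => Ex (fun u' => (φ u * φ u') * ∑ S, fc g S ^ 2 * rhoT_hF (u * u') ^ S.card)) := by
  simp only [Ex_sq_expand_hF]
  rw [Ex_comm]
  apply Ex_congr
  intro u
  rw [Ex_comm]
  apply Ex_congr
  intro u'
  rw [← Ex_pair_hF, ← Ex_const_mul]
  apply Ex_congr
  intro zc
  ring

lemma Ex_two_hF (a b : ι) :
    Ex (fun x : ι → ℤˣ => sv (x a) * sv (x b)) = if a = b then 1 else 0 := by
  split_ifs with h
  · subst h
    simp only [sv_mul_self]
    exact Ex_const _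
  · have h1 := Ex_lin_sq (ι := ι) (fun i => (if i = a then 1 else 0) + (if i = b then 1 else 0))
    have h2 : ∀ x : ι → ℤˣ, lin (fun i => (if i = a then (1:ℝ) else 0) + (if i = b then 1 else 0)) x
        = sv (x a) + sv (x b) := by
      intro x
      unfold lin
      simp [add_mul, Finset.sum_add_distrib]
    simp only [h2] at h1
    have h3 : (∑ i, ((if i = a then (1:ℝ) else 0) + (if i = b then 1 else 0)) ^ 2) = 2 := by
      have : ∀ i, ((if i = a then (1:ℝ) else 0) + (if i = b then 1 else 0)) ^ 2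
          = (if i = a then (1:ℝ) else 0) + (if i = b then 1 else 0) := by
        intro i
        by_cases h1 : i = a
        · subst h1; simp [h]
        · by_cases h2 : i = b
          · subst h2; simp [Ne.symm h]
          · simp [h1, h2]
      simp only [this]
      rw [Finset.sum_add_distrib]
      simp; norm_num
    rw [h3] at h1
    have h4 : ∀ x : ι → ℤˣ, (sv (x a) + sv (x b)) ^ 2 = 2 + 2 * (sv (x a) * sv (x b)) := by
      intro x
      have e1 := sv_sq (x a)
      have e2 := sv_sq (x b)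
      nlinarith
    simp only [h4] at h1
    rw [Ex_add, Ex_const, Ex_const_mul] at h1
    linarith

lemma pow_le_sq_T_hF {t : ℝ} (ht : |t| ≤ 1) {n m : ℕ} (h : m ≤ n) (hm : Even m) : t ^ n ≤ t ^ m := by
  calc t ^ n ≤ |t ^ n| := le_abs_self _
    _ = |t| ^ n := abs_pow _ _
    _ ≤ |t| ^ m := pow_le_pow_of_le_one (abs_nonneg _) ht h
    _ = t ^ m := by rw [hm.pow_abs]

theorem transfer_zero (g : (ι → ℤˣ) → ℝ) :
    Ex (fun zc : (ι → ℤˣ) × (ι → κ) => (Ex (fun u => g (samp zc.1 zc.2 u)) - Ex g) ^ 2)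
      ≤ Ex (fun x => g x ^ 2) / Fintype.card κ := by
  have hM := cardT_pos_hF (κ := κ)
  set m : ℝ := Ex g with hm
  set G : (ι → ℤˣ) → ℝ := fun x => g x - m with hG
  have h1 : ∀ zc : (ι → ℤˣ) × (ι → κ), (Ex (fun u => g (samp zc.1 zc.2 u)) - m) ^ 2
      = (Ex (fun u => G (samp zc.1 zc.2 u) * (fun _ : κ → ℤˣ => (1:ℝ)) u)) ^ 2 := by
    intro zc
    simp only [hG, mul_one]
    rw [Ex_sub, Ex_const]
  simp only [h1]
  rw [second_moment_hF]
  simp only [one_mul]
  rw [Ex_conv_hF (fun v : κ → ℤˣ => ∑ S, fc G S ^ 2 * rhoT_hF v ^ S.card), Ex_sum]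
  have h2 : ∀ S : Finset ι, Ex (fun v : κ → ℤˣ => fc G S ^ 2 * rhoT_hF v ^ S.card)
      ≤ fc G S ^ 2 * (1 / (Fintype.card κ : ℝ)) := by
    intro S
    rw [Ex_const_mul]
    rcases Nat.lt_or_ge S.card 1 with h | h
    · have hS : S = ∅ := Finset.card_eq_zero.mp (by omega)
      have : fc G S = 0 := by
        subst hS
        unfold fc chi
        simp only [Finset.prod_empty, mul_one, hG]
        rw [Ex_sub, Ex_const]
        simp [hm]
      rw [this]; simp
    · apply mul_le_mul_of_nonneg_left _ (sq_nonneg _)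
      rcases Nat.lt_or_ge S.card 2 with h' | h'
      · have : S.card = 1 := by omega
        rw [this]
        simp only [pow_one]
        rw [Ex_rhoT_hF]
        positivity
      · rw [← Ex_rhoT_sq_hF (κ := κ)]
        apply Ex_mono
        intro v
        exact pow_le_sq_T_hF (abs_rhoT_le_hF v) h' (by decide)
  refine (Finset.sum_le_sum fun S _ => h2 S).trans ?_
  rw [← Finset.sum_mul, ← parseval]
  have h3 : Ex (fun x => G x ^ 2) ≤ Ex (fun x => g x ^ 2) := by
    have : ∀ x, G x ^ 2 = g x ^ 2 - 2 * m * g x + m ^ 2 := by intro x; simp only [hG]; ring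
    simp only [this]
    rw [Ex_add, Ex_sub, Ex_const_mul, Ex_const, ← hm]
    nlinarith [sq_nonneg m]
  rw [mul_one_div]
  gcongr

theorem transfer_one (g : (ι → ℤˣ) → ℝ) :
    Ex (fun zc : (ι → ℤˣ) × (ι → κ) => ∑ j : κ,
      (Ex (fun u => g (samp zc.1 zc.2 u) * sv (u j))
        - ∑ i with zc.2 i = j, sv (zc.1 i) * Ex (fun x => g x * sv (x i))) ^ 2)
      ≤ 3 * Ex (fun x => g x ^ 2) / Fintype.card κ := by
  have hM := cardT_pos_hF (κ := κ)
  set gh : ι → ℝ := fun i => Ex (fun x => g x * sv (x i)) with hgh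
  set g1 : (ι → ℤˣ) → ℝ := fun x => lin gh x with hg1
  set G : (ι → ℤˣ) → ℝ := fun x => g x - g1 x with hG
  have h1 : ∀ (zc : (ι → ℤˣ) × (ι → κ)) (j : κ),
      Ex (fun u => g (samp zc.1 zc.2 u) * sv (u j)) - ∑ i with zc.2 i = j, sv (zc.1 i) * gh i
      = Ex (fun u => G (samp zc.1 zc.2 u) * (fun u : κ → ℤˣ => sv (u j)) u) := by
    intro zc j
    simp only [hG, sub_mul]
    rw [Ex_sub]
    congr 1
    simp only [hg1, lin, samp, sv_mul, Finset.sum_mul]
    rw [Ex_sum, Finset.sum_filter]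
    apply Finset.sum_congr rfl
    intro i _
    have : ∀ u : κ → ℤˣ, gh i * (sv (zc.1 i) * sv (u (zc.2 i))) * sv (u j)
        = (gh i * sv (zc.1 i)) * (sv (u (zc.2 i)) * sv (u j)) := by intro u; ring
    simp only [this]
    rw [Ex_const_mul, Ex_two_hF]
    split_ifs <;> ring
  have h1' : ∀ (zc : (ι → ℤˣ) × (ι → κ)), (∑ j : κ,
      (Ex (fun u => g (samp zc.1 zc.2 u) * sv (u j)) - ∑ i with zc.2 i = j, sv (zc.1 i) * gh i) ^ 2)
      = ∑ j : κ, (Ex (fun u => G (samp zc.1 zc.2 u) * (fun u : κ → ℤˣ => sv (u j)) u)) ^ 2 := by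
    intro zc
    apply Finset.sum_congr rfl
    intro j _
    rw [h1]
  have h2 : Ex (fun zc : (ι → ℤˣ) × (ι → κ) => ∑ j : κ,
      (Ex (fun u => g (samp zc.1 zc.2 u) * sv (u j)) - ∑ i with zc.2 i = j, sv (zc.1 i) * gh i) ^ 2)
      = Ex (fun v : κ → ℤˣ => ∑ S, fc G S ^ 2 * ((Fintype.card κ : ℝ) * rhoT_hF v ^ (S.card + 1))) := by
    simp only [h1']
    rw [Ex_sum]
    have : ∀ j : κ, Ex (fun zc : (ι → ℤˣ) × (ι → κ) =>
        (Ex (fun u => G (samp zc.1 zc.2 u) * (fun u : κ → ℤˣ => sv (u j)) u)) ^ 2)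
        = Ex (fun u : κ → ℤˣ => Ex (fun u' : κ → ℤˣ => sv ((u * u') j)
            * ∑ S, fc G S ^ 2 * rhoT_hF (u * u') ^ S.card)) := by
      intro j
      rw [second_moment_hF]
      apply Ex_congr
      intro u
      apply Ex_congr
      intro u'
      simp only [Pi.mul_apply, sv_mul]
    simp only [this]
    have e : ∀ j : κ, Ex (fun u : κ → ℤˣ => Ex (fun u' : κ → ℤˣ => sv ((u * u') j)
            * ∑ S, fc G S ^ 2 * rhoT_hF (u * u') ^ S.card))
        = Ex (fun v : κ → ℤˣ => sv (v j) * ∑ S, fc G S ^ 2 * rhoT_hF v ^ S.card) := fun j =>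
      Ex_conv_hF (fun v : κ → ℤˣ => sv (v j) * ∑ S, fc G S ^ 2 * rhoT_hF v ^ S.card)
    simp only [e]
    rw [← Ex_sum]
    apply Ex_congr
    intro v
    rw [← Finset.sum_mul]
    have hr : (∑ j, sv (v j)) = (Fintype.card κ : ℝ) * rhoT_hF v := by
      rw [rhoT_eq_hF]; field_simp
    rw [hr, Finset.mul_sum]
    apply Finset.sum_congr rfl
    intro S _
    ring
  rw [h2, Ex_sum]
  have h3 : ∀ S : Finset ι,
      Ex (fun v : κ → ℤˣ => fc G S ^ 2 * ((Fintype.card κ : ℝ) * rhoT_hF v ^ (S.card + 1)))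
      ≤ fc G S ^ 2 * (3 / (Fintype.card κ : ℝ)) := by
    intro S
    rw [Ex_const_mul, Ex_const_mul]
    by_cases hc1 : S.card = 1
    · obtain ⟨i, rfl⟩ := Finset.card_eq_one.mp hc1
      have : fc G {i} = 0 := by
        unfold fc chi
        simp only [Finset.prod_singleton, hG, sub_mul]
        rw [Ex_sub]
        simp only [hg1, lin, Finset.sum_mul]
        rw [Ex_sum]
        have : ∀ k : ι, Ex (fun x : ι → ℤˣ => gh k * sv (x k) * sv (x i)) = if k = i then gh k else 0 := by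
          intro k
          have e : ∀ x : ι → ℤˣ, gh k * sv (x k) * sv (x i) = gh k * (sv (x k) * sv (x i)) := by
            intro x; ring
          simp only [e]
          rw [Ex_const_mul, Ex_two_hF]
          split_ifs <;> simp
        simp only [this]
        simp [hgh]
      rw [this]; simp
    · apply mul_le_mul_of_nonneg_left _ (sq_nonneg _)
      rcases Nat.lt_or_ge S.card 3 with h | h
      · have : Ex (fun v : κ → ℤˣ => rhoT_hF v ^ (S.card + 1)) = 0 := by
          rcases (by omega : S.card = 0 ∨ S.card = 2) with h0 | h0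
          · rw [h0]; simp only [zero_add, pow_one]; exact Ex_rhoT_hF
          · rw [h0]; exact Ex_rhoT_three_hF
        rw [this, mul_zero]
        positivity
      · have : Ex (fun v : κ → ℤˣ => rhoT_hF v ^ (S.card + 1)) ≤ 3 / (Fintype.card κ : ℝ) ^ 2 := by
          refine le_trans (Ex_mono fun v => ?_) Ex_rhoT_four_hF
          exact pow_le_sq_T_hF (abs_rhoT_le_hF v) (by omega) (by decide)
        calc (Fintype.card κ : ℝ) * Ex (fun v : κ → ℤˣ => rhoT_hF v ^ (S.card + 1))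
            ≤ (Fintype.card κ : ℝ) * (3 / (Fintype.card κ : ℝ) ^ 2) := by gcongr
          _ = 3 / (Fintype.card κ : ℝ) := by field_simp
  refine (Finset.sum_le_sum fun S _ => h3 S).trans ?_
  rw [← Finset.sum_mul, ← parseval]
  have h4 : Ex (fun x => G x ^ 2) ≤ Ex (fun x => g x ^ 2) := by
    have e : ∀ x, G x ^ 2 = g x ^ 2 - 2 * (g x * g1 x) + g1 x ^ 2 := by
      intro x; simp only [hG]; ring
    simp only [e]
    rw [Ex_add, Ex_sub, Ex_const_mul]
    have e1 : Ex (fun x => g x * g1 x) = ∑ i, gh i ^ 2 := by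
      simp only [hg1, lin, Finset.mul_sum]
      rw [Ex_sum]
      apply Finset.sum_congr rfl
      intro i _
      have : ∀ x : ι → ℤˣ, g x * (gh i * sv (x i)) = gh i * (g x * sv (x i)) := by intro x; ring
      simp only [this]
      rw [Ex_const_mul, sq]
    have e2 : Ex (fun x => g1 x ^ 2) = ∑ i, gh i ^ 2 := by
      simp only [hg1]
      exact Ex_lin_sq gh
    rw [e1, e2]
    have : 0 ≤ ∑ i, gh i ^ 2 := Finset.sum_nonneg fun i _ => sq_nonneg _
    linarith
  calc Ex (fun x => G x ^ 2) * (3 / (Fintype.card κ : ℝ))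
      ≤ Ex (fun x => g x ^ 2) * (3 / (Fintype.card κ : ℝ)) := by gcongr
    _ = 3 * Ex (fun x => g x ^ 2) / Fintype.card κ := by ring

end Pool.Agent.Helper497.HS
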