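import Pool.Agent.Helper497.HS.Sampling
import Pool.Agent.Helper497.HS.Core

set_option autoImplicit false

namespace Pool.Agent.Helper497.HS






section aux497

/-- splitting of the big cube -/
def E1x {n : ℕ} (J : Finset (Fin n)) (z : Fin n → ℤˣ) :
    ({i : Fin n // i ∈ J} → ℤˣ) × ({i : Fin n // i ∉ J} → ℤˣ) ≃ (Fin n → ℤˣ) where
  toFun p := fun i => if h : i ∈ J then z i * p.1 ⟨i, h⟩ else p.2 ⟨i, h⟩
  invFun y := (fun i => z i * y i, fun i => y i)
  left_inv p := by
    refine Prod.ext ?_ ?_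
    · funext i
      simp only [dif_pos i.2]
      rw [← mul_assoc, Int.units_mul_self, one_mul]
    · funext i
      simp only [dif_neg i.2]
  right_inv y := by
    funext i
    by_cases h : i ∈ J
    · simp only [dif_pos h]
      rw [← mul_assoc, Int.units_mul_self, one_mul]
    · simp only [dif_neg h]

theorem E1x_mem {n : ℕ} (J : Finset (Fin n)) (z : Fin n → ℤˣ) (a : {i : Fin n // i ∈ J} → ℤˣ)
    (x : {i : Fin n // i ∉ J} → ℤˣ) (i : {i : Fin n // i ∈ J}) :
    E1x J z (a, x) i = z i * a i := by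
  simp only [E1x, Equiv.coe_fn_mk, dif_pos i.2]

theorem E1x_notMem {n : ℕ} (J : Finset (Fin n)) (z : Fin n → ℤˣ) (a : {i : Fin n // i ∈ J} → ℤˣ)
    (x : {i : Fin n // i ∉ J} → ℤˣ) (i : {i : Fin n // i ∉ J}) :
    E1x J z (a, x) i = x i := by
  simp only [E1x, Equiv.coe_fn_mk, dif_neg i.2]

/-- chosen preimage -/
noncomputable def prex {n M : ℕ} (J : Finset (Fin n)) (c : Fin n → Fin M) (j : Fin M)
    (h : j ∈ J.image c) : {i : Fin n // i ∈ J} :=
  ⟨(Finset.mem_image.mp h).choose, (Finset.mem_image.mp h).choose_spec.1⟩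

theorem prex_spec {n M : ℕ} (J : Finset (Fin n)) (c : Fin n → Fin M) (j : Fin M)
    (h : j ∈ J.image c) : c (prex J c j h) = j :=
  (Finset.mem_image.mp h).choose_spec.2

/-- splitting of the small cube -/
noncomputable def E2x {n M : ℕ} (J : Finset (Fin n)) (c : Fin n → Fin M)
    (hc : Set.InjOn c (J : Set (Fin n))) :
    ({i : Fin n // i ∈ J} → ℤˣ) × ({j : Fin M // j ∉ J.image c} → ℤˣ) ≃ (Fin M → ℤˣ) where
  toFun p := fun j => if h : j ∈ J.image c then p.1 (prex J c j h) else p.2 ⟨j, h⟩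
  invFun w := (fun i => w (c i), fun j => w j)
  left_inv p := by
    refine Prod.ext ?_ ?_
    · funext i
      have h : c i ∈ J.image c := Finset.mem_image_of_mem c i.2
      have h2 : prex J c (c i) h = i := by
        apply Subtype.ext
        exact hc (prex J c (c i) h).2 i.2 (prex_spec J c (c i) h)
      simp only [dif_pos h, h2]
    · funext j
      simp only [dif_neg j.2]
  right_inv w := by
    funext j
    by_cases h : j ∈ J.image c
    · simp only [dif_pos h, prex_spec]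
    · simp only [dif_neg h]

theorem E2x_mem {n M : ℕ} (J : Finset (Fin n)) (c : Fin n → Fin M)
    (hc : Set.InjOn c (J : Set (Fin n))) (a : {i : Fin n // i ∈ J} → ℤˣ)
    (u : {j : Fin M // j ∉ J.image c} → ℤˣ) (i : {i : Fin n // i ∈ J}) :
    E2x J c hc (a, u) (c i) = a i := by
  have := (E2x J c hc).symm_apply_apply (a, u)
  exact congrFun (congrArg Prod.fst this) i

theorem E2x_notMem {n M : ℕ} (J : Finset (Fin n)) (c : Fin n → Fin M)
    (hc : Set.InjOn c (J : Set (Fin n))) (a : {i : Fin n // i ∈ J} → ℤˣ)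
    (u : {j : Fin M // j ∉ J.image c} → ℤˣ) (j : {j : Fin M // j ∉ J.image c}) :
    E2x J c hc (a, u) j = u j := by
  have := (E2x J c hc).symm_apply_apply (a, u)
  exact congrFun (congrArg Prod.snd this) j

theorem Ex_E1x {n : ℕ} (J : Finset (Fin n)) (z : Fin n → ℤˣ) (G : (Fin n → ℤˣ) → ℝ) :
    Ex (fun a => Ex (fun x => G (E1x J z (a, x)))) = Ex G := by
  rw [← Ex_equiv (E1x J z) G, Ex_prod]

theorem Ex_E2x {n M : ℕ} (J : Finset (Fin n)) (c : Fin n → Fin M)
    (hc : Set.InjOn c (J : Set (Fin n))) (G : (Fin M → ℤˣ) → ℝ) :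
    Ex (fun a => Ex (fun u => G (E2x J c hc (a, u)))) = Ex G := by
  rw [← Ex_equiv (E2x J c hc) G, Ex_prod]

theorem Ex_ite_x {Ω : Type} [Fintype Ω] [DecidableEq Ω] (a : Ω) (C : Ω → ℝ) :
    Ex (fun a' => if a' = a then C a' else 0) = C a / (Fintype.card Ω : ℝ) := by
  simp [Ex]

theorem lin_E2x {n M : ℕ} (J : Finset (Fin n)) (c : Fin n → Fin M)
    (hc : Set.InjOn c (J : Set (Fin n))) (w : Fin M → ℝ) (a : {i : Fin n // i ∈ J} → ℤˣ)
    (u : {j : Fin M // j ∉ J.image c} → ℤˣ) :
    lin w (E2x J c hc (a, u)) = lin (fun i : {i : Fin n // i ∈ J} => w (c i)) a +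
      lin (fun j : {j : Fin M // j ∉ J.image c} => w j) u := by
  unfold lin
  rw [← Finset.sum_add_sum_compl (J.image c), Finset.sum_image hc,
    Finset.sum_subtype J (fun _ => Iff.rfl),
    Finset.sum_subtype (J.image c)ᶜ (p := fun j => j ∉ J.image c) (fun _ => Finset.mem_compl)]
  congr 1
  · refine Finset.sum_congr rfl fun i _ => ?_
    rw [E2x_mem]
  · refine Finset.sum_congr rfl fun j _ => ?_
    rw [E2x_notMem]

theorem lin_E1x {n : ℕ} (J : Finset (Fin n)) (z : Fin n → ℤˣ) (v' : {i : Fin n // i ∈ J} → ℝ)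
    (l : {i : Fin n // i ∉ J} → ℝ) (a : {i : Fin n // i ∈ J} → ℤˣ)
    (x : {i : Fin n // i ∉ J} → ℤˣ) :
    lin (fun i => if h : i ∈ J then v' ⟨i, h⟩ * sv (z i) else l ⟨i, h⟩) (E1x J z (a, x)) =
      lin v' a + lin l x := by
  unfold lin
  rw [← Finset.sum_add_sum_compl J, Finset.sum_subtype J (fun _ => Iff.rfl),
    Finset.sum_subtype Jᶜ (p := fun j => j ∉ J) (fun _ => Finset.mem_compl)]
  congr 1
  · refine Finset.sum_congr rfl fun i _ => ?_
    rw [E1x_mem]
    simp only [dif_pos i.2]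
    rw [sv_mul, mul_assoc, ← mul_assoc (sv (z i)), sv_mul_self, one_mul]
  · refine Finset.sum_congr rfl fun j _ => ?_
    rw [E1x_notMem]
    simp only [dif_neg j.2]

theorem card_cube_x {n : ℕ} (J : Finset (Fin n)) :
    (Fintype.card ({i : Fin n // i ∈ J} → ℤˣ) : ℝ) = 2 ^ J.card := by
  rw [Fintype.card_fun, Fintype.card_units_int, Fintype.card_coe]
  push_cast
  rfl

open scoped Classical in
theorem cond_x {n : ℕ} (J : Finset (Fin n)) (z : Fin n → ℤˣ) (f : (Fin n → ℤˣ) → ℤˣ)
    (a : {i : Fin n // i ∈ J} → ℤˣ) (b : Fin n → ℤˣ) (hb : ∀ i : {i : Fin n // i ∈ J}, b i = z i * a i) :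
    Ex (fun x => if ∀ i ∈ J, x i = b i then sv (f x) else 0) =
      Ex (fun x => sv (f (E1x J z (a, x)))) / 2 ^ J.card := by
  rw [← Ex_E1x J z, ← card_cube_x J,
    ← Ex_ite_x a (fun a' => Ex (fun x => sv (f (E1x J z (a', x)))))]
  refine Ex_congr fun a' => ?_
  have hiff : ∀ x, (∀ i ∈ J, E1x J z (a', x) i = b i) ↔ a' = a := by
    intro x
    constructor
    · intro h
      funext i
      have := h i i.2
      rw [E1x_mem, hb] at this
      exact mul_left_cancel this
    · rintro rfl i hi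
      have := E1x_mem J z a' x ⟨i, hi⟩
      rw [this, hb ⟨i, hi⟩]
  by_cases h : a' = a
  · rw [if_pos h]
    refine Ex_congr fun x => ?_
    rw [if_pos ((hiff x).mpr h)]
  · rw [if_neg h]
    have : (fun x => if ∀ i ∈ J, E1x J z (a', x) i = b i then sv (f (E1x J z (a', x))) else 0) =
        fun _ => (0 : ℝ) := by
      funext x
      rw [if_neg (fun h' => h ((hiff x).mp h'))]
    rw [this]
    simp [Ex]

open scoped Classical in
theorem cond_u {n M : ℕ} (J : Finset (Fin n)) (z : Fin n → ℤˣ) (c : Fin n → Fin M)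
    (hc : Set.InjOn c (J : Set (Fin n))) (f : (Fin n → ℤˣ) → ℤˣ)
    (a : {i : Fin n // i ∈ J} → ℤˣ) (b : Fin n → ℤˣ) (hb : ∀ i : {i : Fin n // i ∈ J}, b i = z i * a i) :
    Ex (fun u => if ∀ i ∈ J, samp z c u i = b i then sv (f (samp z c u)) else 0) =
      Ex (fun u => sv (f (samp z c (E2x J c hc (a, u))))) / 2 ^ J.card := by
  rw [← Ex_E2x J c hc, ← card_cube_x J,
    ← Ex_ite_x a (fun a' => Ex (fun u => sv (f (samp z c (E2x J c hc (a', u))))))]
  refine Ex_congr fun a' => ?_
  have hiff : ∀ u, (∀ i ∈ J, samp z c (E2x J c hc (a', u)) i = b i) ↔ a' = a := by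
    intro u
    constructor
    · intro h
      funext i
      have := h i i.2
      rw [samp, E2x_mem, hb] at this
      exact mul_left_cancel this
    · rintro rfl i hi
      have := E2x_mem J c hc a' u ⟨i, hi⟩
      rw [samp, hb ⟨i, hi⟩]
      exact congrArg _ this
  by_cases h : a' = a
  · rw [if_pos h]
    refine Ex_congr fun x => ?_
    rw [if_pos ((hiff x).mpr h)]
  · rw [if_neg h]
    have : (fun u => if ∀ i ∈ J, samp z c (E2x J c hc (a', u)) i = b i then
        sv (f (samp z c (E2x J c hc (a', u)))) else 0) = fun _ => (0 : ℝ) := by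
      funext x
      rw [if_neg (fun h' => h ((hiff x).mp h'))]
    rw [this]
    simp [Ex]

end aux497

open scoped Classical in
/-- translation of the conclusion of `sampling` into the product form, plus `core`. -/
theorem soundness (ε : ℝ) (hε : 0 < ε) : ∃ (M : ℕ) (δ₀ : ℝ), 0 < M ∧ 0 < δ₀ ∧
    ∀ (n : ℕ) (f : (Fin n → ℤˣ) → ℤˣ),
      Ex (fun zc : (Fin n → ℤˣ) × (Fin n → Fin M) =>
        if IsLTF (fun u => f (samp zc.1 zc.2 u)) then (0:ℝ) else 1) < δ₀ →
      ∃ g : (Fin n → ℤˣ) → ℤˣ, IsLTF g ∧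
        Ex (fun x => if f x = g x then (0:ℝ) else 1) < ε := by
  obtain ⟨δ, hδ, hcore⟩ := core (ε / 2) (by positivity)
  obtain ⟨M, δ₀, hM, hδ₀, hs⟩ := sampling δ hδ
  refine ⟨M, δ₀, hM, hδ₀, ?_⟩
  intro n f hf
  obtain ⟨J, z, c, ⟨w, θ, hw⟩, hc, h1, h2, h3, h4⟩ := hs n f hf
  have k1 : ∀ i : {i : Fin n // i ∉ J},
      Ex (fun a => Ex (fun x => sv (f (E1x J z (a, x))) * sv (x i))) =
        Ex (fun x => sv (f x) * sv (x i)) := by
    intro i
    rw [← Ex_E1x J z]
    refine Ex_congr fun a => Ex_congr fun x => ?_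
    rw [E1x_notMem]
  have k2 : ∀ j : {j : Fin M // j ∉ J.image c},
      Ex (fun a => Ex (fun u => sv (f (samp z c (E2x J c hc (a, u)))) * sv (u j))) =
        Ex (fun u => sv (f (samp z c u)) * sv (u j)) := by
    intro j
    rw [← Ex_E2x J c hc]
    refine Ex_congr fun a => Ex_congr fun x => ?_
    rw [E2x_notMem]
  obtain ⟨v', l, θ', hfin⟩ := hcore {i : Fin n // i ∈ J} {i : Fin n // i ∉ J}
    {j : Fin M // j ∉ J.image c} (fun a x => f (E1x J z (a, x)))
    (fun a u => f (samp z c (E2x J c hc (a, u)))) (fun i => w (c i)) (fun j => w j) θ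
    (by
      intro a u
      have := hw (E2x J c hc (a, u))
      rw [lin_E2x] at this
      exact this)
    (by
      intro i
      rw [k1]
      exact h1 i i.2)
    (by
      intro a
      have hb : ∀ i : {i : Fin n // i ∈ J},
          (fun i => if h : i ∈ J then z i * a ⟨i, h⟩ else 1 : Fin n → ℤˣ) i = z i * a i := by
        intro i
        simp only [dif_pos i.2]
      have := h2 (fun i => if h : i ∈ J then z i * a ⟨i, h⟩ else 1)
      rw [cond_x J z f a _ hb, cond_u J z c hc f a _ hb, ← sub_div, abs_div,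
        abs_of_pos (by positivity : (0:ℝ) < 2 ^ J.card), mul_div_cancel₀ _ (by positivity)] at this
      exact this)
    (by
      simp only [k1, k2]
      rw [Finset.sum_subtype (Finset.univ.filter fun j => j ∉ J.image c)
        (p := fun j => j ∉ J.image c) (fun _ => by simp),
        Finset.sum_subtype (Finset.univ.filter fun i => i ∉ J)
        (p := fun i => i ∉ J) (fun _ => by simp)] at h3
      convert h3 using 3)
    (by
      intro j
      rw [k2]
      exact h4 j j.2)
  refine ⟨fun y => sgn (lin (fun i => if h : i ∈ J then v' ⟨i, h⟩ * sv (z i) else l ⟨i, h⟩) y - θ'),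
    ⟨_, _, fun _ => rfl⟩, ?_⟩
  rw [← Ex_E1x J z]
  refine lt_of_le_of_lt (le_trans (le_of_eq ?_) hfin) (half_lt_self hε)
  refine Ex_congr fun a => Ex_congr fun x => ?_
  simp only [lin_E1x]


end Pool.Agent.Helper497.HS
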